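import Mathlib
import Pool.Agent.W307.SE.Fin

/-!
# Project EC (helper870): the families with torsion `Z/2 x Z/6` and `Z/2 x Z/8`

Statements of the independent parts.
-/

set_option autoImplicit false

namespace Pool.Agent.N870.EC

open Finset

open scoped Classical

open Pool.Agent.W307.SE (Sel SN SelR PARX)
open Pool.Agent.W307.RT (Sh HasT Cv)

/-- the coefficients of the curve isomorphic to `y² = x (x + M) (x + N)` with the roots `e₁`, `e₂`,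
`e₃`, where `e₁ = 3 (M + N)`, `e₂ - e₁ = - 9 M`, `e₃ - e₁ = - 9 N` -/
def cM (M N : ℤ) : ℤ × ℤ :=
  (-27 * (M ^ 2 - M * N + N ^ 2), 27 * ((M + N) * ((2 * M - N) * (M - 2 * N))))

/-- the forms for `Z/2 x Z/6` -/
def M6 (a b : ℤ) : ℤ := a ^ 3 * (a + 6 * b)

/-- the forms for `Z/2 x Z/6` -/
def N6 (a b : ℤ) : ℤ := (3 * b) ^ 3 * (3 * b + 2 * a)

/-- the forms for `Z/2 x Z/8` -/
def M8 (a b : ℤ) : ℤ := (a ^ 2 - 4 * b ^ 2) ^ 4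

/-- the forms for `Z/2 x Z/8` -/
def N8 (a b : ℤ) : ℤ := (4 * a * b) ^ 4

/-- the pairs of integers give curves of the family `Cv m H`, each at most 6 times -/
def FAMG (m k : ℕ) (M N : ℤ → ℤ → ℤ) : Prop := ∃ K : ℕ, ∀ X H : ℕ, K * X ^ k ≤ H →
  (∀ A B : ℕ, 1 ≤ A → A ≤ X → 1 ≤ B → B ≤ X → A.Coprime B → A % 6 = 1 → 3 * B < A →
    cM (M A B) (N A B) ∈ Cv m H) ∧
  ∀ c : ℤ × ℤ, ((Icc 1 X ×ˢ Icc 1 X).filter (fun t : ℕ × ℕ => t.1.Coprime t.2 ∧ t.1 % 6 = 1 ∧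
    3 * t.2 < t.1 ∧ cM (M t.1 t.2) (N t.1 t.2) = c)).card ≤ 6

/-- EC/FAM6 -/
def S_FAM6 : Prop := FAMG 6 24 M6 N6

/-- EC/FAM8 -/
def S_FAM8 : Prop := FAMG 8 48 M8 N8

/-- EC/SZG. The Selmer groups of the curves `cM M N`. -/
def S_SZG : Prop := ∀ M N : ℤ, M ≠ 0 → N ≠ 0 → M ≠ N →
  SN (-M) (-N) ≤ ((SelR (cM M N).1 (cM M N).2).ncard : ℝ)

/-- EC/CARDG. The number of the curves with a given parametrisation. -/
def S_CARDG : Prop := ∀ (m k : ℕ) (M N : ℤ → ℤ → ℤ), 1 ≤ k → PARX m k M N →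
  ∃ K : ℝ, ∀ H : ℕ, ((Cv m H).card : ℝ) ≤ K * ((H : ℝ) + 1) ^ ((2 : ℝ) / k)

/-- EC/DEN6. The numbers of the residues. -/
def S_DEN6 : Prop := ∀ p : ℕ, p.Prime → 5 ≤ p →
  ((range p ×ˢ range p).filter (fun t : ℕ × ℕ => (p : ℤ) ∣ -M6 t.1 t.2 - -N6 t.1 t.2 ∧
    jacobiSym (-M6 t.1 t.2) p = 1)).card = (p - 1) * (1 + if p % 3 = 1 then 1 else 0) ∧
  ((range p ×ˢ range p).filter (fun t : ℕ × ℕ => (p : ℤ) ∣ -M6 t.1 t.2 * -N6 t.1 t.2)).card =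
    4 * p - 3

/-- EC/DEN8. The numbers of the residues. -/
def S_DEN8 : Prop := ∀ p : ℕ, p.Prime → 5 ≤ p →
  ((range p ×ˢ range p).filter (fun t : ℕ × ℕ => (p : ℤ) ∣ -M8 t.1 t.2 - -N8 t.1 t.2 ∧
    jacobiSym (-M8 t.1 t.2) p = 1)).card =
      (p - 1) * (2 * (if p % 4 = 1 then 1 else 0) + 4 * (if p % 8 = 1 then 1 else 0)) ∧
  ((range p ×ˢ range p).filter (fun t : ℕ × ℕ => (p : ℤ) ∣ -M8 t.1 t.2 * -N8 t.1 t.2)).card =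
    4 * p - 3

end Pool.Agent.N870.EC
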