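import Mathlib
import Pool.Agent.N870.SQ.Sv

/-!
# Project EC: the abstract lower bound for the mean value of a product of weights

Seat helper870.
-/

set_option autoImplicit false

namespace Pool.Agent.N870.EC

open Finset Pool.Agent.W262.RK Pool.Agent.TH841.PT

open scoped Classical

/-- the weight of the good primes, truncated -/
noncomputable def wt (lam : ℝ) (P1 : Finset ℕ) (T : ℕ) (G : ℕ → Prop) : ℝ :=
  ∑ D ∈ P1.powerset.filter (fun D : Finset ℕ => ∏ p ∈ D, p ≤ T),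
    if ∀ p ∈ D, G p then lam ^ D.card else 0

/-- the weight of the bad primes -/
noncomputable def fac (θ : ℝ) (P : Finset ℕ) (B H : ℕ → Prop) : ℝ :=
  ∏ p ∈ P, (1 - θ * (if B p then 1 else 0) - (1 - θ) * (if H p then 1 else 0))

lemma wt_nonneg {lam : ℝ} (h : 0 ≤ lam) (P1 : Finset ℕ) (T : ℕ) (G : ℕ → Prop) :
    0 ≤ wt lam P1 T G := by
  unfold wt
  refine sum_nonneg fun D _ => ?_
  split_ifs
  · positivity
  · exact le_rfl

/-- the number of the sets -/
lemma card_sets {z y T : ℕ} {P1 : Finset ℕ} (h1 : P1 ⊆ PS z y) (hT : 1 ≤ T) :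
    ((P1.powerset.filter (fun D : Finset ℕ => ∏ p ∈ D, p ≤ T)).card : ℝ) ≤ 2 * T := by
  have h2 : (P1.powerset.filter (fun D : Finset ℕ => ∏ p ∈ D, p ≤ T)).card ≤ T + 1 := by
    rw [← card_range (T + 1)]
    apply card_le_card_of_injOn (fun D => ∏ p ∈ D, p)
    · intro D hD
      rw [mem_coe, mem_filter] at hD
      rw [mem_coe, mem_range]
      simp only
      omega
    · intro D hD D' hD' h
      rw [mem_coe, mem_filter, mem_powerset] at hD hD'
      have h3 : ∀ U : Finset ℕ, U ⊆ P1 → (∏ p ∈ U, p).primeFactors = U := by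
        intro U hU
        exact Nat.primeFactors_prod fun p hp => (mem_PS.1 (h1 (hU hp))).2
      rw [← h3 D hD.1, ← h3 D' hD'.1]
      exact congrArg Nat.primeFactors h
  have h4 : (P1.powerset.filter (fun D : Finset ℕ => ∏ p ∈ D, p ≤ T)).card ≤ 2 * T := by omega
  exact_mod_cast h4

lemma lam_pow_le {z y T : ℕ} {lam : ℝ} {P1 D : Finset ℕ} (h1 : P1 ⊆ PS z y) (h0 : 0 ≤ lam)
    (hz : lam ≤ z) (hD : D ∈ P1.powerset.filter (fun D : Finset ℕ => ∏ p ∈ D, p ≤ T)) :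
    lam ^ D.card ≤ T := by
  rw [mem_filter, mem_powerset] at hD
  calc lam ^ D.card = ∏ p ∈ D, lam := (prod_const _).symm
    _ ≤ ∏ p ∈ D, (p : ℝ) := by
        refine prod_le_prod (fun _ _ => h0) fun p hp => hz.trans ?_
        exact_mod_cast (mem_PS.1 (h1 (hD.1 hp))).1.1.le
    _ = ((∏ p ∈ D, p : ℕ) : ℝ) := by push_cast; rfl
    _ ≤ T := by exact_mod_cast hD.2

/-- the weight is at most `2 T ^ 2` -/
lemma wt_le {z y T : ℕ} {lam : ℝ} {P1 : Finset ℕ} (h1 : P1 ⊆ PS z y) (hT : 1 ≤ T) (h0 : 0 ≤ lam)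
    (hz : lam ≤ z) (G : ℕ → Prop) : wt lam P1 T G ≤ 2 * (T : ℝ) ^ 2 := by
  unfold wt
  have h2 : ∀ D ∈ P1.powerset.filter (fun D : Finset ℕ => ∏ p ∈ D, p ≤ T),
      (if ∀ p ∈ D, G p then lam ^ D.card else 0) ≤ (T : ℝ) := by
    intro D hD
    split_ifs
    · exact lam_pow_le h1 h0 hz hD
    · exact Nat.cast_nonneg _
  refine (sum_le_sum h2).trans ?_
  rw [sum_const, nsmul_eq_mul]
  calc _ ≤ 2 * (T : ℝ) * T := mul_le_mul_of_nonneg_right (card_sets h1 hT) (Nat.cast_nonneg _)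
    _ = _ := by ring

/-- the weight is at most the product -/
lemma wt_le_prod {lam : ℝ} (h0 : 0 ≤ lam) (P1 : Finset ℕ) (T : ℕ) (G : ℕ → Prop) :
    wt lam P1 T G ≤ (1 + lam) ^ (P1.filter G).card := by
  have h1 : (1 + lam) ^ (P1.filter G).card = ∑ D ∈ (P1.filter G).powerset, lam ^ D.card := by
    rw [add_comm, ← prod_const, prod_add]
    refine sum_congr rfl fun D _ => ?_
    simp
  rw [h1]
  unfold wt
  rw [← sum_filter]
  refine sum_le_sum_of_subset_of_nonneg ?_ fun _ _ _ => by positivity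
  intro D hD
  rw [mem_filter, mem_filter, mem_powerset] at hD
  rw [mem_powerset]
  intro p hp
  rw [mem_filter]
  exact ⟨hD.1.1 hp, hD.2 p hp⟩

section

variable {θ : ℝ} (h0 : 0 ≤ θ) (h1 : θ ≤ 1)

include h0 h1 in
lemma fac_term (B H : Prop) :
    0 ≤ 1 - θ * (if B then (1 : ℝ) else 0) - (1 - θ) * (if H then (1 : ℝ) else 0) ∧
    1 - θ * (if B then (1 : ℝ) else 0) - (1 - θ) * (if H then (1 : ℝ) else 0) ≤ 1 := by
  split_ifs <;> constructor <;> nlinarith

include h0 h1 in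
lemma fac_nonneg (P : Finset ℕ) (B H : ℕ → Prop) : 0 ≤ fac θ P B H :=
  prod_nonneg fun _ _ => (fac_term h0 h1 _ _).1

include h0 h1 in
lemma fac_le_one (P : Finset ℕ) (B H : ℕ → Prop) : fac θ P B H ≤ 1 :=
  prod_le_one (fun _ _ => (fac_term h0 h1 _ _).1) fun _ _ => (fac_term h0 h1 _ _).2

/-- the expansion of the weight -/
lemma fac_expand (P : Finset ℕ) (B H : ℕ → Prop) : fac θ P B H =
    ∑ Q ∈ P.powerset, θ ^ Q.card * (1 - θ) ^ (P \ Q).card *
      (if ∀ p ∈ P, ¬ (if p ∈ Q then B p else H p) then 1 else 0) := by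
  unfold fac
  have e : ∀ p ∈ P, (1 - θ * (if B p then (1 : ℝ) else 0) - (1 - θ) * (if H p then (1 : ℝ) else 0)) =
      θ * (if B p then 0 else 1) + (1 - θ) * (if H p then 0 else 1) := by
    intro p _
    split_ifs <;> ring
  rw [prod_congr rfl e, prod_add]
  refine sum_congr rfl fun Q hQ => ?_
  rw [mem_powerset] at hQ
  rw [prod_mul_distrib, prod_mul_distrib, prod_const, prod_const]
  have e2 : (∏ p ∈ Q, (if B p then (0 : ℝ) else 1)) * ∏ p ∈ P \ Q, (if H p then (0 : ℝ) else 1) =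
      (if ∀ p ∈ P, ¬ (if p ∈ Q then B p else H p) then 1 else 0) := by
    by_cases hall : ∀ p ∈ P, ¬ (if p ∈ Q then B p else H p)
    · rw [if_pos hall]
      have k1 : ∏ p ∈ Q, (if B p then (0 : ℝ) else 1) = 1 := by
        refine prod_eq_one fun p hp => ?_
        have := hall p (hQ hp)
        rw [if_pos hp] at this
        rw [if_neg this]
      have k2 : ∏ p ∈ P \ Q, (if H p then (0 : ℝ) else 1) = 1 := by
        refine prod_eq_one fun p hp => ?_
        rw [mem_sdiff] at hp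
        have := hall p hp.1
        rw [if_neg hp.2] at this
        rw [if_neg this]
      rw [k1, k2, one_mul]
    · rw [if_neg hall]
      push Not at hall
      obtain ⟨p, hp, hp2⟩ := hall
      by_cases hpQ : p ∈ Q
      · rw [if_pos hpQ] at hp2
        have : ∏ p ∈ Q, (if B p then (0 : ℝ) else 1) = 0 :=
          prod_eq_zero hpQ (if_pos hp2)
        rw [this, zero_mul]
      · rw [if_neg hpQ] at hp2
        have : ∏ p ∈ P \ Q, (if H p then (0 : ℝ) else 1) = 0 :=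
          prod_eq_zero (mem_sdiff.2 ⟨hp, hpQ⟩) (if_pos hp2)
        rw [this, mul_zero]
  rw [← e2]
  ring

/-- the sum of the weights -/
lemma sum_w (P : Finset ℕ) : ∑ Q ∈ P.powerset, θ ^ Q.card * (1 - θ) ^ (P \ Q).card = 1 := by
  have h := prod_add (fun _ : ℕ => θ) (fun _ => 1 - θ) P
  simp only [prod_const] at h
  rw [← h]
  simp

/-- the sum of the densities -/
lemma sum_d (P : Finset ℕ) (b h : ℕ → ℝ) :
    ∑ Q ∈ P.powerset, θ ^ Q.card * (1 - θ) ^ (P \ Q).card *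
      ∏ p ∈ P, (1 - if p ∈ Q then b p else h p) = ∏ p ∈ P, (1 - θ * b p - (1 - θ) * h p) := by
  have e : ∀ p ∈ P, (1 - θ * b p - (1 - θ) * h p) = θ * (1 - b p) + (1 - θ) * (1 - h p) := by
    intro p _
    ring
  rw [prod_congr rfl e, prod_add]
  refine sum_congr rfl fun Q hQ => ?_
  rw [mem_powerset] at hQ
  rw [prod_mul_distrib, prod_mul_distrib, prod_const, prod_const, ← prod_sdiff hQ]
  have e1 : ∏ p ∈ Q, (1 - if p ∈ Q then b p else h p) = ∏ p ∈ Q, (1 - b p) :=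
    prod_congr rfl fun p hp => by rw [if_pos hp]
  have e2 : ∏ p ∈ P \ Q, (1 - if p ∈ Q then b p else h p) = ∏ p ∈ P \ Q, (1 - h p) :=
    prod_congr rfl fun p hp => by rw [if_neg (mem_sdiff.1 hp).2]
  rw [e1, e2]
  ring

end

set_option maxHeartbeats 1000000 in
/-- **the abstract lower bound** -/
theorem abs1 (c : ℕ) : ∃ C0 K : ℕ, 1 ≤ C0 ∧ 1 ≤ K ∧ ∀ (z y T L : ℕ) (lam θ X : ℝ)
    (P1 I : Finset ℕ) (Gd Bd Hd : ℕ → ℕ → Prop) (g b h : ℕ → ℝ),
    C0 ≤ z → 2 * c + 2 ≤ z → 3 ≤ y → 1 ≤ T → 0 ≤ lam → lam ≤ z → 0 ≤ θ → θ ≤ 1 → 0 ≤ X →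
    P1 ⊆ PS z y → T * y ^ K ≤ L →
    (∀ p ∈ PS z y, 0 ≤ g p ∧ 0 ≤ b p ∧ b p ≤ c / p ∧ 0 ≤ h p ∧ h p ≤ c / p) →
    (∀ p ∈ PS z y, ∀ i ∈ I, (Gd p i → ¬ Bd p i) ∧ (Hd p i → Bd p i)) →
    (∀ D ⊆ P1, ∀ Q1 ⊆ PS z y, ∀ Q2 ⊆ PS z y, Disjoint D Q1 → Disjoint D Q2 → Disjoint Q1 Q2 →
      (∏ p ∈ D, p) * ((∏ p ∈ Q1, p) * ∏ p ∈ Q2, p) ≤ L →
      |((I.filter (fun i => (∀ p ∈ D, Gd p i) ∧ (∀ p ∈ Q1, Bd p i) ∧ ∀ p ∈ Q2, Hd p i)).card : ℝ) -
        X * ((∏ p ∈ D, g p) * ((∏ p ∈ Q1, b p) * ∏ p ∈ Q2, h p))| ≤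
        ((((∏ p ∈ D, p) * ((∏ p ∈ Q1, p) * ∏ p ∈ Q2, p) : ℕ) : ℝ)) ^ 2 * (X / L)) →
    1 / 2 * X * (∑ D ∈ P1.powerset.filter (fun D : Finset ℕ => ∏ p ∈ D, p ≤ T),
      ∏ p ∈ D, (lam * g p)) * ∏ p ∈ PS z y, (1 - θ * b p - (1 - θ) * h p) -
      8 * (T : ℝ) ^ 4 * (y : ℝ) ^ K * (X / L) ≤
    ∑ i ∈ I, wt lam P1 T (fun p => Gd p i) * fac θ (PS z y) (fun p => Bd p i) (fun p => Hd p i) := by
  obtain ⟨C0, hC0, hF⟩ := Pool.Agent.H20R2.fLem c
  refine ⟨C0, 6 * C0 ^ 2 + 1, hC0, by omega, ?_⟩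
  intro z y T L lam θ X P1 I Gd Bd Hd g b h hz hcz hy3 hT hl0 hlz hθ0 hθ1 hX hP1 hTL hden hdis hcnt
  set J := Pool.Agent.H373R2.T7.JJ y with hJ
  have hyJ : y < 2 ^ 2 ^ J := Pool.Agent.H373R2.T7.JJ_lt y
  have hJy : 2 ^ 2 ^ J ≤ y ^ 2 := Pool.Agent.H373R2.T7.JJ_le y (by omega)
  have hJs : J + 2 ≤ 2 * y := Pool.Agent.H373R2.T7.JJ_small y hy3
  set P : Finset ℕ := PS z y with hP
  set D0 : ℕ := (2 ^ 2 ^ J) ^ (C0 * C0) with hD0
  have hDy : D0 ≤ y ^ (2 * C0 ^ 2) := by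
    calc D0 ≤ (y ^ 2) ^ (C0 * C0) := Nat.pow_le_pow_left hJy _
      _ = y ^ (2 * C0 ^ 2) := by rw [← pow_mul]; congr 1; ring
  have hy1 : 1 ≤ y := by omega
  have hL1 : 1 ≤ L := le_trans (Nat.mul_pos hT (Nat.pow_pos (by omega))) hTL
  have hLr : (0 : ℝ) < L := by exact_mod_cast hL1
  have hXL : 0 ≤ X / L := by positivity
  have hTr : (1 : ℝ) ≤ T := by exact_mod_cast hT
  have hyr : (1 : ℝ) ≤ y := by exact_mod_cast hy1
  have hpp : ∀ p ∈ P, p.Prime ∧ z < p ∧ p ≤ y := by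
    intro p hp
    rw [hP, mem_PS] at hp
    exact ⟨hp.2, hp.1.1, hp.1.2⟩
  -- one set of good primes
  have hone : ∀ D ∈ P1.powerset.filter (fun D : Finset ℕ => ∏ p ∈ D, p ≤ T),
      1 / 2 * (X * ∏ p ∈ D, g p) * ∏ p ∈ P, (1 - θ * b p - (1 - θ) * h p) -
        4 * (y : ℝ) ^ (6 * C0 ^ 2 + 1) * (T : ℝ) ^ 2 * (X / L) ≤
      ∑ i ∈ I.filter (fun i => ∀ p ∈ D, Gd p i), fac θ P (fun p => Bd p i) (fun p => Hd p i) := by
    intro D hD
    rw [mem_filter, mem_powerset] at hD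
    have hDP : D ⊆ P := hD.1.trans hP1
    have hP'P : P \ D ⊆ P := sdiff_subset
    obtain ⟨A, hA⟩ : ∃ A : ℝ, A = X * ∏ p ∈ D, g p := ⟨_, rfl⟩
    have hA0 : 0 ≤ A := by
      rw [hA]
      exact mul_nonneg hX (prod_nonneg fun p hp => (hden p (hDP hp)).1)
    have hdq : ∀ Q : Finset ℕ, ∀ p ∈ P, 0 ≤ (if p ∈ Q then b p else h p) ∧
        (if p ∈ Q then b p else h p) ≤ c / ((p : ℝ) - 1) := by
      intro Q p hp
      obtain ⟨-, k2, k3, k4, k5⟩ := hden p hp
      have h2 : (2 : ℝ) ≤ p := by exact_mod_cast (hpp p hp).1.two_le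
      have h3 : (c : ℝ) / p ≤ c / ((p : ℝ) - 1) :=
        div_le_div_of_nonneg_left (Nat.cast_nonneg _) (by linarith) (by linarith)
      split_ifs
      · exact ⟨k2, k3.trans h3⟩
      · exact ⟨k4, k5.trans h3⟩
    -- the sieve
    have hsv : ∀ Q ∈ (P \ D).powerset,
        1 / 2 * A * ∏ p ∈ P \ D, (1 - if p ∈ Q then b p else h p) -
          4 * (y : ℝ) ^ (6 * C0 ^ 2 + 1) * (T : ℝ) ^ 2 * (X / L) ≤
        (((I.filter (fun i => ∀ p ∈ D, Gd p i)).filter
          (fun i => ∀ p ∈ P \ D, ¬ (if p ∈ Q then Bd p i else Hd p i))).card : ℝ) := by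
      intro Q hQ
      rw [mem_powerset] at hQ
      have hfl := hF C0 J z (P \ D) (fun p => if p ∈ Q then b p else h p) le_rfl hz
        (fun p hp => by
          have := hpp p (hP'P hp)
          exact ⟨this.1, this.2.1, this.2.2.trans hyJ.le⟩)
        (fun p hp => hdq Q p (hP'P hp))
        (I.filter (fun i => ∀ p ∈ D, Gd p i)) (fun _ => 1)
        (fun p i => if p ∈ Q then Bd p i else Hd p i) A
        (fun T' => (((∏ p ∈ D, p) * ∏ p ∈ T', p : ℕ) : ℝ) ^ 2 * (X / L)) (fun _ _ => zero_le_one)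
        hA0 (by
          intro T' hT' hTD
          have e1 : T' = T'.filter (· ∈ Q) ∪ T'.filter (· ∉ Q) := (filter_union_filter_not_eq _ _).symm
          have e2 : Disjoint (T'.filter (· ∈ Q)) (T'.filter (· ∉ Q)) := disjoint_filter_filter_not _ _ _
          have e3 : ∀ F : ℕ → ℝ, ∏ p ∈ T', F p =
              (∏ p ∈ T'.filter (· ∈ Q), F p) * ∏ p ∈ T'.filter (· ∉ Q), F p := by
            intro F
            conv_lhs => rw [e1]
            rw [prod_union e2]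
          have e3' : ∏ p ∈ T', p =
              (∏ p ∈ T'.filter (· ∈ Q), p) * ∏ p ∈ T'.filter (· ∉ Q), p := by
            conv_lhs => rw [e1]
            rw [prod_union e2]
          have hdj : ∀ U ⊆ T', Disjoint D U := by
            intro U hU
            rw [disjoint_left]
            intro p hp hpU
            exact (mem_sdiff.1 (hT' (hU hpU))).2 hp
          have hk := hcnt D hD.1 (T'.filter (· ∈ Q)) ((filter_subset _ _).trans (hT'.trans hP'P))
            (T'.filter (· ∉ Q)) ((filter_subset _ _).trans (hT'.trans hP'P))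
            (hdj _ (filter_subset _ _)) (hdj _ (filter_subset _ _)) e2 (by
              rw [← e3']
              calc (∏ p ∈ D, p) * ∏ p ∈ T', p ≤ T * D0 := Nat.mul_le_mul hD.2 hTD
                _ ≤ T * y ^ (2 * C0 ^ 2) := Nat.mul_le_mul_left _ hDy
                _ ≤ T * y ^ (6 * C0 ^ 2 + 1) :=
                  Nat.mul_le_mul_left _ (Nat.pow_le_pow_right hy1 (by nlinarith))
                _ ≤ L := hTL)
          rw [← e3'] at hk
          have e4 : ∏ p ∈ T', (if p ∈ Q then b p else h p) =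
              (∏ p ∈ T'.filter (· ∈ Q), b p) * ∏ p ∈ T'.filter (· ∉ Q), h p := by
            rw [e3]
            congr 1
            · exact prod_congr rfl fun p hp => by rw [if_pos (mem_filter.1 hp).2]
            · exact prod_congr rfl fun p hp => by rw [if_neg (mem_filter.1 hp).2]
          have e5 : ∀ i, ((∀ p ∈ D, Gd p i) ∧ ∀ p ∈ T', if p ∈ Q then Bd p i else Hd p i) ↔
              ((∀ p ∈ D, Gd p i) ∧ (∀ p ∈ T'.filter (· ∈ Q), Bd p i) ∧
                ∀ p ∈ T'.filter (· ∉ Q), Hd p i) := by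
            intro i
            refine and_congr_right fun _ => ?_
            constructor
            · intro hh
              refine ⟨fun p hp => ?_, fun p hp => ?_⟩
              · rw [mem_filter] at hp
                have := hh p hp.1
                rwa [if_pos hp.2] at this
              · rw [mem_filter] at hp
                have := hh p hp.1
                rwa [if_neg hp.2] at this
            · rintro ⟨hh1, hh2⟩ p hp
              split_ifs with hpQ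
              · exact hh1 p (mem_filter.2 ⟨hp, hpQ⟩)
              · exact hh2 p (mem_filter.2 ⟨hp, hpQ⟩)
          rw [sum_const, nsmul_eq_mul, mul_one, e4, hA, mul_assoc]
          refine le_of_eq_of_le ?_ hk
          congr 3
          refine congrArg Finset.card ?_
          ext i
          simp only [mem_filter, and_assoc]
          simp only [mem_filter] at e5
          exact and_congr_right fun _ => e5 i)
      rw [sum_const, nsmul_eq_mul, mul_one] at hfl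
      obtain ⟨W, hW⟩ : ∃ W : ℝ, W = ∏ p ∈ P \ D, (1 - if p ∈ Q then b p else h p) := ⟨_, rfl⟩
      have hW0 : 0 ≤ W := by
        rw [hW]
        refine prod_nonneg fun p hp => ?_
        obtain ⟨k0, k1⟩ := hdq Q p (hP'P hp)
        have k2 := (hpp p (hP'P hp)).2.1
        have k3 : (2 * c + 2 : ℝ) < p := by exact_mod_cast (by omega : 2 * c + 2 < p)
        have k4 : (c : ℝ) / ((p : ℝ) - 1) ≤ 1 := by
          rw [div_le_one (by nlinarith [Nat.cast_nonneg (α := ℝ) c])]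
          have : (0 : ℝ) ≤ c := Nat.cast_nonneg _
          linarith
        linarith
      -- the errors
      have hE : ∑ T' ∈ (P \ D).powerset.filter (fun T' : Finset ℕ => ∏ p ∈ T', p ≤ D0),
          (((∏ p ∈ D, p) * ∏ p ∈ T', p : ℕ) : ℝ) ^ 2 * (X / L) ≤
          2 * (D0 : ℝ) ^ 3 * (T : ℝ) ^ 2 * (X / L) := by
        have hD1 : 1 ≤ D0 := Nat.one_le_pow _ _ (by positivity)
        have g1 : ∀ T' ∈ (P \ D).powerset.filter (fun T' : Finset ℕ => ∏ p ∈ T', p ≤ D0),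
            (((∏ p ∈ D, p) * ∏ p ∈ T', p : ℕ) : ℝ) ^ 2 * (X / L) ≤
              ((T : ℝ) * D0) ^ 2 * (X / L) := by
          intro T' hT'
          rw [mem_filter] at hT'
          refine mul_le_mul_of_nonneg_right (pow_le_pow_left₀ (Nat.cast_nonneg _) ?_ 2) hXL
          exact_mod_cast Nat.mul_le_mul hD.2 hT'.2
        refine (sum_le_sum g1).trans ?_
        rw [sum_const, nsmul_eq_mul]
        have g2 := card_sets (z := z) (y := y) (T := D0) (P1 := P \ D) hP'P hD1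
        calc _ ≤ 2 * (D0 : ℝ) * (((T : ℝ) * D0) ^ 2 * (X / L)) :=
              mul_le_mul_of_nonneg_right g2 (by positivity)
          _ = _ := by ring
      have herr : ((J : ℝ) + 2) * (2 * (D0 : ℝ) ^ 3 * (T : ℝ) ^ 2 * (X / L)) ≤
          4 * (y : ℝ) ^ (6 * C0 ^ 2 + 1) * (T : ℝ) ^ 2 * (X / L) := by
        have g1 : ((J : ℝ) + 2) ≤ 2 * y := by exact_mod_cast hJs
        have g2 : (D0 : ℝ) ≤ (y : ℝ) ^ (2 * C0 ^ 2) := by exact_mod_cast hDy
        have g3 : (D0 : ℝ) ^ 3 ≤ (y : ℝ) ^ (6 * C0 ^ 2) := by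
          calc (D0 : ℝ) ^ 3 ≤ ((y : ℝ) ^ (2 * C0 ^ 2)) ^ 3 :=
                pow_le_pow_left₀ (Nat.cast_nonneg _) g2 3
            _ = (y : ℝ) ^ (6 * C0 ^ 2) := by rw [← pow_mul]; congr 1; ring
        calc ((J : ℝ) + 2) * (2 * (D0 : ℝ) ^ 3 * (T : ℝ) ^ 2 * (X / L))
            ≤ (2 * y) * (2 * (y : ℝ) ^ (6 * C0 ^ 2) * (T : ℝ) ^ 2 * (X / L)) := by gcongr
          _ = _ := by rw [pow_succ]; ring
      rw [← hW] at hfl ⊢
      have h7 := (abs_le.1 hfl).1
      have h8 : ((1 : ℝ) / 2) ^ C0 ≤ 1 / 2 := by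
        calc ((1 : ℝ) / 2) ^ C0 ≤ ((1 : ℝ) / 2) ^ 1 :=
              pow_le_pow_of_le_one (by norm_num) (by norm_num) hC0
          _ = 1 / 2 := pow_one _
      have h9 : ((1 : ℝ) / 2) ^ C0 * (A * W) ≤ 1 / 2 * (A * W) :=
        mul_le_mul_of_nonneg_right h8 (by positivity)
      have h10 := mul_le_mul_of_nonneg_left hE (show (0 : ℝ) ≤ (J : ℝ) + 2 by positivity)
      refine le_trans ?_ ((le_sub_iff_add_le.1 h7).trans (le_of_eq ?_))
      · linarith
      · congr!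
    -- the average over the sets
    have e1 : ∀ i ∈ I.filter (fun i => ∀ p ∈ D, Gd p i),
        fac θ P (fun p => Bd p i) (fun p => Hd p i) =
        fac θ (P \ D) (fun p => Bd p i) (fun p => Hd p i) := by
      intro i hi
      rw [mem_filter] at hi
      unfold fac
      rw [← prod_sdiff hDP]
      have : ∏ p ∈ D, (1 - θ * (if Bd p i then (1 : ℝ) else 0) -
          (1 - θ) * (if Hd p i then (1 : ℝ) else 0)) = 1 := by
        refine prod_eq_one fun p hp => ?_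
        obtain ⟨k1, k2⟩ := hdis p (hDP hp) i hi.1
        have k3 := k1 (hi.2 p hp)
        rw [if_neg k3, if_neg (fun h' => k3 (k2 h'))]
        ring
      rw [this, mul_one]
    rw [sum_congr rfl e1]
    have e2 : ∑ i ∈ I.filter (fun i => ∀ p ∈ D, Gd p i),
        fac θ (P \ D) (fun p => Bd p i) (fun p => Hd p i) =
        ∑ Q ∈ (P \ D).powerset, θ ^ Q.card * (1 - θ) ^ ((P \ D) \ Q).card *
          (((I.filter (fun i => ∀ p ∈ D, Gd p i)).filter
            (fun i => ∀ p ∈ P \ D, ¬ (if p ∈ Q then Bd p i else Hd p i))).card : ℝ) := by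
      rw [sum_congr rfl (fun i _ => fac_expand (P \ D) (fun p => Bd p i) (fun p => Hd p i)),
        sum_comm]
      refine sum_congr rfl fun Q _ => ?_
      rw [← mul_sum, ← sum_filter, sum_const, nsmul_eq_mul, mul_one]
    rw [e2]
    have e3 : ∑ Q ∈ (P \ D).powerset, θ ^ Q.card * (1 - θ) ^ ((P \ D) \ Q).card *
        (1 / 2 * A * ∏ p ∈ P \ D, (1 - if p ∈ Q then b p else h p) -
          4 * (y : ℝ) ^ (6 * C0 ^ 2 + 1) * (T : ℝ) ^ 2 * (X / L)) =
        1 / 2 * A * ∏ p ∈ P \ D, (1 - θ * b p - (1 - θ) * h p) -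
          4 * (y : ℝ) ^ (6 * C0 ^ 2 + 1) * (T : ℝ) ^ 2 * (X / L) := by
      have k1 := sum_d (θ := θ) (P \ D) b h
      have k2 := sum_w (θ := θ) (P \ D)
      rw [← k1]
      have k3 : ∀ Q ∈ (P \ D).powerset, θ ^ Q.card * (1 - θ) ^ ((P \ D) \ Q).card *
          (1 / 2 * A * ∏ p ∈ P \ D, (1 - if p ∈ Q then b p else h p) -
            4 * (y : ℝ) ^ (6 * C0 ^ 2 + 1) * (T : ℝ) ^ 2 * (X / L)) =
          1 / 2 * A * (θ ^ Q.card * (1 - θ) ^ ((P \ D) \ Q).card *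
            ∏ p ∈ P \ D, (1 - if p ∈ Q then b p else h p)) -
          4 * (y : ℝ) ^ (6 * C0 ^ 2 + 1) * (T : ℝ) ^ 2 * (X / L) *
            (θ ^ Q.card * (1 - θ) ^ ((P \ D) \ Q).card) := by
        intro Q _
        ring
      rw [sum_congr rfl k3, sum_sub_distrib, ← mul_sum, ← mul_sum, k2, mul_one]
    have e4 : 1 / 2 * A * ∏ p ∈ P \ D, (1 - θ * b p - (1 - θ) * h p) -
          4 * (y : ℝ) ^ (6 * C0 ^ 2 + 1) * (T : ℝ) ^ 2 * (X / L) ≤
        ∑ Q ∈ (P \ D).powerset, θ ^ Q.card * (1 - θ) ^ ((P \ D) \ Q).card *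
          (((I.filter (fun i => ∀ p ∈ D, Gd p i)).filter
            (fun i => ∀ p ∈ P \ D, ¬ (if p ∈ Q then Bd p i else Hd p i))).card : ℝ) := by
      rw [← e3]
      refine sum_le_sum fun Q hQ => mul_le_mul_of_nonneg_left (hsv Q hQ) ?_
      have : 0 ≤ 1 - θ := by linarith
      positivity
    refine le_trans ?_ e4
    have hterm : ∀ p ∈ P, 0 ≤ 1 - θ * b p - (1 - θ) * h p ∧ 1 - θ * b p - (1 - θ) * h p ≤ 1 := by
      intro p hp
      obtain ⟨-, k2, k3, k4, k5⟩ := hden p hp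
      have k6 := (hpp p hp).2.1
      have k7 : (2 * c + 2 : ℝ) < p := by exact_mod_cast (by omega : 2 * c + 2 < p)
      have k8 : (0 : ℝ) ≤ c := Nat.cast_nonneg _
      have k9 : (c : ℝ) / p ≤ 1 := by
        rw [div_le_one (by linarith)]
        linarith
      have m1 : θ * b p ≤ θ * 1 := mul_le_mul_of_nonneg_left (k3.trans k9) hθ0
      have m2 : (1 - θ) * h p ≤ (1 - θ) * 1 :=
        mul_le_mul_of_nonneg_left (k5.trans k9) (by linarith)
      have m3 : 0 ≤ θ * b p := mul_nonneg hθ0 k2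
      have m4 : 0 ≤ (1 - θ) * h p := mul_nonneg (by linarith) k4
      constructor <;> linarith
    have e5 : ∏ p ∈ P, (1 - θ * b p - (1 - θ) * h p) ≤
        ∏ p ∈ P \ D, (1 - θ * b p - (1 - θ) * h p) := by
      rw [← prod_sdiff hDP]
      refine mul_le_of_le_one_right (prod_nonneg fun p hp => (hterm p (hP'P hp)).1) ?_
      exact prod_le_one (fun p hp => (hterm p (hDP hp)).1) fun p hp => (hterm p (hDP hp)).2
    rw [← hA]
    have := mul_le_mul_of_nonneg_left e5 (show 0 ≤ 1 / 2 * A by positivity)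
    linarith
  -- the sum over the sets of good primes
  have hswap : ∑ i ∈ I, wt lam P1 T (fun p => Gd p i) *
      fac θ P (fun p => Bd p i) (fun p => Hd p i) =
      ∑ D ∈ P1.powerset.filter (fun D : Finset ℕ => ∏ p ∈ D, p ≤ T), lam ^ D.card *
        ∑ i ∈ I.filter (fun i => ∀ p ∈ D, Gd p i), fac θ P (fun p => Bd p i) (fun p => Hd p i) := by
    unfold wt
    simp only [sum_mul]
    rw [sum_comm]
    refine sum_congr rfl fun D _ => ?_
    rw [mul_sum, sum_filter]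
    refine sum_congr rfl fun i _ => ?_
    split_ifs <;> ring
  rw [hswap]
  obtain ⟨E, hE⟩ : ∃ E : ℝ, E = 4 * (y : ℝ) ^ (6 * C0 ^ 2 + 1) * (T : ℝ) ^ 2 * (X / L) := ⟨_, rfl⟩
  have hE0 : 0 ≤ E := by rw [hE]; positivity
  have hlow : ∑ D ∈ P1.powerset.filter (fun D : Finset ℕ => ∏ p ∈ D, p ≤ T), lam ^ D.card *
      (1 / 2 * (X * ∏ p ∈ D, g p) * ∏ p ∈ P, (1 - θ * b p - (1 - θ) * h p) - E) ≤
      ∑ D ∈ P1.powerset.filter (fun D : Finset ℕ => ∏ p ∈ D, p ≤ T), lam ^ D.card *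
        ∑ i ∈ I.filter (fun i => ∀ p ∈ D, Gd p i), fac θ P (fun p => Bd p i) (fun p => Hd p i) := by
    refine sum_le_sum fun D hD => mul_le_mul_of_nonneg_left ?_ (by positivity)
    rw [hE]
    exact hone D hD
  refine le_trans ?_ hlow
  have e6 : ∀ D ∈ P1.powerset.filter (fun D : Finset ℕ => ∏ p ∈ D, p ≤ T), lam ^ D.card *
      (1 / 2 * (X * ∏ p ∈ D, g p) * ∏ p ∈ P, (1 - θ * b p - (1 - θ) * h p) - E) =
      1 / 2 * X * (∏ p ∈ P, (1 - θ * b p - (1 - θ) * h p)) * (∏ p ∈ D, (lam * g p)) -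
        lam ^ D.card * E := by
    intro D _
    rw [prod_mul_distrib, prod_const]
    ring
  rw [sum_congr rfl e6, sum_sub_distrib, ← mul_sum, ← sum_mul]
  have e7 : (∑ D ∈ P1.powerset.filter (fun D : Finset ℕ => ∏ p ∈ D, p ≤ T), lam ^ D.card) * E ≤
      2 * (T : ℝ) * T * E := by
    refine mul_le_mul_of_nonneg_right ?_ hE0
    refine (sum_le_sum fun D hD => lam_pow_le hP1 hl0 hlz hD).trans ?_
    rw [sum_const, nsmul_eq_mul]
    exact mul_le_mul_of_nonneg_right (card_sets hP1 hT) (Nat.cast_nonneg _)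
  have e8 : 2 * (T : ℝ) * T * E = 8 * (T : ℝ) ^ 4 * (y : ℝ) ^ (6 * C0 ^ 2 + 1) * (X / L) := by
    rw [hE]; ring
  have e9 : 1 / 2 * X * (∏ p ∈ P, (1 - θ * b p - (1 - θ) * h p)) *
      ∑ D ∈ P1.powerset.filter (fun D : Finset ℕ => ∏ p ∈ D, p ≤ T), ∏ p ∈ D, (lam * g p) =
      1 / 2 * X * (∑ D ∈ P1.powerset.filter (fun D : Finset ℕ => ∏ p ∈ D, p ≤ T),
      ∏ p ∈ D, (lam * g p)) * ∏ p ∈ P, (1 - θ * b p - (1 - θ) * h p) := by ring
  rw [e9]
  linarith

end Pool.Agent.N870.EC
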