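import Mathlib

/-!
# Project EC: Rankin's trick

Seat helper870.
-/

set_option autoImplicit false

namespace Pool.Agent.N870.EC

open Finset

/-- **Rankin's trick**: the terms with large modulus are negligible -/
theorem rankin (P : Finset ℕ) (x : ℕ → ℝ) (w T : ℕ) (hw : 2 ≤ w) (hT : 1 ≤ T)
    (hP : ∀ p ∈ P, 1 ≤ p ∧ p ≤ w) (hx : ∀ p ∈ P, 0 ≤ x p)
    (h : 3 * ∑ p ∈ P, x p + 1 ≤ Real.log T / Real.log w) :
    1 / 2 * ∏ p ∈ P, (1 + x p) ≤
      ∑ D ∈ P.powerset.filter (fun D : Finset ℕ => ∏ p ∈ D, p ≤ T), ∏ p ∈ D, x p := by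
  have hlw : 0 < Real.log w := Real.log_pos (by exact_mod_cast (by omega : 1 < w))
  have h1 : ∏ p ∈ P, (1 + x p) = ∑ D ∈ P.powerset, ∏ p ∈ D, x p := by
    have := prod_add x (fun _ => (1 : ℝ)) P
    simp only [prod_const_one, mul_one] at this
    rw [← this]
    exact prod_congr rfl fun p _ => add_comm _ _
  obtain ⟨κ, hκ⟩ : ∃ κ : ℝ, κ = 1 / Real.log w := ⟨_, rfl⟩
  have hκ0 : 0 < κ := by rw [hκ]; positivity
  have hTr : (0 : ℝ) < T := by exact_mod_cast hT
  -- the complement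
  have h2 : ∑ D ∈ P.powerset.filter (fun D : Finset ℕ => ¬ ∏ p ∈ D, p ≤ T), ∏ p ∈ D, x p ≤
      (T : ℝ) ^ (-κ) * ∏ p ∈ P, (1 + 3 * x p) := by
    have h3 : ∏ p ∈ P, (1 + 3 * x p) = ∑ D ∈ P.powerset, ∏ p ∈ D, (3 * x p) := by
      have := prod_add (fun p => 3 * x p) (fun _ => (1 : ℝ)) P
      simp only [prod_const_one, mul_one] at this
      rw [← this]
      exact prod_congr rfl fun p _ => add_comm _ _
    rw [h3, mul_sum]
    have h4 : ∀ D ∈ P.powerset.filter (fun D : Finset ℕ => ¬ ∏ p ∈ D, p ≤ T),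
        ∏ p ∈ D, x p ≤ (T : ℝ) ^ (-κ) * ∏ p ∈ D, (3 * x p) := by
      intro D hD
      rw [mem_filter, mem_powerset, not_le] at hD
      have hDp : ∀ p ∈ D, (1 : ℝ) ≤ p := fun p hp => by exact_mod_cast (hP p (hD.1 hp)).1
      have h5 : ((∏ p ∈ D, p : ℕ) : ℝ) ^ κ = ∏ p ∈ D, (p : ℝ) ^ κ := by
        push_cast
        exact (Real.finsetProd_rpow D (fun p => (p : ℝ)) (fun p hp => by
          have := hDp p hp
          linarith) κ).symm
      have h6 : ∀ p ∈ D, (p : ℝ) ^ κ ≤ 3 := by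
        intro p hp
        have hp1 := hDp p hp
        have k1 : (p : ℝ) ≤ w := by exact_mod_cast (hP p (hD.1 hp)).2
        calc (p : ℝ) ^ κ ≤ (w : ℝ) ^ κ :=
              Real.rpow_le_rpow (by linarith) k1 hκ0.le
          _ = Real.exp 1 := by
              rw [Real.rpow_def_of_pos (by linarith), hκ]
              congr 1
              field_simp
          _ ≤ 3 := by
              have := Real.exp_one_lt_d9
              linarith
      have h7 : (1 : ℝ) ≤ (T : ℝ) ^ (-κ) * ∏ p ∈ D, (p : ℝ) ^ κ := by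
        rw [← h5, Real.rpow_neg hTr.le, inv_mul_eq_div, one_le_div (Real.rpow_pos_of_pos hTr _)]
        exact Real.rpow_le_rpow hTr.le (by exact_mod_cast hD.2.le) hκ0.le
      have hx0 : 0 ≤ ∏ p ∈ D, x p := prod_nonneg fun p hp => hx p (hD.1 hp)
      calc ∏ p ∈ D, x p ≤ ((T : ℝ) ^ (-κ) * ∏ p ∈ D, (p : ℝ) ^ κ) * ∏ p ∈ D, x p :=
            le_mul_of_one_le_left hx0 h7
        _ = (T : ℝ) ^ (-κ) * ∏ p ∈ D, ((p : ℝ) ^ κ * x p) := by
            rw [prod_mul_distrib]; ring
        _ ≤ (T : ℝ) ^ (-κ) * ∏ p ∈ D, (3 * x p) := by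
            refine mul_le_mul_of_nonneg_left (prod_le_prod (fun p hp => ?_) fun p hp => ?_)
              (by positivity)
            · exact mul_nonneg (Real.rpow_nonneg (by have := hDp p hp; linarith) _)
                (hx p (hD.1 hp))
            · exact mul_le_mul_of_nonneg_right (h6 p hp) (hx p (hD.1 hp))
    refine (sum_le_sum h4).trans (sum_le_sum_of_subset_of_nonneg (filter_subset _ _)
      fun D hD _ => ?_)
    rw [mem_powerset] at hD
    refine mul_nonneg (by positivity) (prod_nonneg fun p hp => ?_)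
    have := hx p (hD hp)
    positivity
  have h8 : ∏ p ∈ P, (1 + 3 * x p) ≤ Real.exp (3 * ∑ p ∈ P, x p) := by
    rw [mul_sum, Real.exp_sum]
    refine prod_le_prod (fun p hp => ?_) fun p _ => ?_
    · have := hx p hp
      positivity
    · have := Real.add_one_le_exp (3 * x p)
      linarith
  have h9 : (T : ℝ) ^ (-κ) * ∏ p ∈ P, (1 + 3 * x p) ≤ 1 / 2 := by
    calc (T : ℝ) ^ (-κ) * ∏ p ∈ P, (1 + 3 * x p)
        ≤ (T : ℝ) ^ (-κ) * Real.exp (3 * ∑ p ∈ P, x p) :=
          mul_le_mul_of_nonneg_left h8 (by positivity)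
      _ = Real.exp (3 * ∑ p ∈ P, x p - Real.log T / Real.log w) := by
          rw [Real.rpow_def_of_pos hTr, ← Real.exp_add, hκ]
          congr 1
          ring
      _ ≤ Real.exp (-1) := Real.exp_le_exp.2 (by linarith)
      _ ≤ 1 / 2 := by
          rw [Real.exp_neg, ← one_div]
          apply one_div_le_one_div_of_le (by norm_num)
          have := Real.exp_one_gt_d9
          linarith
  have h10 : 1 ≤ ∏ p ∈ P, (1 + x p) := by
    have := prod_le_prod (s := P) (f := fun _ => (1 : ℝ)) (g := fun p => 1 + x p)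
      (fun _ _ => zero_le_one) (fun p hp => by have := hx p hp; linarith)
    simpa using this
  have h11 := sum_filter_add_sum_filter_not P.powerset
    (fun D : Finset ℕ => ∏ p ∈ D, p ≤ T) (fun D => ∏ p ∈ D, x p)
  rw [← h1] at h11
  linarith

end Pool.Agent.N870.EC
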