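import Mathlib
import Pool.Agent.N870.EC.Abs
import Pool.Agent.N870.EC.Rank
import Pool.Agent.N870.SQ.Low

/-!
# Project EC: the lower bound for the mean value, asymptotic form

Seat helper870.
-/

set_option autoImplicit false

namespace Pool.Agent.N870.EC

open Finset Filter Pool.Agent.W262.RK Pool.Agent.TH841.PT

open scoped Classical

/-- `∑ 1 / p² ≤ 1` -/
lemma sum_inv_sq (z y : ℕ) : ∑ p ∈ PS z y, 1 / (p : ℝ) ^ 2 ≤ 1 := by
  have h6 : PS z y ⊆ Ioc 1 y := by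
    intro p hp
    have h1 := mem_PS.1 hp
    have h2 := h1.2.two_le
    rw [mem_Ioc]
    omega
  have h7 : ∀ n : ℕ, 1 ≤ n → ∑ p ∈ Ioc 1 n, 1 / (p : ℝ) ^ 2 ≤ 1 - 1 / (n : ℝ) := by
    intro n hn
    induction n, hn using Nat.le_induction with
    | base => simp
    | succ n hn ih =>
      have h8 : Ioc 1 (n + 1) = insert (n + 1) (Ioc 1 n) := by
        ext k
        simp only [mem_Ioc, mem_insert]
        omega
      rw [h8, sum_insert (by simp)]
      have hn0 : (0 : ℝ) < n := by exact_mod_cast hn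
      have h9 : 1 / ((n + 1 : ℕ) : ℝ) ^ 2 ≤ 1 / n - 1 / ((n + 1 : ℕ) : ℝ) := by
        push_cast
        rw [div_sub_div _ _ hn0.ne' (by positivity), div_le_div_iff₀ (by positivity)
          (by positivity)]
        nlinarith
      linarith
  rcases Nat.lt_or_ge y 1 with hy | hy
  · have : Ioc 1 y = ∅ := by
      rw [Ioc_eq_empty_iff]
      omega
    rw [this, subset_empty] at h6
    rw [h6]
    simp
  · refine (sum_le_sum_of_subset_of_nonneg h6 fun _ _ _ => by positivity).trans ?_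
    have h8 : (0 : ℝ) ≤ 1 / (y : ℝ) := by positivity
    linarith [h7 y hy]

/-- the product over the good primes, from below -/
lemma prod_one_add {z y : ℕ} {x : ℕ → ℝ} {k : ℝ} (hx : ∀ p ∈ PS z y, 0 ≤ x p ∧ x p ≤ k / p) :
    Real.exp (∑ p ∈ PS z y, x p - k ^ 2) ≤ ∏ p ∈ PS z y, (1 + x p) := by
  have h1 : ∑ p ∈ PS z y, x p ^ 2 ≤ k ^ 2 := by
    have h2 : ∀ p ∈ PS z y, x p ^ 2 ≤ k ^ 2 * (1 / (p : ℝ) ^ 2) := by
      intro p hp
      obtain ⟨h3, h4⟩ := hx p hp
      calc x p ^ 2 ≤ (k / p) ^ 2 := pow_le_pow_left₀ h3 h4 2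
        _ = _ := by ring
    refine (sum_le_sum h2).trans ?_
    rw [← mul_sum]
    have := mul_le_mul_of_nonneg_left (sum_inv_sq z y) (sq_nonneg k)
    linarith
  calc Real.exp (∑ p ∈ PS z y, x p - k ^ 2)
      ≤ Real.exp (∑ p ∈ PS z y, (x p - x p ^ 2)) := by
        apply Real.exp_le_exp.2
        rw [sum_sub_distrib]
        linarith
    _ = ∏ p ∈ PS z y, Real.exp (x p - x p ^ 2) := Real.exp_sum _ _
    _ ≤ ∏ p ∈ PS z y, (1 + x p) := by
        refine prod_le_prod (fun _ _ => (Real.exp_pos _).le) fun p hp => ?_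
        obtain ⟨h3, -⟩ := hx p hp
        have h5 : x p - x p ^ 2 ≤ Real.log (1 + x p) := by
          have h6 := Real.one_sub_inv_le_log_of_pos (show 0 < 1 + x p by linarith)
          have h7 : x p - x p ^ 2 ≤ 1 - (1 + x p)⁻¹ := by
            have h8 : 1 - (1 + x p)⁻¹ = x p / (1 + x p) := by
              field_simp
              ring
            rw [h8, le_div_iff₀ (by linarith)]
            nlinarith [pow_nonneg h3 3]
          linarith
        calc Real.exp (x p - x p ^ 2) ≤ Real.exp (Real.log (1 + x p)) := Real.exp_le_exp.2 h5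
          _ = 1 + x p := Real.exp_log (by linarith)

/-- the conditions for large `L` -/
lemma evl (δ ε' ε β lam C κ K' : ℝ) (c z : ℕ) (hδ : 0 < δ) (hε' : 0 < ε') (hε'1 : ε' < 1)
    (hε : 0 < ε) (hκ : 0 < κ) : ∀ᶠ l : ℝ in atTop, 1 ≤ l ∧ (z : ℝ) + 4 ≤ Real.exp (δ * l) ∧
      2 ≤ Real.exp (δ / 8 * l) ∧ l ^ (1 - ε') ≤ δ * l ∧ (z : ℝ) + 4 ≤ Real.exp (l ^ (1 - ε')) ∧
      2 * Real.log 2 ≤ l ^ (1 - ε') ∧
      3 * (lam * (c * Real.log l + C)) + 1 ≤ δ / 16 * l ^ ε' ∧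
      3 ≤ κ * l ^ (ε / 2) ∧ 8 * Real.exp (-(1 / 2 * l)) ≤ l ^ (β - ε) ∧
      2 * K' * Real.exp (-(δ / 4 * l)) ≤ l ^ (β - ε) ∧ Real.log 2 ≤ δ / 16 * l := by
  have t0 : Tendsto (fun l : ℝ => l) atTop atTop := tendsto_id
  have e1 := t0.eventually_ge_atTop 1
  have e2 := (Real.tendsto_exp_atTop.comp (t0.const_mul_atTop hδ)).eventually_ge_atTop
    ((z : ℝ) + 4)
  have e3 := (Real.tendsto_exp_atTop.comp (t0.const_mul_atTop
    (show 0 < δ / 8 by positivity))).eventually_ge_atTop 2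
  have t1 := tendsto_rpow_atTop (show 0 < 1 - ε' by linarith)
  have t2 := tendsto_rpow_atTop hε'
  have t3 := tendsto_rpow_atTop (show 0 < ε / 2 by positivity)
  have e4 := (t2.const_mul_atTop hδ).eventually_ge_atTop 1
  have e5 := (Real.tendsto_exp_atTop.comp t1).eventually_ge_atTop ((z : ℝ) + 4)
  have e6 := t1.eventually_ge_atTop (2 * Real.log 2)
  have e8 := (t3.const_mul_atTop hκ).eventually_ge_atTop 3
  have e11 := (t0.const_mul_atTop (show 0 < δ / 16 by positivity)).eventually_ge_atTop (Real.log 2)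
  -- the logarithm
  have e7 : ∀ᶠ l : ℝ in atTop, 3 * (lam * (c * Real.log l + C)) + 1 ≤ δ / 16 * l ^ ε' := by
    have k1 := (isLittleO_log_rpow_atTop hε').bound
      (show (0 : ℝ) < δ / 32 / (3 * |lam| * c + 1) by positivity)
    have k2 := (t2.const_mul_atTop (show 0 < δ / 32 by positivity)).eventually_ge_atTop
      (3 * |lam| * |C| + 1)
    filter_upwards [k1, k2, e1] with l h1 h2 h3
    have hl0 : 0 ≤ Real.log l := Real.log_nonneg h3
    have hle : 0 ≤ l ^ ε' := by positivity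
    rw [Real.norm_of_nonneg hl0, Real.norm_of_nonneg hle] at h1
    have h4 : (3 * |lam| * c + 1) * Real.log l ≤ δ / 32 * l ^ ε' := by
      calc (3 * |lam| * c + 1) * Real.log l
          ≤ (3 * |lam| * c + 1) * (δ / 32 / (3 * |lam| * c + 1) * l ^ ε') :=
            mul_le_mul_of_nonneg_left h1 (by positivity)
        _ = _ := by field_simp
    have h5 : 3 * (lam * (c * Real.log l + C)) ≤ 3 * |lam| * c * Real.log l + 3 * |lam| * |C| := by
      have k3 : lam * (c * Real.log l) ≤ |lam| * (c * Real.log l) :=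
        mul_le_mul_of_nonneg_right (le_abs_self _) (by positivity)
      have k4 : lam * C ≤ |lam| * |C| := by
        rw [← abs_mul]
        exact le_abs_self _
      nlinarith
    nlinarith
  -- the exponentials
  have hexp : ∀ (a b A : ℝ), 0 < a → ∀ᶠ l : ℝ in atTop, A * Real.exp (-(a * l)) ≤ l ^ b := by
    intro a b A ha
    have k1 := (isLittleO_rpow_exp_pos_mul_atTop (-b) ha).bound
      (show (0 : ℝ) < 1 / (|A| + 1) by positivity)
    filter_upwards [k1, e1] with l h1 h3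
    have hl : 0 < l := by linarith
    rw [Real.norm_of_nonneg (by positivity), Real.norm_of_nonneg (Real.exp_pos _).le] at h1
    rw [Real.rpow_neg hl.le] at h1
    have hb : 0 < l ^ b := by positivity
    have hE := Real.exp_pos (a * l)
    have h2 : (|A| + 1) * (l ^ b)⁻¹ ≤ Real.exp (a * l) := by
      calc (|A| + 1) * (l ^ b)⁻¹ ≤ (|A| + 1) * (1 / (|A| + 1) * Real.exp (a * l)) :=
            mul_le_mul_of_nonneg_left h1 (by positivity)
        _ = _ := by field_simp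
    have h4 : (|A| + 1) ≤ Real.exp (a * l) * l ^ b := by
      have := mul_le_mul_of_nonneg_right h2 hb.le
      rwa [mul_assoc, inv_mul_cancel₀ hb.ne', mul_one] at this
    rw [Real.exp_neg, ← div_eq_mul_inv, div_le_iff₀ hE]
    have := le_abs_self A
    nlinarith
  have e9 := hexp (1 / 2) (β - ε) 8 (by norm_num)
  have e10 := hexp (δ / 4) (β - ε) (2 * K') (by positivity)
  filter_upwards [e1, e2, e3, e4, e5, e6, e7, e8, e9, e10, e11] with l h1 h2 h3 h4 h5 h6 h7 h8 h9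
    h10 h11
  refine ⟨h1, h2, h3, ?_, h5, h6, h7, h8, h9, h10, h11⟩
  have hl : 0 < l := by linarith
  have k1 : l ^ (1 - ε') * l ^ ε' = l := by
    rw [← Real.rpow_add hl]
    norm_num
  have k2 : 0 < l ^ (1 - ε') := by positivity
  calc l ^ (1 - ε') = l ^ (1 - ε') * 1 := (mul_one _).symm
    _ ≤ l ^ (1 - ε') * (δ * l ^ ε') := mul_le_mul_of_nonneg_left h4 k2.le
    _ = δ * l := by rw [mul_left_comm, k1]

/-- **the lower bound for the mean value** -/
theorem abs2 (c : ℕ) (s gg bb ε : ℝ) (hs : 0 < s) (hgg : 0 ≤ gg) (hbb : 0 ≤ bb) (hε : 0 < ε) :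
    ∃ (δ : ℝ) (z0 : ℕ), 0 < δ ∧ δ ≤ 1 / 8 ∧ ∀ z : ℕ, z0 ≤ z → ∀ C K' : ℝ, ∃ L0 : ℕ,
    ∀ L : ℕ, L0 ≤ L → ∀ y : ℕ, y = ⌊(L : ℝ) ^ δ⌋₊ →
    z + 3 ≤ y ∧ ∃ P1 : Finset ℕ, P1 ⊆ PS z y ∧
    ∀ (X : ℝ) (I : Finset ℕ) (Gd Bd Hd : ℕ → ℕ → Prop) (g b h : ℕ → ℝ), 0 ≤ X →
    (∀ p ∈ PS z y, 0 ≤ g p ∧ g p ≤ c / p ∧ 0 ≤ b p ∧ b p ≤ c / p ∧ 0 ≤ h p ∧
      h p ≤ c / (p : ℝ) ^ 2) →
    (∀ p ∈ PS z y, ∀ i ∈ I, (Gd p i → ¬ Bd p i) ∧ (Hd p i → Bd p i)) →
    (∀ D ⊆ PS z y, ∀ Q1 ⊆ PS z y, ∀ Q2 ⊆ PS z y, Disjoint D Q1 → Disjoint D Q2 →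
      Disjoint Q1 Q2 → (∏ p ∈ D, p) * ((∏ p ∈ Q1, p) * ∏ p ∈ Q2, p) ≤ L →
      |((I.filter (fun i => (∀ p ∈ D, Gd p i) ∧ (∀ p ∈ Q1, Bd p i) ∧ ∀ p ∈ Q2, Hd p i)).card : ℝ) -
        X * ((∏ p ∈ D, g p) * ((∏ p ∈ Q1, b p) * ∏ p ∈ Q2, h p))| ≤
        ((((∏ p ∈ D, p) * ((∏ p ∈ Q1, p) * ∏ p ∈ Q2, p) : ℕ) : ℝ)) ^ 2 * (X / L)) →
    (∀ w : ℕ, z < w → w ≤ y → gg * Real.log (Real.log w) - C ≤ ∑ p ∈ PS z w, g p ∧
      ∑ p ∈ PS z w, g p ≤ c * Real.log (Real.log w) + C) →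
    (∑ p ∈ PS z y, b p ≤ bb * Real.log (Real.log y) + C) →
    ∀ I' ⊆ I, ((I \ I').card : ℝ) ≤ K' * X * (L : ℝ) ^ (-(δ / 2)) →
    X * (Real.log L) ^ ((2 ^ s - 1) * gg - (1 - 2 ^ (-s)) * bb - ε) ≤
      ∑ i ∈ I', (2 : ℝ) ^ (s * ((P1.filter (fun p => Gd p i)).card : ℝ)) *
        fac (1 - 2 ^ (-s)) (PS z y) (fun p => Bd p i) (fun p => Hd p i) := by
  obtain ⟨C0, K, hC0, hK, habs⟩ := abs1 c
  obtain ⟨lam, hlam⟩ : ∃ lam : ℝ, lam = 2 ^ s - 1 := ⟨_, rfl⟩
  obtain ⟨θ, hθ⟩ : ∃ θ : ℝ, θ = 1 - 2 ^ (-s) := ⟨_, rfl⟩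
  have h2s : 1 < (2 : ℝ) ^ s := Real.one_lt_rpow (by norm_num) hs
  have hlam0 : 0 < lam := by rw [hlam]; linarith
  have h2n : 0 < (2 : ℝ) ^ (-s) := by positivity
  have h2n1 : (2 : ℝ) ^ (-s) < 1 := Real.rpow_lt_one_of_one_lt_of_neg (by norm_num) (by linarith)
  have hθ0 : 0 ≤ θ := by rw [hθ]; linarith
  have hθ1 : θ ≤ 1 := by rw [hθ]; linarith
  obtain ⟨δ, hδ⟩ : ∃ δ : ℝ, δ = 1 / (4 * ((K : ℝ) + 1)) := ⟨_, rfl⟩
  have hK1 : (1 : ℝ) ≤ K := by exact_mod_cast hK
  have hδ0 : 0 < δ := by rw [hδ]; positivity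
  have hδ8 : δ ≤ 1 / 8 := by
    rw [hδ]
    apply one_div_le_one_div_of_le (by norm_num)
    linarith
  have hδK : δ * (K + 1) = 1 / 4 := by
    rw [hδ]
    field_simp
  obtain ⟨ε', hε'⟩ : ∃ ε' : ℝ, ε' = min (1 / 2) (ε / (2 * (lam * gg + 1))) := ⟨_, rfl⟩
  have hlg : 0 < lam * gg + 1 := by positivity
  have hε'0 : 0 < ε' := by
    rw [hε']
    exact lt_min (by norm_num) (by positivity)
  have hε'1 : ε' < 1 := by
    rw [hε']
    exact lt_of_le_of_lt (min_le_left _ _) (by norm_num)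
  have hε'2 : lam * gg * ε' ≤ ε / 2 := by
    have h1 : ε' ≤ ε / (2 * (lam * gg + 1)) := by rw [hε']; exact min_le_right _ _
    have h2 : lam * gg * ε' ≤ (lam * gg + 1) * ε' := by nlinarith
    have h3 : (lam * gg + 1) * ε' ≤ (lam * gg + 1) * (ε / (2 * (lam * gg + 1))) :=
      mul_le_mul_of_nonneg_left h1 hlg.le
    have h4 : (lam * gg + 1) * (ε / (2 * (lam * gg + 1))) = ε / 2 := by field_simp
    linarith
  obtain ⟨z0, hz0⟩ : ∃ z0 : ℕ, z0 = C0 + (2 * c + 2) + ⌈lam⌉₊ + 3 := ⟨_, rfl⟩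
  refine ⟨δ, z0, hδ0, hδ8, fun z hz C K' => ?_⟩
  obtain ⟨β, hβ⟩ : ∃ β : ℝ, β = lam * gg - θ * bb := ⟨_, rfl⟩
  obtain ⟨κ, hκ⟩ : ∃ κ : ℝ, κ = 1 / 4 * Real.exp (-(lam * (gg * Real.log 2 + C)) - (lam * c) ^ 2 -
    θ * |C| - c - 4 * (c : ℝ) ^ 2) := ⟨_, rfl⟩
  have hκ0 : 0 < κ := by rw [hκ]; positivity
  obtain ⟨l0, hl0⟩ := eventually_atTop.1 (evl δ ε' ε β lam C κ K' c z hδ0 hε'0 hε'1 hε hκ0)
  obtain ⟨L0, hL0⟩ := eventually_atTop.1 ((Real.tendsto_log_atTop.comp
    (tendsto_natCast_atTop_atTop (R := ℝ))).eventually_ge_atTop l0)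
  refine ⟨L0 + 3, fun L hL y hy => ?_⟩
  obtain ⟨l, hl⟩ : ∃ l : ℝ, l = Real.log L := ⟨_, rfl⟩
  obtain ⟨h1, h2, h3, h4, h5, h6, h7, h8, h9, h10, h11⟩ := hl0 l (by rw [hl]; exact hL0 L (by omega))
  have hLr : (3 : ℝ) ≤ L := by exact_mod_cast (by omega : 3 ≤ L)
  have hL0r : (0 : ℝ) < L := by linarith
  have hLp : ∀ a : ℝ, (L : ℝ) ^ a = Real.exp (a * l) := by
    intro a
    rw [Real.rpow_def_of_pos hL0r, hl, mul_comm]
  have hl0' : 0 < l := by linarith
  -- y
  have hy1 : (y : ℝ) ≤ Real.exp (δ * l) := by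
    rw [hy, ← hLp]
    exact Nat.floor_le (by positivity)
  have hy2 : Real.exp (δ * l) < y + 1 := by
    rw [hy, ← hLp]
    exact Nat.lt_floor_add_one _
  have hy3 : z + 3 < y + 1 := by
    have : (z : ℝ) + 3 < y + 1 := by linarith
    exact_mod_cast this
  -- T
  obtain ⟨T, hT⟩ : ∃ T : ℕ, T = ⌊Real.exp (δ / 8 * l)⌋₊ := ⟨_, rfl⟩
  have hT1 : (T : ℝ) ≤ Real.exp (δ / 8 * l) := by rw [hT]; exact Nat.floor_le (Real.exp_pos _).le
  have hT2 : Real.exp (δ / 8 * l) < T + 1 := by rw [hT]; exact Nat.lt_floor_add_one _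
  have hT3 : 1 ≤ T := by
    have : (1 : ℝ) < T + 1 := by linarith
    have : 1 < T + 1 := by exact_mod_cast this
    omega
  have hTr : (1 : ℝ) ≤ T := by exact_mod_cast hT3
  -- yA
  obtain ⟨w, hw⟩ : ∃ w : ℕ, w = ⌊Real.exp (l ^ (1 - ε'))⌋₊ := ⟨_, rfl⟩
  have hw1 : (w : ℝ) ≤ Real.exp (l ^ (1 - ε')) := by rw [hw]; exact Nat.floor_le (Real.exp_pos _).le
  have hw2 : Real.exp (l ^ (1 - ε')) < w + 1 := by rw [hw]; exact Nat.lt_floor_add_one _
  have hw3 : z + 3 < w + 1 := by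
    have : (z : ℝ) + 3 < w + 1 := by linarith
    exact_mod_cast this
  have hwy : w ≤ y := by
    rw [hw, hy, hLp]
    exact Nat.floor_le_floor (Real.exp_le_exp.2 h4)
  have hz3 : 3 ≤ z := by omega
  have hwr : (6 : ℝ) ≤ w := by exact_mod_cast (by omega : 6 ≤ w)
  have hyr : (6 : ℝ) ≤ y := by exact_mod_cast (by omega : 6 ≤ y)
  have hlw1 : Real.log w ≤ l ^ (1 - ε') := by
    rw [Real.log_le_iff_le_exp (by linarith)]
    exact hw1
  have hlw2 : 1 / 2 * l ^ (1 - ε') ≤ Real.log w := by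
    have k1 : Real.exp (l ^ (1 - ε')) ≤ 2 * w := by linarith
    have k2 := Real.log_le_log (Real.exp_pos _) k1
    rw [Real.log_exp, Real.log_mul (by norm_num) (by linarith)] at k2
    linarith
  have hlw0 : 1 < Real.log w := by
    rw [Real.lt_log_iff_exp_lt (by linarith)]
    have := Real.exp_one_lt_d9
    linarith
  have hly0 : 1 < Real.log y := by
    rw [Real.lt_log_iff_exp_lt (by linarith)]
    have := Real.exp_one_lt_d9
    linarith
  have hly1 : Real.log y ≤ l := by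
    have k1 : Real.log y ≤ δ * l := by
      rw [Real.log_le_iff_le_exp (by linarith)]
      exact hy1
    nlinarith
  have hllw1 : Real.log (Real.log w) ≤ Real.log l := by
    apply Real.log_le_log (by linarith)
    refine hlw1.trans ?_
    calc l ^ (1 - ε') ≤ l ^ (1 : ℝ) := Real.rpow_le_rpow_of_exponent_le h1 (by linarith)
      _ = l := Real.rpow_one l
  have hllw2 : (1 - ε') * Real.log l - Real.log 2 ≤ Real.log (Real.log w) := by
    have k1 := Real.log_le_log (by positivity) hlw2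
    rw [Real.log_mul (by norm_num) (by positivity), Real.log_rpow hl0'] at k1
    have k2 : Real.log (1 / 2) = -Real.log 2 := by
      rw [one_div, Real.log_inv]
    linarith
  have hlly : Real.log (Real.log y) ≤ Real.log l := Real.log_le_log (by linarith) hly1
  have hP1 : PS z w ⊆ PS z y := by
    intro p hp
    rw [mem_PS] at hp ⊢
    exact ⟨⟨hp.1.1, hp.1.2.trans hwy⟩, hp.2⟩
  refine ⟨by omega, PS z w, hP1, ?_⟩
  intro X I Gd Bd Hd g b h hX hden hdis hcnt hgs hbs I' hI' hcard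
  -- T y^K ≤ L
  have hTyL : (T : ℝ) * (y : ℝ) ^ K ≤ Real.exp (1 / 2 * l) := by
    calc (T : ℝ) * (y : ℝ) ^ K ≤ Real.exp (δ / 8 * l) * (Real.exp (δ * l)) ^ K :=
          mul_le_mul hT1 (pow_le_pow_left₀ (Nat.cast_nonneg _) hy1 K) (by positivity)
            (Real.exp_pos _).le
      _ = Real.exp ((δ / 8 + δ * K) * l) := by
          rw [← Real.exp_nat_mul, ← Real.exp_add]
          congr 1
          ring
      _ ≤ Real.exp (1 / 2 * l) := by
          apply Real.exp_le_exp.2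
          have : δ / 8 + δ * K ≤ 1 / 2 := by nlinarith
          exact mul_le_mul_of_nonneg_right this hl0'.le
  have hTL : T * y ^ K ≤ L := by
    have k1 : (T : ℝ) * (y : ℝ) ^ K ≤ L := by
      refine hTyL.trans ?_
      calc Real.exp (1 / 2 * l) ≤ Real.exp (1 * l) := by
            apply Real.exp_le_exp.2
            linarith
        _ = L := by rw [one_mul, hl, Real.exp_log hL0r]
    exact_mod_cast k1
  have hden' : ∀ p ∈ PS z y, (p : ℝ) ≠ 0 ∧ (1 : ℝ) ≤ p := by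
    intro p hp
    have := (mem_PS.1 hp).2.pos
    exact ⟨by positivity, by exact_mod_cast this⟩
  have hden2 : ∀ p ∈ PS z y, 0 ≤ g p ∧ 0 ≤ b p ∧ b p ≤ c / p ∧ 0 ≤ h p ∧ h p ≤ c / p := by
    intro p hp
    obtain ⟨k1, k2, k3, k4, k5, k6⟩ := hden p hp
    refine ⟨k1, k3, k4, k5, k6.trans ?_⟩
    apply div_le_div_of_nonneg_left (Nat.cast_nonneg _) (by linarith [(hden' p hp).2])
    nlinarith [(hden' p hp).2]
  have hmain := habs z y T L lam θ X (PS z w) I Gd Bd Hd g b h (by omega) (by omega) (by omega) hT3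
    hlam0.le ((Nat.le_ceil lam).trans (by exact_mod_cast (by omega : ⌈lam⌉₊ ≤ z))) hθ0 hθ1 hX hP1
    hTL hden2 hdis (fun D hD => hcnt D (hD.trans hP1))
  -- Rankin
  have hsumx : ∑ p ∈ PS z w, lam * g p = lam * ∑ p ∈ PS z w, g p := (mul_sum _ _ _).symm
  obtain ⟨hgl, hgu⟩ := hgs w (by omega) hwy
  have hrk := rankin (PS z w) (fun p => lam * g p) w T (by omega) hT3 (fun p hp => by
      have := mem_PS.1 hp
      exact ⟨this.2.pos, this.1.2⟩) (fun p hp => mul_nonneg hlam0.le (hden p (hP1 hp)).1) (by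
      rw [hsumx]
      have k1 : 3 * (lam * ∑ p ∈ PS z w, g p) + 1 ≤ δ / 16 * l ^ ε' := by
        refine le_trans ?_ h7
        have k2 : ∑ p ∈ PS z w, g p ≤ c * Real.log l + C := by
          have : (c : ℝ) * Real.log (Real.log w) ≤ c * Real.log l :=
            mul_le_mul_of_nonneg_left hllw1 (Nat.cast_nonneg _)
          linarith
        have := mul_le_mul_of_nonneg_left k2 hlam0.le
        linarith
      refine k1.trans ?_
      rw [le_div_iff₀ (by linarith)]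
      have k3 : δ / 16 * l ^ ε' * Real.log w ≤ δ / 16 * l ^ ε' * l ^ (1 - ε') :=
        mul_le_mul_of_nonneg_left hlw1 (by positivity)
      have k4 : l ^ ε' * l ^ (1 - ε') = l := by
        rw [← Real.rpow_add hl0']
        norm_num
      have k5 : δ / 16 * l ^ ε' * l ^ (1 - ε') = δ / 16 * l := by rw [mul_assoc, k4]
      have k6 : δ / 8 * l - Real.log 2 ≤ Real.log T := by
        have k7 : Real.exp (δ / 8 * l) ≤ 2 * T := by linarith
        have k8 := Real.log_le_log (Real.exp_pos _) k7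
        rw [Real.log_exp, Real.log_mul (by norm_num) (by linarith)] at k8
        linarith
      linarith)
  have hpa := prod_one_add (z := z) (y := w) (x := fun p => lam * g p) (k := lam * c)
    (fun p hp => by
      obtain ⟨k1, k2, -⟩ := hden p (hP1 hp)
      refine ⟨mul_nonneg hlam0.le k1, ?_⟩
      have := mul_le_mul_of_nonneg_left k2 hlam0.le
      rwa [← mul_div_assoc] at this)
  rw [hsumx] at hpa
  -- the bad primes
  have hbp := Pool.Agent.N870.SQ.prod_low (c := c) (z := z) (y := y)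
    (ν := fun p => p * (θ * b p + (1 - θ) * h p)) (fun p hp => by
      obtain ⟨-, k2, k3, k4, k5⟩ := hden2 p hp
      obtain ⟨k6, k7⟩ := hden' p hp
      have k8 : 0 ≤ 1 - θ := by linarith
      refine ⟨by positivity, ?_⟩
      have k9 : θ * b p + (1 - θ) * h p ≤ c / p := by
        have m1 := mul_le_mul_of_nonneg_left k3 hθ0
        have m2 := mul_le_mul_of_nonneg_left k5 k8
        linarith
      calc (p : ℝ) * (θ * b p + (1 - θ) * h p) ≤ p * (c / p) :=
            mul_le_mul_of_nonneg_left k9 (by positivity)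
        _ = c := by field_simp) (by omega)
  have hbe : ∀ p ∈ PS z y, (p : ℝ) * (θ * b p + (1 - θ) * h p) / p = θ * b p + (1 - θ) * h p := by
    intro p hp
    have := (hden' p hp).1
    field_simp
  have hbe1 : ∑ p ∈ PS z y, (p : ℝ) * (θ * b p + (1 - θ) * h p) / p ≤
      θ * (bb * Real.log l) + θ * |C| + c := by
    rw [sum_congr rfl hbe, sum_add_distrib, ← mul_sum, ← mul_sum]
    have k1 : ∑ p ∈ PS z y, h p ≤ c := by
      calc ∑ p ∈ PS z y, h p ≤ ∑ p ∈ PS z y, (c : ℝ) * (1 / (p : ℝ) ^ 2) := by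
            refine sum_le_sum fun p hp => ?_
            obtain ⟨-, -, -, -, -, k6⟩ := hden p hp
            rwa [mul_one_div]
        _ = c * ∑ p ∈ PS z y, 1 / (p : ℝ) ^ 2 := (mul_sum _ _ _).symm
        _ ≤ c * 1 := mul_le_mul_of_nonneg_left (sum_inv_sq z y) (Nat.cast_nonneg _)
        _ = c := mul_one _
    have k2 : 0 ≤ ∑ p ∈ PS z y, h p := sum_nonneg fun p hp => by
      obtain ⟨-, -, -, -, k5, -⟩ := hden p hp
      exact k5
    have k3 : (1 - θ) * ∑ p ∈ PS z y, h p ≤ 1 * ∑ p ∈ PS z y, h p :=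
      mul_le_mul_of_nonneg_right (by linarith) k2
    have k4 : ∑ p ∈ PS z y, b p ≤ bb * Real.log l + |C| := by
      have m1 := mul_le_mul_of_nonneg_left hlly hbb
      have m2 := le_abs_self C
      linarith
    have k5 := mul_le_mul_of_nonneg_left k4 hθ0
    linarith
  have hbe2 : ∏ p ∈ PS z y, (1 - (p : ℝ) * (θ * b p + (1 - θ) * h p) / p) =
      ∏ p ∈ PS z y, (1 - θ * b p - (1 - θ) * h p) := by
    refine prod_congr rfl fun p hp => ?_
    rw [hbe p hp]
    ring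
  rw [hbe2] at hbp
  have hbp2 : Real.exp (-(θ * (bb * Real.log l) + θ * |C| + c) - 4 * (c : ℝ) ^ 2) ≤
      ∏ p ∈ PS z y, (1 - θ * b p - (1 - θ) * h p) :=
    (Real.exp_le_exp.2 (by linarith)).trans hbp
  -- the main term
  have hM : κ * l ^ (β - ε / 2) ≤
      1 / 2 * (∑ D ∈ (PS z w).powerset.filter (fun D : Finset ℕ => ∏ p ∈ D, p ≤ T),
      ∏ p ∈ D, (lam * g p)) * ∏ p ∈ PS z y, (1 - θ * b p - (1 - θ) * h p) := by
    have k1 : Real.exp (lam * (gg * ((1 - ε') * Real.log l - Real.log 2) - C) - (lam * c) ^ 2) ≤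
        ∏ p ∈ PS z w, (1 + lam * g p) := by
      refine le_trans (Real.exp_le_exp.2 ?_) hpa
      have m1 := mul_le_mul_of_nonneg_left hllw2 hgg
      have m2 : gg * ((1 - ε') * Real.log l - Real.log 2) - C ≤ ∑ p ∈ PS z w, g p := by linarith
      have := mul_le_mul_of_nonneg_left m2 hlam0.le
      linarith
    have k2 : 1 / 2 * Real.exp (lam * (gg * ((1 - ε') * Real.log l - Real.log 2) - C) -
        (lam * c) ^ 2) ≤ ∑ D ∈ (PS z w).powerset.filter (fun D : Finset ℕ => ∏ p ∈ D, p ≤ T),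
      ∏ p ∈ D, (lam * g p) := by
      refine le_trans ?_ hrk
      linarith
    have k3 : κ * l ^ (β - ε / 2) ≤ 1 / 2 * (1 / 2 *
        Real.exp (lam * (gg * ((1 - ε') * Real.log l - Real.log 2) - C) - (lam * c) ^ 2)) *
        Real.exp (-(θ * (bb * Real.log l) + θ * |C| + c) - 4 * (c : ℝ) ^ 2) := by
      have m1 : l ^ (β - ε / 2) ≤ Real.exp ((lam * gg * (1 - ε') - θ * bb) * Real.log l) := by
        rw [Real.rpow_def_of_pos hl0']
        apply Real.exp_le_exp.2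
        rw [mul_comm]
        apply mul_le_mul_of_nonneg_right _ (Real.log_nonneg h1)
        rw [hβ]
        linarith
      calc κ * l ^ (β - ε / 2) ≤ κ * Real.exp ((lam * gg * (1 - ε') - θ * bb) * Real.log l) :=
            mul_le_mul_of_nonneg_left m1 hκ0.le
        _ = 1 / 4 * (Real.exp (-(lam * (gg * Real.log 2 + C)) - (lam * c) ^ 2 -
              θ * |C| - c - 4 * (c : ℝ) ^ 2) *
              Real.exp ((lam * gg * (1 - ε') - θ * bb) * Real.log l)) := by
            rw [hκ]; ring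
        _ = 1 / 4 * (Real.exp (lam * (gg * ((1 - ε') * Real.log l - Real.log 2) - C) -
              (lam * c) ^ 2) *
              Real.exp (-(θ * (bb * Real.log l) + θ * |C| + c) - 4 * (c : ℝ) ^ 2)) := by
            rw [← Real.exp_add, ← Real.exp_add]
            congr 2
            ring
        _ = _ := by ring
    refine k3.trans ?_
    have k4 : 1 / 2 * (1 / 2 *
        Real.exp (lam * (gg * ((1 - ε') * Real.log l - Real.log 2) - C) - (lam * c) ^ 2)) ≤
        1 / 2 * (∑ D ∈ (PS z w).powerset.filter (fun D : Finset ℕ => ∏ p ∈ D, p ≤ T),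
      ∏ p ∈ D, (lam * g p)) := by linarith
    have k5 : 0 ≤ 1 / 2 * (∑ D ∈ (PS z w).powerset.filter (fun D : Finset ℕ => ∏ p ∈ D, p ≤ T),
      ∏ p ∈ D, (lam * g p)) := le_trans (by positivity) k4
    exact mul_le_mul k4 hbp2 (Real.exp_pos _).le k5
  -- the errors
  have hE1 : 8 * (T : ℝ) ^ 4 * (y : ℝ) ^ K * (X / L) ≤ X * l ^ (β - ε) := by
    have k1 : (T : ℝ) ^ 4 * (y : ℝ) ^ K ≤ Real.exp (1 / 2 * l) := by
      calc (T : ℝ) ^ 4 * (y : ℝ) ^ K ≤ (Real.exp (δ / 8 * l)) ^ 4 * (Real.exp (δ * l)) ^ K :=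
            mul_le_mul (pow_le_pow_left₀ (Nat.cast_nonneg _) hT1 4)
              (pow_le_pow_left₀ (Nat.cast_nonneg _) hy1 K) (by positivity) (by positivity)
        _ = Real.exp ((δ / 2 + δ * K) * l) := by
            rw [← Real.exp_nat_mul, ← Real.exp_nat_mul, ← Real.exp_add]
            congr 1
            push_cast
            ring
        _ ≤ Real.exp (1 / 2 * l) := by
            apply Real.exp_le_exp.2
            have : δ / 2 + δ * K ≤ 1 / 2 := by nlinarith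
            exact mul_le_mul_of_nonneg_right this hl0'.le
    have k2 : (L : ℝ) = Real.exp l := by rw [hl, Real.exp_log hL0r]
    have k3 : Real.exp (1 / 2 * l) / L = Real.exp (-(1 / 2 * l)) := by
      rw [k2, ← Real.exp_sub]
      congr 1
      ring
    calc 8 * (T : ℝ) ^ 4 * (y : ℝ) ^ K * (X / L) = 8 * ((T : ℝ) ^ 4 * (y : ℝ) ^ K) * (X / L) := by
          ring
      _ ≤ 8 * Real.exp (1 / 2 * l) * (X / L) := by
          have : 0 ≤ X / L := by positivity
          gcongr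
      _ = X * (8 * (Real.exp (1 / 2 * l) / L)) := by ring
      _ = X * (8 * Real.exp (-(1 / 2 * l))) := by rw [k3]
      _ ≤ X * l ^ (β - ε) := mul_le_mul_of_nonneg_left h9 hX
  have hE2 : ∑ i ∈ I \ I', wt lam (PS z w) T (fun p => Gd p i) *
      fac θ (PS z y) (fun p => Bd p i) (fun p => Hd p i) ≤ X * l ^ (β - ε) := by
    have k0 : ∀ i ∈ I \ I', wt lam (PS z w) T (fun p => Gd p i) *
        fac θ (PS z y) (fun p => Bd p i) (fun p => Hd p i) ≤ 2 * Real.exp (δ / 4 * l) := by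
      intro i _
      have m1 := wt_le (z := z) (y := y) (T := T) (lam := lam) hP1 hT3 hlam0.le
        ((Nat.le_ceil lam).trans (by exact_mod_cast (by omega : ⌈lam⌉₊ ≤ z))) (fun p => Gd p i)
      have m2 := fac_le_one hθ0 hθ1 (PS z y) (fun p => Bd p i) (fun p => Hd p i)
      have m3 := fac_nonneg hθ0 hθ1 (PS z y) (fun p => Bd p i) (fun p => Hd p i)
      have m4 := wt_nonneg hlam0.le (PS z w) T (fun p => Gd p i)
      have m5 : (T : ℝ) ^ 2 ≤ Real.exp (δ / 4 * l) := by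
        calc (T : ℝ) ^ 2 ≤ (Real.exp (δ / 8 * l)) ^ 2 := pow_le_pow_left₀ (Nat.cast_nonneg _) hT1 2
          _ = Real.exp (δ / 4 * l) := by
              rw [← Real.exp_nat_mul]
              congr 1
              push_cast
              ring
      calc _ ≤ wt lam (PS z w) T (fun p => Gd p i) * 1 := mul_le_mul_of_nonneg_left m2 m4
        _ ≤ 2 * (T : ℝ) ^ 2 := by rw [mul_one]; exact m1
        _ ≤ _ := by linarith
    refine (sum_le_sum k0).trans ?_
    rw [sum_const, nsmul_eq_mul]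
    have k1 : (L : ℝ) ^ (-(δ / 2)) * Real.exp (δ / 4 * l) = Real.exp (-(δ / 4 * l)) := by
      rw [hLp, ← Real.exp_add]
      congr 1
      ring
    calc ((I \ I').card : ℝ) * (2 * Real.exp (δ / 4 * l))
        ≤ (K' * X * (L : ℝ) ^ (-(δ / 2))) * (2 * Real.exp (δ / 4 * l)) :=
          mul_le_mul_of_nonneg_right hcard (by positivity)
      _ = X * (2 * K' * ((L : ℝ) ^ (-(δ / 2)) * Real.exp (δ / 4 * l))) := by ring
      _ = X * (2 * K' * Real.exp (-(δ / 4 * l))) := by rw [k1]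
      _ ≤ X * l ^ (β - ε) := mul_le_mul_of_nonneg_left h10 hX
  -- the comparison of the weights
  have hcmp : ∑ i ∈ I', wt lam (PS z w) T (fun p => Gd p i) *
      fac θ (PS z y) (fun p => Bd p i) (fun p => Hd p i) ≤
      ∑ i ∈ I', (2 : ℝ) ^ (s * (((PS z w).filter (fun p => Gd p i)).card : ℝ)) *
        fac θ (PS z y) (fun p => Bd p i) (fun p => Hd p i) := by
    refine sum_le_sum fun i _ => mul_le_mul_of_nonneg_right ?_ (fac_nonneg hθ0 hθ1 _ _ _)
    refine (wt_le_prod hlam0.le (PS z w) T (fun p => Gd p i)).trans (le_of_eq ?_)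
    have : 1 + lam = 2 ^ s := by rw [hlam]; ring
    rw [this, Real.rpow_mul (by norm_num), Real.rpow_natCast]
  have hsplit := sum_sdiff (f := fun i => wt lam (PS z w) T (fun p => Gd p i) *
      fac θ (PS z y) (fun p => Bd p i) (fun p => Hd p i)) hI'
  have hfin1 : 3 * (X * l ^ (β - ε)) ≤ X * (κ * l ^ (β - ε / 2)) := by
    have k1 : l ^ (β - ε / 2) = l ^ (ε / 2) * l ^ (β - ε) := by
      rw [← Real.rpow_add hl0']
      congr 1
      ring
    rw [k1]
    have k2 : 0 ≤ X * l ^ (β - ε) := by positivity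
    have := mul_le_mul_of_nonneg_right h8 k2
    linarith
  have hfin2 : X * (κ * l ^ (β - ε / 2)) ≤ 1 / 2 * X * (∑ D ∈ (PS z w).powerset.filter
      (fun D : Finset ℕ => ∏ p ∈ D, p ≤ T), ∏ p ∈ D, (lam * g p)) *
      ∏ p ∈ PS z y, (1 - θ * b p - (1 - θ) * h p) := by
    have := mul_le_mul_of_nonneg_left hM hX
    linarith
  rw [← hlam, ← hθ, ← hl, ← hβ]
  linarith

end Pool.Agent.N870.EC
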