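import Mathlib
import Pool.Agent.TH841.NO.Stm
import Pool.Agent.TH841.TR.PenX
import Pool.Agent.R421.EK.SelW
import Pool.Agent.W307.FK.Stm

/-!
# Project EC (helper870): divergent moments of the orders of 2-Selmer groups

Statements of the independent parts.
-/

set_option autoImplicit false

namespace Pool.Agent.N870.EC

open Finset Polynomial

open scoped Classical

open Pool.Agent.W262.RK (PS)
open Pool.Agent.H474R2.PG (rho)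
open Pool.Agent.TH841.PT (EQ)
open Pool.Agent.TH841.TR (SqM)
open Pool.Agent.TH841.SH (IsR)
open Pool.Agent.TH841.SH.D (rk ShaTor)
open Pool.Agent.W307.SE (Sel SN SelR)
open Pool.Agent.W307.RT (Sh HasT Cv)
open Pool.Agent.Y667.SX (Sel2H)

/-! ### Selmer groups -/

/-- EC/SELGE. The set of pairs of squarefree integers `Sel (b - a) (c - a)` injects into the 2-Selmer
group (cocycles modulo coboundaries) of a curve `y² = (x - a) (x - b) (x - c)`. -/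
def S_SELGE : Prop := ∀ (W : WeierstrassCurve ℚ) (a b c : ℤ), a ≠ b → a ≠ c → b ≠ c →
  IsR W (a : ℚ) (b : ℚ) (c : ℚ) → Finite (Sel2H W) →
  SN (b - a) (c - a) ≤ (Nat.card (Sel2H W) : ℝ)

/-- EC/PW. `#Sel₂ ≤ 4 * 2 ^ rank * #Ш[2]` for `y² = x (x - A) (x - B)`. -/
def S_PW : Prop := ∀ A B : ℤ, A ≠ 0 → B ≠ 0 → A ≠ B →
  SN A B ≤ 4 * ((2 : ℝ) ^ rk (EQ A B) * (Nat.card (ShaTor (EQ A B) 2) : ℝ))

/-! ### Sums over primes -/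

/-- the number of the roots of `f` modulo `p` at which `w` is a nonzero square -/
noncomputable def gm (f w : ℤ[X]) (p : ℕ) : ℕ := ((range p).filter (fun x : ℕ =>
  (p : ℤ) ∣ f.eval (x : ℤ) ∧ jacobiSym (w.eval (x : ℤ)) p = 1)).card

/-- EC/MER1. One irreducible polynomial. -/
def S_MER1 : Prop := ∀ f w : ℤ[X], Irreducible f → 0 < f.natDegree → ¬ f ∣ w →
  ∃ z0 : ℕ, ∀ z : ℕ, z0 ≤ z → ∃ K : ℝ, ∀ y : ℕ, z < y →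
    (if SqM f w then (1 : ℝ) else 1 / 2) * Real.log (Real.log y) - K ≤
      ∑ p ∈ PS z y, (gm f w p : ℝ) / p

/-- EC/MERP. A product of irreducible polynomials. -/
def S_MERP : Prop := ∀ (ι : Type) [Fintype ι] (f : ι → ℤ[X]) (a : ℤ) (w : ℤ[X]), a ≠ 0 →
  (∀ i, Irreducible (f i) ∧ 0 < (f i).natDegree) → (∀ i j, i ≠ j → ¬ Associated (f i) (f j)) →
  (∀ i, ¬ f i ∣ w) →
  ∃ z0 : ℕ, ∀ z : ℕ, z0 ≤ z → ∃ K : ℝ, ∀ y : ℕ, z < y →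
    ((Fintype.card ι : ℝ) + ((univ.filter (fun i => SqM (f i) w)).card : ℝ)) / 2 *
      Real.log (Real.log y) - K ≤ ∑ p ∈ PS z y, (gm (C a * ∏ i, f i) w p : ℝ) / p

/-- EC/MER2. The upper bound for the roots of a polynomial with given irreducible factors. -/
def S_MER2 : Prop := ∀ (ι : Type) [Fintype ι] (f : ι → ℤ[X]) (W : ℤ[X]) (a : ℤ) (k : ℕ), a ≠ 0 →
  (∀ i, Irreducible (f i) ∧ 0 < (f i).natDegree) → W ∣ C a * (∏ i, f i) ^ k →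
  ∃ z0 : ℕ, ∀ z : ℕ, z0 ≤ z → ∃ K : ℝ, ∀ y : ℕ, z < y →
    ∑ p ∈ PS z y, (rho W p : ℝ) / p ≤ (Fintype.card ι : ℝ) * Real.log (Real.log y) + K

/-! ### Pairs of integers -/

/-- EC/CNT2. The pairs of integers with given residues. -/
def S_CNT2 : Prop := ∀ (X : ℕ) (P : Finset ℕ) (Z : ℕ → ℕ → ℕ → Prop), (∀ p ∈ P, p.Prime) →
  (∀ p ∈ P, ∀ a b a' b' : ℕ, a ≡ a' [MOD p] → b ≡ b' [MOD p] → (Z p a b ↔ Z p a' b')) →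
  ∏ p ∈ P, p ≤ X →
  |(((Icc 1 X ×ˢ Icc 1 X).filter (fun t : ℕ × ℕ => ∀ p ∈ P, Z p t.1 t.2)).card : ℝ) -
    (X : ℝ) ^ 2 * ∏ p ∈ P, (((range p ×ˢ range p).filter
      (fun t : ℕ × ℕ => Z p t.1 t.2)).card : ℝ) / (p : ℝ) ^ 2| ≤
    3 * (∏ p ∈ P, (p : ℝ)) * X

/-- EC/DEN2. The numbers of the residues, `A = 1 + m u`, `B = v`. -/
def S_DEN2 : Prop := ∀ (p m : ℕ), p.Prime → 5 ≤ p → ¬ p ∣ m →
  ((range p ×ˢ range p).filter (fun t : ℕ × ℕ => (p : ℤ) ∣ (1 + m * t.1 : ℤ) - t.2 ∧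
    jacobiSym (3 * (1 + m * t.1 : ℤ)) p = 1)).card = (p - 1) / 2 ∧
  ((range p ×ˢ range p).filter (fun t : ℕ × ℕ => (p : ℤ) ∣ (1 + m * t.1 : ℤ) ∨
    (p : ℤ) ∣ (t.2 : ℤ))).card = 2 * p - 1 ∧
  ((range p ×ˢ range p).filter (fun t : ℕ × ℕ => (p : ℤ) ∣ (1 + m * t.1 : ℤ) ∧
    (p : ℤ) ∣ (t.2 : ℤ))).card = 1

/-! ### The curves with full rational 2-torsion, by height -/

/-- the coefficients of `y² = (x - e₁) (x - e₂) (x - e₃)`,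
`(e₁, e₂, e₃) = (- (A + B), 2 A - B, 2 B - A)`; so `e₂ - e₁ = 3 A`, `e₃ - e₁ = 3 B` -/
def cc (A B : ℤ) : ℤ × ℤ :=
  (-3 * (A ^ 2 - A * B + B ^ 2), (A + B) * (2 * A - B) * (2 * B - A))

/-- EC/FAM2. The coprime pairs give curves with full rational 2-torsion, each at most 6 times. -/
def S_FAM2 : Prop := ∃ K : ℕ, ∀ X H : ℕ, K * X ^ 6 ≤ H →
  (∀ A B : ℕ, 1 ≤ A → A ≤ X → 1 ≤ B → B ≤ X → A.Coprime B → A ≠ B → cc A B ∈ Cv 2 H) ∧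
  ∀ c : ℤ × ℤ, ((Icc 1 X ×ˢ Icc 1 X).filter (fun t : ℕ × ℕ => cc t.1 t.2 = c)).card ≤ 6

/-- EC/SZ2. The Selmer groups of these curves. -/
def S_SZ2 : Prop := ∀ A B : ℕ, 1 ≤ A → 1 ≤ B → A.Coprime B → A ≠ B →
  SN (3 * A) (3 * B) ≤ ((SelR (cc A B).1 (cc A B).2).ncard : ℝ)

/-- EC/CARD2. The number of the curves. -/
def S_CARD2 : Prop := ∃ K : ℝ, ∀ H : ℕ, ((Cv 2 H).card : ℝ) ≤ K * ((H : ℝ) + 1) ^ ((1 : ℝ) / 3)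

/-! ### The curves with torsion `Z/2 x Z/4`, by height -/

/-- the coefficients of `y² = (x - e₁) (x - e₂) (x - e₃)`,
`e₁ = 3 (a² + b²)`, `e₂ = - 3 (2 a² - b²)`, `e₃ = - 3 (2 b² - a²)`; so `e₂ - e₁ = - 9 a²`,
`e₃ - e₁ = - 9 b²` -/
def cd (a b : ℤ) : ℤ × ℤ :=
  (-27 * (a ^ 4 - a ^ 2 * b ^ 2 + b ^ 4), -27 * (a ^ 2 + b ^ 2) * (2 * a ^ 2 - b ^ 2) *
    (2 * b ^ 2 - a ^ 2))

/-- EC/FAM4. The coprime pairs give curves with a rational subgroup `Z/2 x Z/4`. -/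
def S_FAM4 : Prop := ∃ K : ℕ, ∀ X H : ℕ, K * X ^ 12 ≤ H →
  (∀ a b : ℕ, 1 ≤ a → a ≤ X → 1 ≤ b → b ≤ X → a.Coprime b → a ≠ b → cd a b ∈ Cv 4 H) ∧
  ∀ c : ℤ × ℤ, ((Icc 1 X ×ˢ Icc 1 X).filter (fun t : ℕ × ℕ => cd t.1 t.2 = c)).card ≤ 6

/-- EC/SZ4. The Selmer groups of these curves. -/
def S_SZ4 : Prop := ∀ a b : ℕ, 1 ≤ a → 1 ≤ b → a.Coprime b → a ≠ b →
  SN (-(a : ℤ) ^ 2) (-(b : ℤ) ^ 2) ≤ ((SelR (cd a b).1 (cd a b).2).ncard : ℝ)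

/-- EC/CARD4. The number of the curves. -/
def S_CARD4 : Prop := ∃ K : ℝ, ∀ H : ℕ, ((Cv 4 H).card : ℝ) ≤ K * ((H : ℝ) + 1) ^ ((1 : ℝ) / 6)

/-- EC/DEN4. The numbers of the residues, `a = 1 + m u`, `b = v`. -/
def S_DEN4 : Prop := ∀ (p m : ℕ), p.Prime → 5 ≤ p → ¬ p ∣ m →
  ((range p ×ˢ range p).filter (fun t : ℕ × ℕ =>
    (p : ℤ) ∣ -(1 + m * t.1 : ℤ) ^ 2 - -(t.2 : ℤ) ^ 2 ∧
    jacobiSym (-(1 + m * t.1 : ℤ) ^ 2) p = 1)).card = (if p % 4 = 1 then 2 * (p - 1) else 0) ∧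
  ((range p ×ˢ range p).filter (fun t : ℕ × ℕ => (p : ℤ) ∣ (1 + m * t.1 : ℤ) ∨
    (p : ℤ) ∣ (t.2 : ℤ))).card = 2 * p - 1 ∧
  ((range p ×ˢ range p).filter (fun t : ℕ × ℕ => (p : ℤ) ∣ (1 + m * t.1 : ℤ) ∧
    (p : ℤ) ∣ (t.2 : ℤ))).card = 1

end Pool.Agent.N870.EC
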