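import Mathlib
import Pool.Agent.N870.EC.Stm
import Pool.Agent.N870.EC.Abs2
import Pool.Agent.N870.SQ.Main
import Pool.Agent.TH841.NO.Ub
import Pool.Agent.TH841.NO.Qul
import Pool.Agent.TH841.NO.Lwa
import Pool.Agent.TH841.NO.Lwb
import Pool.Agent.TH841.NO.Pr
import Pool.Agent.TH841.NO.Lin2

/-!
# Project EC: the lower bound for the moments, one polynomial parameter

Seat helper870.
-/

set_option autoImplicit false

namespace Pool.Agent.N870.EC

open Finset Polynomial Filter Pool.Agent.W262.RK Pool.Agent.TH841.PT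

open scoped Classical

open Pool.Agent.H474R2.PG (rho)
open Pool.Agent.W307.SE (Loc Sel SN SN_nonneg sel_fin)
open Pool.Agent.TH841.NO (SQ Qu S2 C1g C2g)
open Pool.Agent.N870.SQ (Lev Adm PerZ count_T zerosA card_big)

/-! ### One curve -/

lemma one_mem_SQ {a b : ℤ} : (1 : ℤ) ∈ SQ a b := by
  have h : ∀ (K : Type) [Field K], Qu K a b 1 := fun K _ =>
    ⟨1, 1, 0, Or.inl one_ne_zero, by push_cast; ring⟩
  exact ⟨squarefree_one, one_dvd _, h ℝ, fun p _ => h ℚ_[p]⟩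

/-- **the lower bound for the order of the 2-Selmer group of one curve** -/
theorem sel_low {A B : ℤ} (hA : A ≠ 0) (hB : B ≠ 0) (hAB : A ≠ B) :
    (2 : ℝ) ^ ((C1g A B).card : ℝ) ≤ 2 ^ (((S2 A B).card : ℝ) + 10) * SN A B := by
  have h := Pool.Agent.TH841.NO.ub Pool.Agent.TH841.NO.QULf.qul Pool.Agent.TH841.NO.LWAf.lwa
    Pool.Agent.TH841.NO.LWBf.lwb Pool.Agent.TH841.NO.LWBf.lwc Pool.Agent.TH841.NO.PRf.pra
    Pool.Agent.TH841.NO.PRf.prb Pool.Agent.TH841.NO.LIN2f.lin2 hA hB hAB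
  have h1 : 1 ≤ (SQ (-(A + B)) (A * B)).ncard :=
    (Set.ncard_pos (Pool.Agent.TH841.NO.sq_finite (mul_ne_zero hA hB))).2 ⟨1, one_mem_SQ⟩
  have h2 : 2 ^ (C1g A B).card ≤ 2 ^ 10 * 2 ^ (S2 A B).card * (Sel A B).ncard := by
    refine le_trans ?_ h
    calc 2 ^ (C1g A B).card ≤ 2 ^ ((C1g A B).card + (C2g A B).card) :=
          Nat.pow_le_pow_right (by norm_num) (by omega)
      _ ≤ _ := Nat.le_mul_of_pos_left _ h1
  have h3 : (2 : ℝ) ^ (C1g A B).card ≤ 2 ^ 10 * 2 ^ (S2 A B).card * ((Sel A B).ncard : ℝ) := by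
    exact_mod_cast h2
  rw [Real.rpow_natCast, Real.rpow_add (by norm_num), Real.rpow_natCast]
  have h4 : (2 : ℝ) ^ (10 : ℝ) = 2 ^ 10 := by
    rw [← Real.rpow_natCast]
    norm_num
  rw [h4]
  unfold SN
  calc _ ≤ _ := h3
    _ = _ := by ring

lemma SN_pos {A B : ℤ} (hA : A ≠ 0) (hB : B ≠ 0) (hAB : A ≠ B) : 0 < SN A B := by
  have h := sel_low hA hB hAB
  have h1 : (0 : ℝ) < 2 ^ ((C1g A B).card : ℝ) := by positivity
  have h2 : (0 : ℝ) < 2 ^ (((S2 A B).card : ℝ) + 10) := by positivity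
  exact pos_of_mul_pos_right (lt_of_lt_of_le h1 h) h2.le

/-- the lower bound in terms of some good primes and of the small bad primes -/
lemma sel_low2 {A B : ℤ} (hA : A ≠ 0) (hB : B ≠ 0) (hAB : A ≠ B) {s : ℝ} (hs : 0 < s) {z y W : ℕ}
    (hz : 11 ≤ z) (P1 : Finset ℕ) (hP1 : P1 ⊆ PS z y)
    (hW : ((A * B).natAbs.primeFactors.filter (fun p => y < p)).card ≤ W) :
    (2 : ℝ) ^ (s * ((P1.filter (fun p : ℕ => (p : ℤ) ∣ A - B ∧ jacobiSym A p = 1)).card : ℝ)) *
      (2 : ℝ) ^ (-(s * (((PS z y).filter (fun p : ℕ => (p : ℤ) ∣ A * B)).card : ℝ))) ≤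
      2 ^ (s * ((z : ℝ) + W + 11)) * (SN A B) ^ s := by
  have h1 : (P1.filter (fun p : ℕ => (p : ℤ) ∣ A - B ∧ jacobiSym A p = 1)).card ≤
      (C1g A B).card := by
    apply card_le_card
    intro p hp
    rw [mem_filter] at hp
    have hp' := mem_PS.1 (hP1 hp.1)
    unfold C1g
    rw [mem_filter, Nat.mem_primeFactors]
    have hne : (A - B).natAbs ≠ 0 := Int.natAbs_ne_zero.2 (sub_ne_zero.2 hAB)
    exact ⟨⟨hp'.2, Int.natCast_dvd.1 hp.2.1, hne⟩, by omega,
      Pool.Agent.TH841.NO.ndvd_of_jac hp'.2 hp.2.2, hp.2.2⟩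
  have h2 : (S2 A B).card ≤ ((PS z y).filter (fun p : ℕ => (p : ℤ) ∣ A * B)).card + (z + 1) + W := by
    have h3 : S2 A B ⊆ (((PS z y).filter (fun p : ℕ => (p : ℤ) ∣ A * B)) ∪ range (z + 1)) ∪
        (A * B).natAbs.primeFactors.filter (fun p => y < p) := by
      intro p hp
      unfold S2 at hp
      rw [mem_filter] at hp
      rw [mem_union, mem_union, mem_range, mem_filter, mem_filter]
      by_cases h4 : p < z + 1
      · exact Or.inl (Or.inr h4)
      · by_cases h5 : y < p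
        · exact Or.inr ⟨hp.1, h5⟩
        · exact Or.inl (Or.inl ⟨mem_PS.2 ⟨⟨by omega, by omega⟩, Nat.prime_of_mem_primeFactors hp.1⟩,
            Int.natCast_dvd.2 (Nat.dvd_of_mem_primeFactors hp.1)⟩)
    have h6 := (card_le_card h3).trans ((card_union_le _ _).trans
      (Nat.add_le_add_right (card_union_le _ _) _))
    rw [card_range] at h6
    omega
  obtain ⟨G, hG⟩ : ∃ G : ℝ, G =
    ((P1.filter (fun p : ℕ => (p : ℤ) ∣ A - B ∧ jacobiSym A p = 1)).card : ℝ) := ⟨_, rfl⟩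
  obtain ⟨Bn, hBn⟩ : ∃ Bn : ℝ, Bn =
    (((PS z y).filter (fun p : ℕ => (p : ℤ) ∣ A * B)).card : ℝ) := ⟨_, rfl⟩
  have h1' : G ≤ (C1g A B).card := by rw [hG]; exact_mod_cast h1
  have h2' : ((S2 A B).card : ℝ) ≤ Bn + (z + 1) + W := by rw [hBn]; exact_mod_cast h2
  have h7 := sel_low hA hB hAB
  have h8 : (2 : ℝ) ^ G ≤ 2 ^ (Bn + (z + 1) + W + 10) * SN A B := by
    calc (2 : ℝ) ^ G ≤ 2 ^ ((C1g A B).card : ℝ) :=
          Real.rpow_le_rpow_of_exponent_le (by norm_num) h1'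
      _ ≤ 2 ^ (((S2 A B).card : ℝ) + 10) * SN A B := h7
      _ ≤ _ := by
          refine mul_le_mul_of_nonneg_right ?_ (SN_nonneg _ _)
          exact Real.rpow_le_rpow_of_exponent_le (by norm_num) (by linarith)
  have h9 : ((2 : ℝ) ^ G) ^ s ≤ (2 ^ (Bn + (z + 1) + W + 10) * SN A B) ^ s :=
    Real.rpow_le_rpow (by positivity) h8 hs.le
  rw [Real.mul_rpow (by positivity) (SN_nonneg _ _), ← Real.rpow_mul (by norm_num),
    ← Real.rpow_mul (by norm_num)] at h9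
  rw [← hG, ← hBn]
  calc (2 : ℝ) ^ (s * G) * 2 ^ (-(s * Bn)) ≤
      (2 ^ ((Bn + (z + 1) + W + 10) * s) * SN A B ^ s) * 2 ^ (-(s * Bn)) := by
        refine mul_le_mul_of_nonneg_right ?_ (by positivity)
        rwa [mul_comm s G]
    _ = (2 ^ ((Bn + (z + 1) + W + 10) * s) * 2 ^ (-(s * Bn))) * SN A B ^ s := by ring
    _ = 2 ^ (s * ((z : ℝ) + W + 11)) * (SN A B) ^ s := by
        rw [← Real.rpow_add (by norm_num)]
        congr 2
        ring

/-! ### Sums over primes -/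

/-- the weight without the third kind of primes -/
lemma fac_false (s : ℝ) (P : Finset ℕ) (B : ℕ → Prop) :
    fac (1 - 2 ^ (-s)) P B (fun _ => False) = (2 : ℝ) ^ (-(s * ((P.filter B).card : ℝ))) := by
  have e : fac (1 - 2 ^ (-s)) P B (fun _ => False) = ∏ p ∈ P, if B p then (2 : ℝ) ^ (-s) else 1 := by
    unfold fac
    refine prod_congr rfl fun p _ => ?_
    by_cases h1 : B p
    · simp [h1]
    · simp [h1]
  rw [e, ← prod_filter, prod_const, ← Real.rpow_natCast, ← Real.rpow_mul (by norm_num)]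
  congr 1
  ring

lemma cfc {ι : Type} {s : Finset ι} {P Q : ι → Prop} {h1 : DecidablePred P} {h2 : DecidablePred Q}
    (h : ∀ i ∈ s, P i ↔ Q i) : (s.filter P).card = (s.filter Q).card := by
  congr 1
  ext i
  rw [mem_filter, mem_filter]
  exact and_congr_right fun hi => h i hi

lemma gm_le (f w : ℤ[X]) (p : ℕ) : gm f w p ≤ rho f p := by
  unfold gm rho
  refine (card_le_card (s := (range p).filter (fun x : ℕ => (p : ℤ) ∣ f.eval (x : ℤ) ∧
    jacobiSym (w.eval (x : ℤ)) p = 1)) (t := (range p).filter (fun x : ℕ => (p : ℤ) ∣ f.eval (x : ℤ)))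
    ?_).trans (le_of_eq (by congr!))
  intro x hx
  rw [mem_filter] at hx ⊢
  exact ⟨hx.1, hx.2.1⟩

lemma rho_le_self (f : ℤ[X]) (p : ℕ) : rho f p ≤ p := by
  unfold rho
  exact (card_filter_le _ _).trans (le_of_eq (card_range p))

/-- periodicity -/
lemma per_dvd (f : ℤ[X]) {p : ℕ} {a b : ℤ} (h : (p : ℤ) ∣ a - b) :
    (p : ℤ) ∣ f.eval a ↔ (p : ℤ) ∣ f.eval b := by
  have h1 := h.trans (sub_dvd_eval_sub a b f)
  constructor
  · intro h2
    have := dvd_sub h2 h1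
    simpa using this
  · intro h2
    have := dvd_add h1 h2
    simpa using this

lemma per_jac (f : ℤ[X]) {p : ℕ} {a b : ℤ} (h : (p : ℤ) ∣ a - b) :
    jacobiSym (f.eval a) p = jacobiSym (f.eval b) p := by
  have h1 := h.trans (sub_dvd_eval_sub a b f)
  apply jacobiSym.mod_left'
  exact (Int.modEq_iff_dvd.2 (by
    have := (dvd_neg (α := ℤ)).2 h1
    simpa using this))

/-- the counting hypothesis of the abstract theorem -/
lemma count_seq (A B : ℤ[X]) {X L : ℕ} {α : ℕ → ℤ} (hα : Lev X L α) {z y : ℕ} (D Q1 Q2 : Finset ℕ)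
    (hD : D ⊆ PS z y) (hQ1 : Q1 ⊆ PS z y) (hQ2 : Q2 ⊆ PS z y) (h1 : Disjoint D Q1)
    (hL : (∏ p ∈ D, p) * ((∏ p ∈ Q1, p) * ∏ p ∈ Q2, p) ≤ L) :
    |(((Icc 1 X).filter (fun i : ℕ => (∀ p ∈ D, (p : ℤ) ∣ (A - B).eval (α i) ∧
      jacobiSym (A.eval (α i)) p = 1) ∧ (∀ p ∈ Q1, (p : ℤ) ∣ (A * B).eval (α i)) ∧
      ∀ p ∈ Q2, False)).card : ℝ) - (X : ℝ) * ((∏ p ∈ D, (gm (A - B) A p : ℝ) / p) *
        ((∏ p ∈ Q1, (rho (A * B) p : ℝ) / p) * ∏ p ∈ Q2, (0 : ℝ)))| ≤
      ((((∏ p ∈ D, p) * ((∏ p ∈ Q1, p) * ∏ p ∈ Q2, p) : ℕ) : ℝ)) ^ 2 * ((X : ℝ) / L) := by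
  rcases Q2.eq_empty_or_nonempty with h0 | ⟨q, hq⟩
  · rw [h0]
    have hpr : ∀ p ∈ D ∪ Q1, p.Prime := by
      intro p hp
      rcases mem_union.1 hp with hp | hp
      · exact (mem_PS.1 (hD hp)).2
      · exact (mem_PS.1 (hQ1 hp)).2
    have hk := count_T hα (fun p t => (p ∈ D → (p : ℤ) ∣ (A - B).eval t ∧
      jacobiSym (A.eval t) p = 1) ∧ (p ∉ D → (p : ℤ) ∣ (A * B).eval t)) 1 le_rfl 0 (D ∪ Q1)
      (fun p hp => ⟨hpr p hp, fun h => (hpr p hp).one_lt.ne' (Nat.dvd_one.1 h)⟩) (by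
        intro p hp a b hab
        have e1 := per_dvd (A - B) hab
        have e2 := per_jac A hab
        have e3 := per_dvd (A * B) hab
        rw [e1, e2, e3])
      (fun p => if p ∈ D then gm (A - B) A p else rho (A * B) p) (by
        intro p hp
        by_cases hpD : p ∈ D
        · rw [if_pos hpD]
          unfold gm
          refine cfc fun x _ => ?_
          constructor
          · intro h
            exact h.1 hpD
          · intro h
            exact ⟨fun _ => h, fun h' => absurd hpD h'⟩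
        · rw [if_neg hpD]
          unfold rho
          refine cfc fun x _ => ?_
          constructor
          · intro h
            exact h.2 hpD
          · intro h
            exact ⟨fun h' => absurd h' hpD, fun _ => h⟩) (by
        rw [prod_union h1]
        rw [h0, prod_empty, mul_one] at hL
        rw [one_mul]
        exact hL)
    rw [prod_union h1, prod_union h1] at hk
    have e1 : ∏ p ∈ D, (((if p ∈ D then gm (A - B) A p else rho (A * B) p) : ℕ) : ℝ) / p =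
        ∏ p ∈ D, (gm (A - B) A p : ℝ) / p := prod_congr rfl fun p hp => by rw [if_pos hp]
    have e2 : ∏ p ∈ Q1, (((if p ∈ D then gm (A - B) A p else rho (A * B) p) : ℕ) : ℝ) / p =
        ∏ p ∈ Q1, (rho (A * B) p : ℝ) / p := prod_congr rfl fun p hp => by
          rw [if_neg (fun h => (disjoint_left.1 h1) h hp)]
    have e3 : ∏ p ∈ D, (((if p ∈ D then gm (A - B) A p else rho (A * B) p) : ℕ) : ℝ) ≤
        ((∏ p ∈ D, p : ℕ) : ℝ) := by
      rw [Nat.cast_prod]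
      refine prod_le_prod (fun _ _ => Nat.cast_nonneg _) fun p hp => ?_
      rw [if_pos hp]
      exact_mod_cast (gm_le _ _ _).trans (rho_le_self _ _)
    have e4 : ∏ p ∈ Q1, (((if p ∈ D then gm (A - B) A p else rho (A * B) p) : ℕ) : ℝ) ≤
        ((∏ p ∈ Q1, p : ℕ) : ℝ) := by
      rw [Nat.cast_prod]
      refine prod_le_prod (fun _ _ => Nat.cast_nonneg _) fun p hp => ?_
      rw [if_neg (fun h => (disjoint_left.1 h1) h hp)]
      exact_mod_cast rho_le_self _ _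
    rw [e1, e2] at hk
    simp only [prod_empty, mul_one, Nat.cast_one, div_one] at hk ⊢
    have e6 : 0 ≤ ∏ p ∈ Q1, (((if p ∈ D then gm (A - B) A p else rho (A * B) p) : ℕ) : ℝ) :=
      prod_nonneg fun _ _ => Nat.cast_nonneg _
    have e7 : 1 ≤ (∏ p ∈ D, p) * ∏ p ∈ Q1, p := Nat.mul_pos
      (prod_pos fun p hp => (mem_PS.1 (hD hp)).2.pos) (prod_pos fun p hp =>
        (mem_PS.1 (hQ1 hp)).2.pos)
    have e8 : (1 : ℝ) ≤ (((∏ p ∈ D, p) * ∏ p ∈ Q1, p : ℕ) : ℝ) := by exact_mod_cast e7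
    refine (le_of_eq_of_le (congrArg (fun n : ℕ => |(n : ℝ) - _|) (cfc fun i _ => ?_)) hk).trans
      (mul_le_mul_of_nonneg_right ?_ (by positivity))
    · constructor
      · rintro ⟨hh1, hh2, -⟩
        refine ⟨by simp, fun p hp => ⟨fun hpD => hh1 p hpD, fun hpD => ?_⟩⟩
        rcases mem_union.1 hp with h | h
        · exact absurd h hpD
        · exact hh2 p h
      · rintro ⟨-, hh⟩
        refine ⟨fun p hp => (hh p (mem_union_left _ hp)).1 hp, fun p hp =>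
          (hh p (mem_union_right _ hp)).2 (fun h => (disjoint_left.1 h1) h hp), fun p hp => ?_⟩
        exact absurd hp (notMem_empty p)
    calc _ ≤ ((∏ p ∈ D, p : ℕ) : ℝ) * ((∏ p ∈ Q1, p : ℕ) : ℝ) :=
          mul_le_mul e3 e4 e6 (Nat.cast_nonneg _)
      _ = (((∏ p ∈ D, p) * ∏ p ∈ Q1, p : ℕ) : ℝ) := (Nat.cast_mul _ _).symm
      _ ≤ _ := by nlinarith
  · have e1 : ((Icc 1 X).filter (fun i : ℕ => (∀ p ∈ D, (p : ℤ) ∣ (A - B).eval (α i) ∧
        jacobiSym (A.eval (α i)) p = 1) ∧ (∀ p ∈ Q1, (p : ℤ) ∣ (A * B).eval (α i)) ∧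
        ∀ p ∈ Q2, False)).card = 0 := by
      rw [card_eq_zero]
      refine filter_false_of_mem fun i _ h => ?_
      exact h.2.2 q hq
    rw [e1, prod_eq_zero (i := q) hq rfl]
    simp only [Nat.cast_zero, mul_zero, sub_zero, abs_zero]
    positivity

/-- Mertens for the roots of a polynomial: trivial upper bound -/
lemma sum_ps_le (z : ℕ) : ∃ K : ℝ, ∀ w : ℕ, z < w → 3 ≤ w → ∑ p ∈ PS z w, 1 / (p : ℝ) ≤
    Real.log (Real.log w) + K := by
  obtain ⟨C, hC0, hC⟩ := Pool.Agent.H474R2.GE.mertens_rho (X : ℤ[X]) irreducible_X (by simp)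
  refine ⟨C, fun w hw h3 => ?_⟩
  have h1 := (abs_le.1 (hC w (by exact_mod_cast h3))).2
  have h2 : ∑ p ∈ PS z w, 1 / (p : ℝ) ≤ Pool.Agent.H474R2.PG.Sg (rho (X : ℤ[X])) (w : ℝ) := by
    unfold Pool.Agent.H474R2.PG.Sg
    have h4 : PS z w ⊆ Pool.Agent.H474R2.PG.PR (w : ℝ) := by
      intro p hp
      have hp' := mem_PS.1 hp
      unfold Pool.Agent.H474R2.PG.PR
      rw [Nat.floor_natCast, mem_filter, mem_Icc]
      exact ⟨⟨by omega, hp'.1.2⟩, hp'.2⟩
    refine (sum_le_sum fun p hp => ?_).trans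
      (sum_le_sum_of_subset_of_nonneg h4 fun p _ _ => by positivity)
    have hp' := mem_PS.1 hp
    apply div_le_div_of_nonneg_right _ (Nat.cast_nonneg _)
    have : 1 ≤ rho (X : ℤ[X]) p := by
      unfold rho
      rw [Nat.one_le_iff_ne_zero, card_ne_zero]
      exact ⟨0, mem_filter.2 ⟨mem_range.2 hp'.2.pos, by simp⟩⟩
    exact_mod_cast this
  linarith

end Pool.Agent.N870.EC
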