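import Mathlib
import Pool.Agent.N870.EC.En1

/-!
# Project EC: the lower bound for the moments, one polynomial parameter, the main theorem

Seat helper870.
-/

set_option autoImplicit false

namespace Pool.Agent.N870.EC

open Finset Polynomial Filter Pool.Agent.W262.RK Pool.Agent.TH841.PT

open scoped Classical

open Pool.Agent.H474R2.PG (rho)
open Pool.Agent.W307.SE (Loc Sel SN SN_nonneg sel_fin)
open Pool.Agent.N870.SQ (Lev Adm PerZ count_T zerosA card_big)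

/-- few large primes divide a value of a polynomial -/
lemma card_large (f : ℤ[X]) (Bd : ℕ) (δ : ℝ) (hδ : 0 < δ) : ∃ W : ℕ, ∀ (L : ℕ) (t : ℤ), 2 ≤ L →
    t.natAbs ≤ L ^ Bd → f.eval t ≠ 0 → ∀ y : ℕ, y = ⌊(L : ℝ) ^ δ⌋₊ →
      ((f.eval t).natAbs.primeFactors.filter (fun p => y < p)).card ≤ W := by
  obtain ⟨K, hK⟩ := eval_le f
  obtain ⟨E, hE⟩ : ∃ E : ℕ, E = K + Bd * f.natDegree := ⟨_, rfl⟩
  refine ⟨⌈(E : ℝ) / δ⌉₊, fun L t hL ht hne y hy => ?_⟩
  have hL0 : (0 : ℝ) < L := by exact_mod_cast (by omega : 0 < L)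
  have hL1 : (1 : ℝ) < L := by exact_mod_cast (by omega : 1 < L)
  have hsize : (f.eval t).natAbs ≤ L ^ E := by
    calc (f.eval t).natAbs ≤ K * (L ^ Bd) ^ f.natDegree :=
          hK t (L ^ Bd) (Nat.one_le_pow _ _ (by omega)) ht
      _ ≤ 2 ^ K * (L ^ Bd) ^ f.natDegree := Nat.mul_le_mul_right _ (Nat.lt_two_pow_self).le
      _ ≤ L ^ K * (L ^ Bd) ^ f.natDegree := Nat.mul_le_mul_right _ (Nat.pow_le_pow_left hL K)
      _ = L ^ E := by rw [hE, pow_add, pow_mul]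
  have hy1 : 1 < (L : ℝ) ^ δ := Real.one_lt_rpow hL1 hδ
  have h1 := card_big (f.eval t).natAbs (Int.natAbs_ne_zero.2 hne) _ hy1 ((E : ℝ) / δ) (by
    rw [← Real.rpow_mul hL0.le, mul_div_cancel₀ _ hδ.ne', Real.rpow_natCast]
    exact_mod_cast hsize)
  have h2 : ((f.eval t).natAbs.primeFactors.filter (fun p : ℕ => (L : ℝ) ^ δ < p)).card ≤
      ⌈(E : ℝ) / δ⌉₊ := by
    have := h1.trans (Nat.le_ceil _)
    exact_mod_cast this
  refine le_trans (card_le_card fun p hp => ?_) h2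
  rw [mem_filter] at hp ⊢
  refine ⟨hp.1, ?_⟩
  have h3 : (L : ℝ) ^ δ < y + 1 := by rw [hy]; exact Nat.lt_floor_add_one _
  have h4 : (y : ℝ) + 1 ≤ p := by exact_mod_cast hp.2
  linarith

/-- **the lower bound for the moments of the orders of the 2-Selmer groups in a pencil** -/
theorem en1 (A B : ℤ[X]) (hA : A ≠ 0) (hB : B ≠ 0) (hAB : A - B ≠ 0) (gg bb : ℝ) (hgg : 0 ≤ gg)
    (hbb : 0 ≤ bb)
    (hg : ∃ z0 : ℕ, ∀ z : ℕ, z0 ≤ z → ∃ K : ℝ, ∀ y : ℕ, z < y →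
      gg * Real.log (Real.log y) - K ≤ ∑ p ∈ PS z y, (gm (A - B) A p : ℝ) / p)
    (hb : ∃ z0 : ℕ, ∀ z : ℕ, z0 ≤ z → ∃ K : ℝ, ∀ y : ℕ, z < y →
      ∑ p ∈ PS z y, (rho (A * B) p : ℝ) / p ≤ bb * Real.log (Real.log y) + K)
    (s ε : ℝ) (hs : 0 < s) (hε : 0 < ε) (Bd : ℕ) :
    ∃ L0 : ℕ, ∀ (X L : ℕ) (α : ℕ → ℤ), Adm Bd X L α → L0 ≤ L →
      (X : ℝ) * (Real.log L) ^ ((2 ^ s - 1) * gg - (1 - 2 ^ (-s)) * bb - ε) ≤
        ∑ i ∈ (Icc 1 X).filter (fun i => A.eval (α i) ≠ 0 ∧ B.eval (α i) ≠ 0 ∧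
          A.eval (α i) ≠ B.eval (α i)), (SN (A.eval (α i)) (B.eval (α i))) ^ s := by
  obtain ⟨B1, hB1⟩ := Pool.Agent.H474R2.PG.rho_le (A - B) hAB
  obtain ⟨B2, hB2⟩ := Pool.Agent.H474R2.PG.rho_le (A * B) (mul_ne_zero hA hB)
  obtain ⟨c, hc⟩ : ∃ c : ℕ, c = (A - B).natDegree + (A * B).natDegree := ⟨_, rfl⟩
  obtain ⟨δ, z0, hδ0, hδ8, habs⟩ := abs2 c s gg bb (ε / 2) hs hgg hbb (by positivity)
  obtain ⟨zg, hzg⟩ := hg
  obtain ⟨zb, hzb⟩ := hb
  obtain ⟨z, hz⟩ : ∃ z : ℕ, z = z0 + zg + zb + B1 + B2 + 11 := ⟨_, rfl⟩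
  obtain ⟨K1, hK1⟩ := hzg z (by omega)
  obtain ⟨K2, hK2⟩ := hzb z (by omega)
  obtain ⟨K3, hK3⟩ := sum_ps_le z
  obtain ⟨C, hC⟩ : ∃ C : ℝ, C = |K1| + |K2| + c * |K3| := ⟨_, rfl⟩
  have hcr : (0 : ℝ) ≤ c := Nat.cast_nonneg _
  have hQ0 : A * B * (A - B) ≠ 0 := mul_ne_zero (mul_ne_zero hA hB) hAB
  obtain ⟨K4, hK40, hK4⟩ := zerosA (A * B * (A - B)) hQ0
  obtain ⟨W, hW⟩ := card_large (A * B) Bd δ hδ0
  obtain ⟨L0, hL0⟩ := habs z (by omega) C K4
  obtain ⟨L1, hL1⟩ := eventually_atTop.1 (((tendsto_rpow_atTop (show 0 < ε / 2 by positivity)).comp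
    (Real.tendsto_log_atTop.comp (tendsto_natCast_atTop_atTop (R := ℝ)))).eventually_ge_atTop
    ((2 : ℝ) ^ (s * ((z : ℝ) + W + 11))))
  refine ⟨L0 + L1 + 3, fun X L α hα hL => ?_⟩
  obtain ⟨y, hy⟩ : ∃ y : ℕ, y = ⌊(L : ℝ) ^ δ⌋₊ := ⟨_, rfl⟩
  obtain ⟨hzy, P1, hP1, hmain⟩ := hL0 L (by omega) y hy
  have hLr : (3 : ℝ) ≤ L := by exact_mod_cast (by omega : 3 ≤ L)
  have hlL : 1 < Real.log L := by
    rw [Real.lt_log_iff_exp_lt (by linarith)]
    have := Real.exp_one_lt_d9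
    linarith
  have hgood : ∀ p ∈ PS z y, (gm (A - B) A p : ℝ) ≤ c ∧ (rho (A * B) p : ℝ) ≤ c ∧ (0 : ℝ) < p := by
    intro p hp
    have hp' := mem_PS.1 hp
    have h1 := hB1 p hp'.2 (by omega)
    have h2 := hB2 p hp'.2 (by omega)
    have h3 := gm_le (A - B) A p
    refine ⟨by exact_mod_cast (by omega : gm (A - B) A p ≤ c), by
      exact_mod_cast (by omega : rho (A * B) p ≤ c), by exact_mod_cast hp'.2.pos⟩
  obtain ⟨I', hI'⟩ : ∃ I' : Finset ℕ, I' = (Icc 1 X).filter (fun i => A.eval (α i) ≠ 0 ∧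
    B.eval (α i) ≠ 0 ∧ A.eval (α i) ≠ B.eval (α i)) := ⟨_, rfl⟩
  have h := hmain X (Icc 1 X) (fun p i => (p : ℤ) ∣ (A - B).eval (α i) ∧
    jacobiSym (A.eval (α i)) p = 1) (fun p i => (p : ℤ) ∣ (A * B).eval (α i)) (fun _ _ => False)
    (fun p => (gm (A - B) A p : ℝ) / p) (fun p => (rho (A * B) p : ℝ) / p) (fun _ => 0)
    (Nat.cast_nonneg _)
    (by
      intro p hp
      obtain ⟨k1, k2, k3⟩ := hgood p hp
      refine ⟨by positivity, ?_, by positivity, ?_, le_rfl, by positivity⟩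
      · exact div_le_div_of_nonneg_right k1 k3.le
      · exact div_le_div_of_nonneg_right k2 k3.le)
    (by
      intro p hp i _
      refine ⟨?_, fun h => h.elim⟩
      rintro ⟨k1, k2⟩ k3
      have hp' := (mem_PS.1 hp).2
      have k4 := Pool.Agent.TH841.NO.ndvd_of_jac hp' k2
      rw [eval_mul] at k3
      rcases (Nat.prime_iff_prime_int.1 hp').dvd_or_dvd k3 with k5 | k5
      · exact k4 k5
      · rw [eval_sub] at k1
        apply k4
        have := dvd_add k1 k5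
        simpa using this)
    (by
      intro D hD Q1 hQ1 Q2 hQ2 h1 h2 h3 hL'
      have := count_seq A B hα.lev D Q1 Q2 hD hQ1 hQ2 h1 hL'
      refine le_of_eq_of_le (congrArg (fun n : ℕ => |(n : ℝ) - _|) (cfc fun i _ => Iff.rfl)) this)
    (by
      intro w hw hwy
      refine ⟨?_, ?_⟩
      · have k1 := hK1 w hw
        have k2 := le_abs_self K1
        have k3 := abs_nonneg K2
        have k4 : 0 ≤ (c : ℝ) * |K3| := by positivity
        linarith
      · have k1 := hK3 w hw (by omega)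
        have k2 : ∑ p ∈ PS z w, (gm (A - B) A p : ℝ) / p ≤ c * ∑ p ∈ PS z w, 1 / (p : ℝ) := by
          rw [mul_sum]
          refine sum_le_sum fun p hp => ?_
          have hp2 : p ∈ PS z y := by
            rw [mem_PS] at hp ⊢
            exact ⟨⟨hp.1.1, hp.1.2.trans hwy⟩, hp.2⟩
          obtain ⟨k3, k4, k5⟩ := hgood p hp2
          rw [mul_one_div]
          exact div_le_div_of_nonneg_right k3 k5.le
        have k3 := mul_le_mul_of_nonneg_left k1 hcr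
        have k4 : (c : ℝ) * K3 ≤ c * |K3| := mul_le_mul_of_nonneg_left (le_abs_self _) hcr
        have k5 := abs_nonneg K1
        have k6 := abs_nonneg K2
        linarith)
    (by
      have k1 := hK2 y (by omega)
      have k2 := le_abs_self K2
      have k3 := abs_nonneg K1
      have k4 : 0 ≤ (c : ℝ) * |K3| := by positivity
      linarith)
    I' (by rw [hI']; exact filter_subset _ _)
    (by
      have k1 := hK4 X L α hα.lev (by omega)
      have k2 : ((Icc 1 X) \ I').card ≤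
          ((Icc 1 X).filter (fun i : ℕ => (A * B * (A - B)).eval (α i) = 0)).card := by
        apply card_le_card
        intro i hi
        rw [hI', Finset.mem_sdiff, mem_filter, not_and] at hi
        rw [mem_filter]
        refine ⟨hi.1, ?_⟩
        have := hi.2 hi.1
        rw [eval_mul, eval_mul, eval_sub]
        by_contra hne
        apply this
        have m1 := left_ne_zero_of_mul hne
        exact ⟨left_ne_zero_of_mul m1, right_ne_zero_of_mul m1,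
          sub_ne_zero.1 (right_ne_zero_of_mul hne)⟩
      have k3 : (((Icc 1 X) \ I').card : ℝ) ≤ K4 * (X / L) :=
        le_trans (by exact_mod_cast k2) k1
      refine k3.trans ?_
      rw [mul_assoc]
      refine mul_le_mul_of_nonneg_left ?_ hK40
      rw [div_eq_mul_inv]
      refine mul_le_mul_of_nonneg_left ?_ (Nat.cast_nonneg _)
      rw [← Real.rpow_neg_one]
      exact Real.rpow_le_rpow_of_exponent_le (by linarith) (by linarith))
  -- the comparison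
  have hcmp : ∀ i ∈ I', (2 : ℝ) ^ (s * ((P1.filter (fun p : ℕ => (p : ℤ) ∣ (A - B).eval (α i) ∧
      jacobiSym (A.eval (α i)) p = 1)).card : ℝ)) *
      fac (1 - 2 ^ (-s)) (PS z y) (fun p : ℕ => (p : ℤ) ∣ (A * B).eval (α i)) (fun _ => False) ≤
      2 ^ (s * ((z : ℝ) + W + 11)) * (SN (A.eval (α i)) (B.eval (α i))) ^ s := by
    intro i hi
    rw [hI', mem_filter] at hi
    obtain ⟨k1, k2, k3, k4⟩ := hi
    have k5 := sel_low2 k2 k3 k4 hs (z := z) (y := y) (W := W) (by omega) P1 hP1 (by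
      have k6 := hW L (α i) (by omega) (hα.bd i k1) (by
        rw [eval_mul]
        exact mul_ne_zero k2 k3) y hy
      rw [eval_mul] at k6
      exact k6)
    rw [fac_false]
    simp only [eval_sub, eval_mul]
    exact k5
  have hfin := h.trans (sum_le_sum fun i hi => le_trans (le_of_eq (by congr!)) (hcmp i hi))
  rw [← mul_sum] at hfin
  rw [← hI']
  obtain ⟨V, hV⟩ : ∃ V : ℝ, V = ∑ i ∈ I', (SN (A.eval (α i)) (B.eval (α i))) ^ s := ⟨_, rfl⟩
  have hV0 : 0 ≤ V := by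
    rw [hV]
    exact sum_nonneg fun i _ => Real.rpow_nonneg (SN_nonneg _ _) _
  rw [← hV] at hfin ⊢
  obtain ⟨M, hM⟩ : ∃ M : ℝ, M = (2 : ℝ) ^ (s * ((z : ℝ) + W + 11)) := ⟨_, rfl⟩
  have hM0 : 0 < M := by rw [hM]; positivity
  have hL1' : M ≤ (Real.log L) ^ (ε / 2) := by
    rw [hM]
    exact hL1 L (by omega)
  rw [← hM] at hfin
  have hl0 : 0 < Real.log L := by linarith
  have k1 : (Real.log L) ^ ((2 ^ s - 1) * gg - (1 - 2 ^ (-s)) * bb - ε / 2) =
      (Real.log L) ^ (ε / 2) * (Real.log L) ^ ((2 ^ s - 1) * gg - (1 - 2 ^ (-s)) * bb - ε) := by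
    rw [← Real.rpow_add hl0]
    congr 1
    ring
  rw [k1] at hfin
  have k2 : 0 ≤ (X : ℝ) * (Real.log L) ^ ((2 ^ s - 1) * gg - (1 - 2 ^ (-s)) * bb - ε) := by positivity
  have k3 := mul_le_mul_of_nonneg_right hL1' k2
  have k4 : M * ((X : ℝ) * (Real.log L) ^ ((2 ^ s - 1) * gg - (1 - 2 ^ (-s)) * bb - ε)) ≤ M * V := by
    refine k3.trans (le_trans (le_of_eq ?_) hfin)
    ring
  exact le_of_mul_le_mul_left k4 hM0

end Pool.Agent.N870.EC
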