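import Mathlib
import Pool.Agent.N870.EC.En1b

/-!
# Project EC: sums over primes for the two-dimensional families

Seat helper870.
-/

set_option autoImplicit false

namespace Pool.Agent.N870.EC

open Finset Polynomial Filter Pool.Agent.W262.RK

open scoped Classical

open Pool.Agent.H474R2.PG (rho)

/-- Mertens for the roots of an irreducible polynomial -/
lemma mer_rho (f : ℤ[X]) (hf : Irreducible f) (hd : 0 < f.natDegree) (z : ℕ) : ∃ K : ℝ, ∀ w : ℕ,
    z < w → 3 ≤ w → |∑ p ∈ PS z w, (rho f p : ℝ) / p - Real.log (Real.log w)| ≤ K := by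
  obtain ⟨C, hC0, hC⟩ := Pool.Agent.H474R2.GE.mertens_rho f hf hd
  obtain ⟨S, hS⟩ : ∃ S : ℝ, S = ∑ p ∈ range (z + 1), (rho f p : ℝ) / p := ⟨_, rfl⟩
  refine ⟨C + S, fun w hw h3 => ?_⟩
  have h1 := hC w (by exact_mod_cast h3)
  have h4 : PS z w ⊆ Pool.Agent.H474R2.PG.PR (w : ℝ) := by
    intro p hp
    have hp' := mem_PS.1 hp
    unfold Pool.Agent.H474R2.PG.PR
    rw [Nat.floor_natCast, mem_filter, mem_Icc]
    exact ⟨⟨by omega, hp'.1.2⟩, hp'.2⟩
  have h5 : Pool.Agent.H474R2.PG.Sg (rho f) (w : ℝ) =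
      ∑ p ∈ PS z w, (rho f p : ℝ) / p + ∑ p ∈ Pool.Agent.H474R2.PG.PR (w : ℝ) \ PS z w,
        (rho f p : ℝ) / p := by
    unfold Pool.Agent.H474R2.PG.Sg
    rw [add_comm, sum_sdiff h4]
  have h6 : ∑ p ∈ Pool.Agent.H474R2.PG.PR (w : ℝ) \ PS z w, (rho f p : ℝ) / p ≤ S := by
    rw [hS]
    refine sum_le_sum_of_subset_of_nonneg (fun p hp => ?_) fun p _ _ => by positivity
    rw [Finset.mem_sdiff] at hp
    unfold Pool.Agent.H474R2.PG.PR at hp
    rw [Nat.floor_natCast, mem_filter, mem_Icc, mem_PS] at hp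
    rw [mem_range]
    by_contra h
    exact hp.2 ⟨⟨by omega, hp.1.1.2⟩, hp.1.2⟩
  have h7 : 0 ≤ ∑ p ∈ Pool.Agent.H474R2.PG.PR (w : ℝ) \ PS z w, (rho f p : ℝ) / p :=
    sum_nonneg fun p _ => by positivity
  rw [h5] at h1
  rw [abs_le] at h1 ⊢
  constructor <;> linarith [h1.1, h1.2]

lemma sum_PS_sq (z w : ℕ) : ∑ p ∈ PS z w, 1 / (p : ℝ) ^ 2 ≤ 2 :=
  (sum_inv_sq z w).trans (by norm_num)

lemma rho_X {p : ℕ} (hp : p.Prime) : rho (X : ℤ[X]) p = 1 := by
  unfold rho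
  rw [card_eq_one]
  refine ⟨0, ?_⟩
  ext x
  simp only [mem_filter, mem_range, mem_singleton, eval_X]
  constructor
  · rintro ⟨h1, h2⟩
    have h3 : p ∣ x := by exact_mod_cast h2
    exact Nat.eq_zero_of_dvd_of_lt h3 h1
  · rintro rfl
    exact ⟨hp.pos, by simp⟩

/-- the sums for the curves with full 2-torsion -/
lemma mer_two (z : ℕ) : ∃ C : ℝ, 0 ≤ C ∧ ∀ w : ℕ, z < w → 3 ≤ w →
    (1 / 2 * Real.log (Real.log w) - C ≤ ∑ p ∈ PS z w, (((p - 1) / 2 : ℕ) : ℝ) / (p : ℝ) ^ 2) ∧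
    (∑ p ∈ PS z w, (((p - 1) / 2 : ℕ) : ℝ) / (p : ℝ) ^ 2 ≤ 1 / 2 * Real.log (Real.log w) + C) ∧
    (∑ p ∈ PS z w, ((2 * p - 1 : ℕ) : ℝ) / (p : ℝ) ^ 2 ≤ 2 * Real.log (Real.log w) + C) := by
  obtain ⟨K, hK⟩ := mer_rho (X : ℤ[X]) irreducible_X (by simp) z
  refine ⟨2 * |K| + 2, by positivity, fun w hw h3 => ?_⟩
  have h1 := hK w hw h3
  have e1 : ∑ p ∈ PS z w, (rho (X : ℤ[X]) p : ℝ) / p = ∑ p ∈ PS z w, 1 / (p : ℝ) :=
    sum_congr rfl fun p hp => by rw [rho_X (mem_PS.1 hp).2, Nat.cast_one]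
  rw [e1, abs_le] at h1
  have h2 := sum_PS_sq z w
  have h4 := le_abs_self K
  have h5 := abs_nonneg K
  refine ⟨?_, ?_, ?_⟩
  · have h6 : (1 / 2) * ∑ p ∈ PS z w, 1 / (p : ℝ) - ∑ p ∈ PS z w, 1 / (p : ℝ) ^ 2 ≤
        ∑ p ∈ PS z w, (((p - 1) / 2 : ℕ) : ℝ) / (p : ℝ) ^ 2 := by
      rw [mul_sum, ← sum_sub_distrib]
      refine sum_le_sum fun p hp => ?_
      have hp' := (mem_PS.1 hp).2
      have hp0 : (0 : ℝ) < p := by exact_mod_cast hp'.pos
      have h7 : (p : ℝ) / 2 - 1 ≤ (((p - 1) / 2 : ℕ) : ℝ) := by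
        have : p ≤ 2 * ((p - 1) / 2) + 2 := by omega
        have h8 : (p : ℝ) ≤ 2 * (((p - 1) / 2 : ℕ) : ℝ) + 2 := by exact_mod_cast this
        linarith
      have e2 : 1 / 2 * (1 / (p : ℝ)) - 1 / (p : ℝ) ^ 2 = ((p : ℝ) / 2 - 1) / (p : ℝ) ^ 2 := by
        field_simp
      rw [e2]
      exact div_le_div_of_nonneg_right h7 (by positivity)
    linarith [h1.1]
  · have h6 : ∑ p ∈ PS z w, (((p - 1) / 2 : ℕ) : ℝ) / (p : ℝ) ^ 2 ≤
        (1 / 2) * ∑ p ∈ PS z w, 1 / (p : ℝ) := by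
      rw [mul_sum]
      refine sum_le_sum fun p hp => ?_
      have hp' := (mem_PS.1 hp).2
      have hp0 : (0 : ℝ) < p := by exact_mod_cast hp'.pos
      have h7 : (((p - 1) / 2 : ℕ) : ℝ) ≤ (p : ℝ) / 2 := by
        have : 2 * ((p - 1) / 2) ≤ p := by omega
        have h8 : 2 * (((p - 1) / 2 : ℕ) : ℝ) ≤ p := by exact_mod_cast this
        linarith
      have e2 : 1 / 2 * (1 / (p : ℝ)) = ((p : ℝ) / 2) / (p : ℝ) ^ 2 := by
        field_simp
      rw [e2]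
      exact div_le_div_of_nonneg_right h7 (by positivity)
    linarith [h1.2]
  · have h6 : ∑ p ∈ PS z w, ((2 * p - 1 : ℕ) : ℝ) / (p : ℝ) ^ 2 ≤
        2 * ∑ p ∈ PS z w, 1 / (p : ℝ) := by
      rw [mul_sum]
      refine sum_le_sum fun p hp => ?_
      have hp' := (mem_PS.1 hp).2
      have hp0 : (0 : ℝ) < p := by exact_mod_cast hp'.pos
      have h7 : ((2 * p - 1 : ℕ) : ℝ) ≤ 2 * p := by
        have : 2 * p - 1 ≤ 2 * p := by omega
        exact_mod_cast this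
      have e2 : 2 * (1 / (p : ℝ)) = (2 * (p : ℝ)) / (p : ℝ) ^ 2 := by
        field_simp
      rw [e2]
      exact div_le_div_of_nonneg_right h7 (by positivity)
    linarith [h1.2]

lemma irr_sq_add_one : Irreducible (X ^ 2 + 1 : ℤ[X]) := by
  have h : (X ^ 2 + 1 : ℤ[X]) = cyclotomic 4 ℤ := by
    have h4 : (4 : ℕ) = 2 ^ (1 + 1) := by norm_num
    rw [h4, cyclotomic_prime_pow_eq_geom_sum Nat.prime_two]
    simp [sum_range_succ]
    ring
  rw [h]
  exact cyclotomic.irreducible (by norm_num)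

lemma rho_sq {p : ℕ} (hp : p.Prime) (h2 : 3 ≤ p) :
    rho (X ^ 2 + 1 : ℤ[X]) p = if p % 4 = 1 then 2 else 0 := by
  have : Fact p.Prime := ⟨hp⟩
  have h1 : rho (X ^ 2 + 1 : ℤ[X]) p = (univ.filter (fun x : ZMod p => x ^ 2 = -1)).card := by
    unfold rho
    apply card_bij (fun (x : ℕ) _ => (x : ZMod p))
    · intro x hx
      rw [mem_filter] at hx ⊢
      refine ⟨mem_univ _, ?_⟩
      have h3 := (ZMod.intCast_zmod_eq_zero_iff_dvd _ _).2 hx.2
      simp only [eval_add, eval_pow, eval_X, eval_one] at h3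
      push_cast at h3
      linear_combination h3
    · intro x hx y hy hxy
      rw [mem_filter, mem_range] at hx hy
      rw [ZMod.natCast_eq_natCast_iff'] at hxy
      rwa [Nat.mod_eq_of_lt hx.1, Nat.mod_eq_of_lt hy.1] at hxy
    · intro x hx
      rw [mem_filter] at hx
      refine ⟨x.val, ?_, ZMod.natCast_zmod_val x⟩
      rw [mem_filter, mem_range]
      refine ⟨ZMod.val_lt x, ?_⟩
      rw [← ZMod.intCast_zmod_eq_zero_iff_dvd]
      simp only [eval_add, eval_pow, eval_X, eval_one]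
      push_cast
      rw [ZMod.natCast_zmod_val, hx.2]
      ring
  rw [h1]
  split_ifs with h4
  · obtain ⟨i, hi⟩ : IsSquare (-1 : ZMod p) := ZMod.exists_sq_eq_neg_one_iff.2 (by omega)
    have hi2 : i ^ 2 = -1 := by rw [hi]; ring
    have hi0 : i ≠ 0 := by
      rintro rfl
      have : (-1 : ZMod p) = 0 := by rw [← hi2]; ring
      exact one_ne_zero (neg_eq_zero.1 this)
    have hne : i ≠ -i := by
      intro h
      have h5 : (2 : ZMod p) * i = 0 := by linear_combination h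
      rcases mul_eq_zero.1 h5 with h6 | h6
      · have h7 : ((2 : ℕ) : ZMod p) = 0 := by exact_mod_cast h6
        rw [ZMod.natCast_eq_zero_iff] at h7
        have := Nat.le_of_dvd two_pos h7
        omega
      · exact hi0 h6
    have h5 : univ.filter (fun x : ZMod p => x ^ 2 = -1) = {i, -i} := by
      ext x
      simp only [mem_filter, mem_univ, true_and, mem_insert, mem_singleton]
      rw [← hi2]
      constructor
      · intro h
        exact sq_eq_sq_iff_eq_or_eq_neg.1 h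
      · rintro (rfl | rfl)
        · rfl
        · ring
    rw [h5, card_pair hne]
  · rw [card_eq_zero]
    refine filter_false_of_mem fun x _ h => ?_
    have h5 : IsSquare (-1 : ZMod p) := ⟨x, by rw [← h]; ring⟩
    have h6 := ZMod.exists_sq_eq_neg_one_iff.1 h5
    have h7 := hp.eq_two_or_odd
    omega

/-- the sums for the curves with torsion `Z/2 x Z/4` -/
lemma mer_four (z : ℕ) (hz : 2 ≤ z) : ∃ C : ℝ, 0 ≤ C ∧ ∀ w : ℕ, z < w → 3 ≤ w →
    (1 * Real.log (Real.log w) - C ≤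
      ∑ p ∈ PS z w, ((if p % 4 = 1 then 2 * (p - 1) else 0 : ℕ) : ℝ) / (p : ℝ) ^ 2) ∧
    (∑ p ∈ PS z w, ((if p % 4 = 1 then 2 * (p - 1) else 0 : ℕ) : ℝ) / (p : ℝ) ^ 2 ≤
      1 * Real.log (Real.log w) + C) := by
  obtain ⟨K, hK⟩ := mer_rho (X ^ 2 + 1 : ℤ[X]) irr_sq_add_one (by
    have : (X ^ 2 + 1 : ℤ[X]).natDegree = 2 := by compute_degree!
    omega) z
  refine ⟨|K| + 4, by positivity, fun w hw h3 => ?_⟩
  have h1 := hK w hw h3
  have h2 := sum_PS_sq z w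
  have h4 := le_abs_self K
  have h5 := abs_nonneg K
  rw [abs_le] at h1
  have hterm : ∀ p ∈ PS z w, (rho (X ^ 2 + 1 : ℤ[X]) p : ℝ) / p - 2 * (1 / (p : ℝ) ^ 2) ≤
      ((if p % 4 = 1 then 2 * (p - 1) else 0 : ℕ) : ℝ) / (p : ℝ) ^ 2 ∧
      ((if p % 4 = 1 then 2 * (p - 1) else 0 : ℕ) : ℝ) / (p : ℝ) ^ 2 ≤
      (rho (X ^ 2 + 1 : ℤ[X]) p : ℝ) / p := by
    intro p hp
    have hp' := mem_PS.1 hp
    have hp0 : (0 : ℝ) < p := by exact_mod_cast hp'.2.pos
    rw [rho_sq hp'.2 (by omega)]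
    split_ifs with h
    · have h6 : ((2 * (p - 1) : ℕ) : ℝ) = 2 * p - 2 := by
        push_cast [Nat.cast_sub hp'.2.one_lt.le]
        ring
      rw [h6]
      constructor
      · apply le_of_eq
        push_cast
        field_simp
      · rw [div_le_div_iff₀ (by positivity) hp0]
        push_cast
        nlinarith
    · simp
  have k1 := sum_le_sum fun p hp => (hterm p hp).1
  have k2 := sum_le_sum fun p hp => (hterm p hp).2
  rw [sum_sub_distrib, ← mul_sum] at k1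
  constructor
  · linarith [h1.1]
  · linarith [h1.2]

end Pool.Agent.N870.EC
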