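import Mathlib
import Pool.Agent.N870.EC.En1b

/-!
# Project EC: the lower bound for pairs of integers in a box

Seat helper870.
-/

set_option autoImplicit false

namespace Pool.Agent.N870.EC

open Finset Filter Pool.Agent.W262.RK

open scoped Classical

/-- the pairs, coded by integers -/
noncomputable def Ip (T : Finset (ℕ × ℕ)) : Finset ℕ := T.image (fun t => Nat.pair t.1 t.2)

lemma mem_Ip {T : Finset (ℕ × ℕ)} {i : ℕ} : i ∈ Ip T ↔ i.unpair ∈ T := by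
  unfold Ip
  rw [mem_image]
  constructor
  · rintro ⟨t, ht, rfl⟩
    rw [Nat.unpair_pair]
    exact ht
  · intro h
    exact ⟨i.unpair, h, Nat.pair_unpair i⟩

lemma pair_inj (T : Set (ℕ × ℕ)) : Set.InjOn (fun t : ℕ × ℕ => Nat.pair t.1 t.2) T := by
  intro a _ b _ h
  have := congrArg Nat.unpair h
  simp only [Nat.unpair_pair] at this
  exact this

lemma card_Ip (T : Finset (ℕ × ℕ)) : (Ip T).card = T.card :=
  card_image_of_injOn (pair_inj _)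

lemma sum_Ip (T : Finset (ℕ × ℕ)) (F : ℕ → ℕ → ℝ) :
    ∑ i ∈ Ip T, F i.unpair.1 i.unpair.2 = ∑ t ∈ T, F t.1 t.2 := by
  unfold Ip
  rw [sum_image (pair_inj _)]
  refine sum_congr rfl fun t _ => ?_
  rw [Nat.unpair_pair]

lemma filter_Ip (T : Finset (ℕ × ℕ)) (Q : ℕ → ℕ → Prop) :
    (Ip T).filter (fun i => Q i.unpair.1 i.unpair.2) = Ip (T.filter (fun t => Q t.1 t.2)) := by
  ext i
  rw [mem_filter, mem_Ip, mem_Ip, mem_filter]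

lemma sdiff_Ip (T U : Finset (ℕ × ℕ)) : Ip T \ Ip U = Ip (T \ U) := by
  ext i
  rw [Finset.mem_sdiff, mem_Ip, mem_Ip, mem_Ip, Finset.mem_sdiff]

/-- the number of the pairs of residues -/
noncomputable def cnt (Z : ℕ → ℕ → Prop) (p : ℕ) : ℕ :=
  ((range p ×ˢ range p).filter (fun t : ℕ × ℕ => Z t.1 t.2)).card

/-- periodicity modulo `p` -/
def Per (Z : ℕ → ℕ → Prop) (p : ℕ) : Prop :=
  ∀ a b a' b' : ℕ, a ≡ a' [MOD p] → b ≡ b' [MOD p] → (Z a b ↔ Z a' b')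

/-- the counting hypothesis of the abstract theorem -/
lemma count_two (hc : S_CNT2) (G B H : ℕ → ℕ → ℕ → Prop) {X L : ℕ} {z y : ℕ}
    (hper : ∀ p ∈ PS z y, Per (G p) p ∧ Per (B p) p ∧ Per (H p) p) (h3 : 3 * L ≤ X) (hL0 : 1 ≤ L)
    (D Q1 Q2 : Finset ℕ)
    (hD : D ⊆ PS z y) (hQ1 : Q1 ⊆ PS z y) (hQ2 : Q2 ⊆ PS z y) (h1 : Disjoint D Q1)
    (h2 : Disjoint D Q2) (h12 : Disjoint Q1 Q2)
    (hL : (∏ p ∈ D, p) * ((∏ p ∈ Q1, p) * ∏ p ∈ Q2, p) ≤ L) :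
    |(((Icc 1 X ×ˢ Icc 1 X).filter (fun t : ℕ × ℕ => (∀ p ∈ D, G p t.1 t.2) ∧
      (∀ p ∈ Q1, B p t.1 t.2) ∧ ∀ p ∈ Q2, H p t.1 t.2)).card : ℝ) -
      (X : ℝ) ^ 2 * ((∏ p ∈ D, (cnt (G p) p : ℝ) / (p : ℝ) ^ 2) *
        ((∏ p ∈ Q1, (cnt (B p) p : ℝ) / (p : ℝ) ^ 2) *
          ∏ p ∈ Q2, (cnt (H p) p : ℝ) / (p : ℝ) ^ 2))| ≤
      ((((∏ p ∈ D, p) * ((∏ p ∈ Q1, p) * ∏ p ∈ Q2, p) : ℕ) : ℝ)) ^ 2 * ((X : ℝ) ^ 2 / L) := by
  obtain ⟨Z, hZ⟩ : ∃ Z : ℕ → ℕ → ℕ → Prop, Z = fun p => if p ∈ D then G p else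
    if p ∈ Q1 then B p else H p := ⟨_, rfl⟩
  have hZD : ∀ p ∈ D, Z p = G p := fun p hp => by rw [hZ]; exact if_pos hp
  have hZ1 : ∀ p ∈ Q1, Z p = B p := fun p hp => by
    rw [hZ]
    have : p ∉ D := fun h => (disjoint_left.1 h1) h hp
    simp only [if_neg this, if_pos hp]
  have hZ2 : ∀ p ∈ Q2, Z p = H p := fun p hp => by
    rw [hZ]
    have k1 : p ∉ D := fun h => (disjoint_left.1 h2) h hp
    have k2 : p ∉ Q1 := fun h => (disjoint_left.1 h12) h hp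
    simp only [if_neg k1, if_neg k2]
  have hdd : Disjoint (D ∪ Q1) Q2 := by
    rw [disjoint_union_left]
    exact ⟨h2, h12⟩
  have hprod : ∀ F : ℕ → ℝ, ∏ p ∈ (D ∪ Q1) ∪ Q2, F p =
      (∏ p ∈ D, F p) * ((∏ p ∈ Q1, F p) * ∏ p ∈ Q2, F p) := by
    intro F
    rw [prod_union hdd, prod_union h1, mul_assoc]
  have hprodN : ∏ p ∈ (D ∪ Q1) ∪ Q2, p = (∏ p ∈ D, p) * ((∏ p ∈ Q1, p) * ∏ p ∈ Q2, p) := by
    rw [prod_union hdd, prod_union h1, mul_assoc]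
  have hsub : (D ∪ Q1) ∪ Q2 ⊆ PS z y := union_subset (union_subset hD hQ1) hQ2
  have h := hc X ((D ∪ Q1) ∪ Q2) Z (fun p hp => (mem_PS.1 (hsub hp)).2) (by
    intro p hp
    have hq := hper p (hsub hp)
    rcases mem_union.1 hp with hp | hp
    · rcases mem_union.1 hp with hp | hp
      · rw [hZD p hp]; exact hq.1
      · rw [hZ1 p hp]; exact hq.2.1
    · rw [hZ2 p hp]; exact hq.2.2) (by rw [hprodN]; omega)
  have e0 : ∀ p, (((range p ×ˢ range p).filter (fun t : ℕ × ℕ => Z p t.1 t.2)).card : ℝ) =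
      (cnt (Z p) p : ℝ) := fun p => rfl
  simp only [e0] at h
  rw [hprod, hprod] at h
  have e1 : ∏ p ∈ D, (cnt (Z p) p : ℝ) / (p : ℝ) ^ 2 = ∏ p ∈ D, (cnt (G p) p : ℝ) / (p : ℝ) ^ 2 :=
    prod_congr rfl fun p hp => by rw [hZD p hp]
  have e2 : ∏ p ∈ Q1, (cnt (Z p) p : ℝ) / (p : ℝ) ^ 2 = ∏ p ∈ Q1, (cnt (B p) p : ℝ) / (p : ℝ) ^ 2 :=
    prod_congr rfl fun p hp => by rw [hZ1 p hp]
  have e3 : ∏ p ∈ Q2, (cnt (Z p) p : ℝ) / (p : ℝ) ^ 2 = ∏ p ∈ Q2, (cnt (H p) p : ℝ) / (p : ℝ) ^ 2 :=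
    prod_congr rfl fun p hp => by rw [hZ2 p hp]
  rw [e1, e2, e3] at h
  have e4 : ((Icc 1 X ×ˢ Icc 1 X).filter (fun t : ℕ × ℕ => ∀ p ∈ (D ∪ Q1) ∪ Q2, Z p t.1 t.2)).card =
      ((Icc 1 X ×ˢ Icc 1 X).filter (fun t : ℕ × ℕ => (∀ p ∈ D, G p t.1 t.2) ∧
      (∀ p ∈ Q1, B p t.1 t.2) ∧ ∀ p ∈ Q2, H p t.1 t.2)).card := by
    congr 1
    apply filter_congr
    intro t _
    constructor
    · intro hh
      refine ⟨fun p hp => ?_, fun p hp => ?_, fun p hp => ?_⟩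
      · rw [← hZD p hp]
        exact hh p (mem_union_left _ (mem_union_left _ hp))
      · rw [← hZ1 p hp]
        exact hh p (mem_union_left _ (mem_union_right _ hp))
      · rw [← hZ2 p hp]
        exact hh p (mem_union_right _ hp)
    · rintro ⟨k1, k2, k3⟩ p hp
      rcases mem_union.1 hp with hp | hp
      · rcases mem_union.1 hp with hp | hp
        · rw [hZD p hp]; exact k1 p hp
        · rw [hZ1 p hp]; exact k2 p hp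
      · rw [hZ2 p hp]; exact k3 p hp
  rw [e4] at h
  refine h.trans ?_
  have hposD : ∀ S : Finset ℕ, S ⊆ PS z y → 0 < ∏ p ∈ S, p := fun S hS =>
    prod_pos fun p hp => (mem_PS.1 (hS hp)).2.pos
  obtain ⟨d, hd⟩ : ∃ d : ℕ, d = (∏ p ∈ D, p) * ((∏ p ∈ Q1, p) * ∏ p ∈ Q2, p) := ⟨_, rfl⟩
  have hd1 : 1 ≤ d := by
    rw [hd]
    exact Nat.mul_pos (hposD D hD) (Nat.mul_pos (hposD Q1 hQ1) (hposD Q2 hQ2))
  have e5 : (∏ p ∈ D, (p : ℝ)) * ((∏ p ∈ Q1, (p : ℝ)) * ∏ p ∈ Q2, (p : ℝ)) = (d : ℝ) := by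
    rw [hd]
    push_cast
    ring
  rw [e5, ← hd]
  have hdr : (1 : ℝ) ≤ d := by exact_mod_cast hd1
  have hLr : (0 : ℝ) < L := by exact_mod_cast hL0
  have hX : 3 * (L : ℝ) ≤ X := by exact_mod_cast h3
  have hX0 : (0 : ℝ) ≤ X := Nat.cast_nonneg _
  have k1 : 3 * (X : ℝ) ≤ (X : ℝ) ^ 2 / L := by
    rw [le_div_iff₀ hLr]
    nlinarith
  have k2 : (d : ℝ) ≤ (d : ℝ) ^ 2 := by nlinarith
  calc 3 * (d : ℝ) * X = d * (3 * X) := by ring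
    _ ≤ (d : ℝ) ^ 2 * ((X : ℝ) ^ 2 / L) := mul_le_mul k2 k1 (by positivity) (by positivity)

/-- **the lower bound for pairs in a box** -/
theorem en2 (hc : S_CNT2) (c : ℕ) (s gg bb ε : ℝ) (hs : 0 < s) (hgg : 0 ≤ gg) (hbb : 0 ≤ bb)
    (hε : 0 < ε) :
    ∃ (δ : ℝ) (z0 : ℕ), 0 < δ ∧ δ ≤ 1 / 8 ∧ ∀ z : ℕ, z0 ≤ z → ∀ C K' : ℝ, ∃ L0 : ℕ,
    ∀ L : ℕ, L0 ≤ L → ∀ y : ℕ, y = ⌊(L : ℝ) ^ δ⌋₊ →
    z + 3 ≤ y ∧ ∃ P1 : Finset ℕ, P1 ⊆ PS z y ∧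
    ∀ (X : ℕ) (G B H : ℕ → ℕ → ℕ → Prop), 3 * L ≤ X →
    (∀ p ∈ PS z y, Per (G p) p ∧ Per (B p) p ∧ Per (H p) p) →
    (∀ p ∈ PS z y, cnt (G p) p ≤ c * p ∧ cnt (B p) p ≤ c * p ∧ cnt (H p) p ≤ c) →
    (∀ p ∈ PS z y, ∀ u v : ℕ, (G p u v → ¬ B p u v) ∧ (H p u v → B p u v)) →
    (∀ w : ℕ, z < w → w ≤ y → gg * Real.log (Real.log w) - C ≤
      ∑ p ∈ PS z w, (cnt (G p) p : ℝ) / (p : ℝ) ^ 2 ∧
      ∑ p ∈ PS z w, (cnt (G p) p : ℝ) / (p : ℝ) ^ 2 ≤ c * Real.log (Real.log w) + C) →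
    (∑ p ∈ PS z y, (cnt (B p) p : ℝ) / (p : ℝ) ^ 2 ≤ bb * Real.log (Real.log y) + C) →
    ∀ T ⊆ Icc 1 X ×ˢ Icc 1 X, (((Icc 1 X ×ˢ Icc 1 X) \ T).card : ℝ) ≤
      K' * (X : ℝ) ^ 2 * (L : ℝ) ^ (-(δ / 2)) →
    (X : ℝ) ^ 2 * (Real.log L) ^ ((2 ^ s - 1) * gg - (1 - 2 ^ (-s)) * bb - ε) ≤
      ∑ t ∈ T, (2 : ℝ) ^ (s * ((P1.filter (fun p => G p t.1 t.2)).card : ℝ)) *
        fac (1 - 2 ^ (-s)) (PS z y) (fun p => B p t.1 t.2) (fun p => H p t.1 t.2) := by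
  obtain ⟨δ, z0, hδ0, hδ8, habs⟩ := abs2 c s gg bb ε hs hgg hbb hε
  refine ⟨δ, z0, hδ0, hδ8, fun z hz C K' => ?_⟩
  obtain ⟨L0, hL0⟩ := habs z hz C K'
  refine ⟨L0 + 1, fun L hL y hy => ?_⟩
  obtain ⟨hzy, P1, hP1, h⟩ := hL0 L (by omega) y hy
  refine ⟨hzy, P1, hP1, fun X G B H h3 hper hcnt hgb hmg hmb T hT hcard => ?_⟩
  have hk := h ((X : ℝ) ^ 2) (Ip (Icc 1 X ×ˢ Icc 1 X)) (fun p i => G p i.unpair.1 i.unpair.2)
    (fun p i => B p i.unpair.1 i.unpair.2) (fun p i => H p i.unpair.1 i.unpair.2)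
    (fun p => (cnt (G p) p : ℝ) / (p : ℝ) ^ 2) (fun p => (cnt (B p) p : ℝ) / (p : ℝ) ^ 2)
    (fun p => (cnt (H p) p : ℝ) / (p : ℝ) ^ 2) (by positivity)
    (by
      intro p hp
      obtain ⟨k1, k2, k3⟩ := hcnt p hp
      have hp0 : (0 : ℝ) < p := by exact_mod_cast (mem_PS.1 hp).2.pos
      have q1 : (cnt (G p) p : ℝ) ≤ c * p := by exact_mod_cast k1
      have q2 : (cnt (B p) p : ℝ) ≤ c * p := by exact_mod_cast k2
      have q3 : (cnt (H p) p : ℝ) ≤ c := by exact_mod_cast k3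
      have e : ((c : ℝ) * p) / (p : ℝ) ^ 2 = c / p := by
        field_simp
      refine ⟨by positivity, ?_, by positivity, ?_, by positivity,
        div_le_div_of_nonneg_right q3 (by positivity)⟩
      · rw [← e]
        exact div_le_div_of_nonneg_right q1 (by positivity)
      · rw [← e]
        exact div_le_div_of_nonneg_right q2 (by positivity))
    (by
      intro p hp i _
      exact hgb p hp _ _)
    (by
      intro D hD Q1 hQ1 Q2 hQ2 h1 h2 h12 hL'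
      have k1 := count_two hc G B H hper h3 (by omega) D Q1 Q2 hD hQ1 hQ2 h1 h2 h12 hL'
      have k2 : ((Ip (Icc 1 X ×ˢ Icc 1 X)).filter (fun i => (∀ p ∈ D, G p i.unpair.1 i.unpair.2) ∧
          (∀ p ∈ Q1, B p i.unpair.1 i.unpair.2) ∧ ∀ p ∈ Q2, H p i.unpair.1 i.unpair.2)).card =
          ((Icc 1 X ×ˢ Icc 1 X).filter (fun t : ℕ × ℕ => (∀ p ∈ D, G p t.1 t.2) ∧
            (∀ p ∈ Q1, B p t.1 t.2) ∧ ∀ p ∈ Q2, H p t.1 t.2)).card := by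
        have k3 := filter_Ip (Icc 1 X ×ˢ Icc 1 X) (fun u v => (∀ p ∈ D, G p u v) ∧
          (∀ p ∈ Q1, B p u v) ∧ ∀ p ∈ Q2, H p u v)
        have k4 := congrArg Finset.card k3
        rw [card_Ip] at k4
        refine Eq.trans ?_ (k4.trans ?_)
        · congr!
        · congr!
      refine le_of_eq_of_le ?_ k1
      rw [← k2])
    hmg hmb (Ip T) (by
      intro i hi
      rw [mem_Ip] at hi ⊢
      exact hT hi)
    (by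
      rw [sdiff_Ip, card_Ip]
      exact hcard)
  refine hk.trans (le_of_eq ?_)
  exact sum_Ip T (fun u v => (2 : ℝ) ^ (s * ((P1.filter (fun p => G p u v)).card : ℝ)) *
        fac (1 - 2 ^ (-s)) (PS z y) (fun p => B p u v) (fun p => H p u v))

end Pool.Agent.N870.EC
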