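import Mathlib
import Pool.Agent.N870.EC.Two
import Pool.Agent.N870.EC.Mer

/-!
# Project EC: the lower bound for the moments over coprime pairs

Seat helper870.
-/

set_option autoImplicit false

namespace Pool.Agent.N870.EC

open Finset Filter Pool.Agent.W262.RK

open scoped Classical

open Pool.Agent.W307.SE (Loc Sel SN SN_nonneg sel_fin)
open Pool.Agent.N870.SQ (card_big)

/-- residues of an arithmetic progression -/
lemma card_ap (p m X : ℕ) (hp : p.Prime) (hm : ¬ p ∣ m) :
    ((Icc 1 X).filter (fun u : ℕ => p ∣ 1 + m * u)).card ≤ X / p + 1 := by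
  rw [← card_range (X / p + 1)]
  apply card_le_card_of_injOn (fun u => u / p)
  · intro u hu
    rw [mem_coe, mem_filter, mem_Icc] at hu
    rw [mem_coe, mem_range]
    exact Nat.lt_succ_of_le (Nat.div_le_div_right hu.1.2)
  · intro u hu v hv huv
    rw [mem_coe, mem_filter] at hu hv
    have h1 : u ≡ v [MOD p] := by
      have h2 : 1 + m * u ≡ 1 + m * v [MOD p] :=
        ((Nat.modEq_zero_iff_dvd).2 hu.2).trans ((Nat.modEq_zero_iff_dvd).2 hv.2).symm
      have h3 : m * u ≡ m * v [MOD p] := Nat.ModEq.add_left_cancel' 1 h2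
      exact Nat.ModEq.cancel_left_of_coprime ((Nat.Prime.coprime_iff_not_dvd hp).2 hm) h3
    have h4 := Nat.div_add_mod u p
    have h5 := Nat.div_add_mod v p
    have h6 : u / p = v / p := huv
    have h7 : u % p = v % p := h1
    rw [← h4, ← h5, h6, h7]

lemma card_mult (p X : ℕ) (hp : p.Prime) :
    ((Icc 1 X).filter (fun v : ℕ => p ∣ v)).card ≤ X / p := by
  have h : (Icc 1 (X / p)).card = X / p := by rw [Nat.card_Icc, Nat.add_sub_cancel]
  rw [← h]
  apply card_le_card_of_injOn (fun u => u / p)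
  · intro u hu
    rw [mem_coe, mem_filter, mem_Icc] at hu
    rw [mem_coe, mem_Icc]
    exact ⟨Nat.div_pos (Nat.le_of_dvd hu.1.1 hu.2) hp.pos, Nat.div_le_div_right hu.1.2⟩
  · intro u hu v hv huv
    rw [mem_coe, mem_filter] at hu hv
    have h6 : u / p = v / p := huv
    rw [← Nat.div_mul_cancel hu.2, ← Nat.div_mul_cancel hv.2, h6]

/-- the pairs with a large common prime factor -/
lemma card_bad (m X y : ℕ) (hy : 1 ≤ y) (hm : ∀ p : ℕ, p.Prime → y < p → ¬ p ∣ m) :
    (((Icc 1 X ×ˢ Icc 1 X).filter (fun t : ℕ × ℕ => ¬ (1 + m * t.1 ≠ t.2 ∧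
      ∀ p : ℕ, p.Prime → y < p → ¬ (p ∣ 1 + m * t.1 ∧ p ∣ t.2)))).card : ℝ) ≤
      X + 2 * (X : ℝ) ^ 2 / y := by
  have h1 : (Icc 1 X ×ˢ Icc 1 X).filter (fun t : ℕ × ℕ => ¬ (1 + m * t.1 ≠ t.2 ∧
      ∀ p : ℕ, p.Prime → y < p → ¬ (p ∣ 1 + m * t.1 ∧ p ∣ t.2))) ⊆
      (Icc 1 X).image (fun u => (u, 1 + m * u)) ∪ (PS y X).biUnion (fun p =>
        ((Icc 1 X).filter (fun u : ℕ => p ∣ 1 + m * u)) ×ˢ
          ((Icc 1 X).filter (fun v : ℕ => p ∣ v))) := by
    intro t ht
    rw [mem_filter, mem_product] at ht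
    obtain ⟨⟨h2, h3⟩, h4⟩ := ht
    rw [mem_union]
    by_cases h5 : 1 + m * t.1 = t.2
    · left
      rw [mem_image]
      exact ⟨t.1, h2, by rw [h5]⟩
    · right
      have h6 : ∃ p : ℕ, p.Prime ∧ y < p ∧ (p ∣ 1 + m * t.1 ∧ p ∣ t.2) := by
        by_contra hno
        push Not at hno
        exact h4 ⟨h5, fun p hp hyp hh => hno p hp hyp hh.1 hh.2⟩
      obtain ⟨p, hp, hyp, h7, h8⟩ := h6
      rw [mem_biUnion]
      refine ⟨p, ?_, ?_⟩
      · rw [mem_PS]
        rw [mem_Icc] at h3
        exact ⟨⟨hyp, (Nat.le_of_dvd h3.1 h8).trans h3.2⟩, hp⟩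
      · rw [mem_product, mem_filter, mem_filter]
        exact ⟨⟨h2, h7⟩, ⟨h3, h8⟩⟩
  have hX0 : (0 : ℝ) ≤ X := Nat.cast_nonneg _
  have hy0 : (0 : ℝ) < y := by exact_mod_cast hy
  have h2 : (((PS y X).biUnion (fun p => ((Icc 1 X).filter (fun u : ℕ => p ∣ 1 + m * u)) ×ˢ
      ((Icc 1 X).filter (fun v : ℕ => p ∣ v)))).card : ℝ) ≤ 2 * (X : ℝ) ^ 2 / y := by
    calc (((PS y X).biUnion (fun p => ((Icc 1 X).filter (fun u : ℕ => p ∣ 1 + m * u)) ×ˢ
          ((Icc 1 X).filter (fun v : ℕ => p ∣ v)))).card : ℝ)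
        ≤ ∑ p ∈ PS y X, ((((Icc 1 X).filter (fun u : ℕ => p ∣ 1 + m * u)) ×ˢ
          ((Icc 1 X).filter (fun v : ℕ => p ∣ v))).card : ℝ) := by
          exact_mod_cast card_biUnion_le
      _ ≤ ∑ p ∈ PS y X, 2 * (X : ℝ) ^ 2 * (1 / (p : ℝ) ^ 2) := by
          refine sum_le_sum fun p hp => ?_
          have hp' := mem_PS.1 hp
          have hp0 : (0 : ℝ) < p := by exact_mod_cast hp'.2.pos
          rw [card_product]
          have k1 := card_ap p m X hp'.2 (hm p hp'.2 hp'.1.1)
          have k2 := card_mult p X hp'.2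
          have k3 : ((X / p : ℕ) : ℝ) ≤ X / p := Nat.cast_div_le
          have k4 : (1 : ℝ) ≤ X / p := by
            rw [le_div_iff₀ hp0, one_mul]
            exact_mod_cast hp'.1.2
          have k5 : ((((Icc 1 X).filter (fun u : ℕ => p ∣ 1 + m * u)).card : ℕ) : ℝ) ≤
              2 * (X / p) := by
            have : ((((Icc 1 X).filter (fun u : ℕ => p ∣ 1 + m * u)).card : ℕ) : ℝ) ≤
              ((X / p : ℕ) : ℝ) + 1 := by exact_mod_cast k1
            linarith
          have k6 : ((((Icc 1 X).filter (fun v : ℕ => p ∣ v)).card : ℕ) : ℝ) ≤ X / p :=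
            le_trans (by exact_mod_cast k2) k3
          push_cast
          calc ((((Icc 1 X).filter (fun u : ℕ => p ∣ 1 + m * u)).card : ℕ) : ℝ) *
              ((((Icc 1 X).filter (fun v : ℕ => p ∣ v)).card : ℕ) : ℝ)
              ≤ (2 * (X / p)) * (X / p) := mul_le_mul k5 k6 (Nat.cast_nonneg _) (by positivity)
            _ = 2 * (X : ℝ) ^ 2 * (1 / (p : ℝ) ^ 2) := by
                field_simp
      _ ≤ 2 * (X : ℝ) ^ 2 * (1 / y) := by
          rw [← mul_sum]
          refine mul_le_mul_of_nonneg_left ?_ (by positivity)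
          have h6 : PS y X ⊆ Ioc y X := by
            intro p hp
            have h1 := mem_PS.1 hp
            rw [mem_Ioc]
            exact h1.1
          refine (sum_le_sum_of_subset_of_nonneg h6 fun p _ _ => by positivity).trans ?_
          rcases Nat.lt_or_ge X y with hXy | hXy
          · rw [Ioc_eq_empty_of_le hXy.le, sum_empty]
            positivity
          · have h7 : ∀ n : ℕ, y ≤ n → ∑ p ∈ Ioc y n, 1 / (p : ℝ) ^ 2 ≤ 1 / y - 1 / (n : ℝ) := by
              intro n hn
              induction n, hn using Nat.le_induction with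
              | base => simp
              | succ n hn ih =>
                have h8 : Ioc y (n + 1) = insert (n + 1) (Ioc y n) := by
                  ext x
                  rw [mem_insert, mem_Ioc, mem_Ioc]
                  omega
                rw [h8, sum_insert (by rw [mem_Ioc]; omega)]
                have hn0 : (0 : ℝ) < n := by exact_mod_cast (by omega : 0 < n)
                have h9 : 1 / (((n + 1 : ℕ) : ℝ)) ^ 2 ≤ 1 / (n : ℝ) - 1 / ((n + 1 : ℕ) : ℝ) := by
                  push_cast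
                  rw [div_sub_div _ _ hn0.ne' (by positivity), div_le_div_iff₀ (by positivity)
                    (by positivity)]
                  nlinarith
                linarith
            have h8 := h7 X hXy
            have h9 : (0 : ℝ) ≤ 1 / X := by positivity
            linarith
      _ = _ := by ring
  calc _ ≤ (((Icc 1 X).image (fun u => (u, 1 + m * u)) ∪ (PS y X).biUnion (fun p =>
        ((Icc 1 X).filter (fun u : ℕ => p ∣ 1 + m * u)) ×ˢ
          ((Icc 1 X).filter (fun v : ℕ => p ∣ v)))).card : ℝ) := by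
        exact_mod_cast card_le_card h1
    _ ≤ ((((Icc 1 X).image (fun u => (u, 1 + m * u))).card + ((PS y X).biUnion (fun p =>
        ((Icc 1 X).filter (fun u : ℕ => p ∣ 1 + m * u)) ×ˢ
          ((Icc 1 X).filter (fun v : ℕ => p ∣ v)))).card : ℕ) : ℝ) := by
        exact_mod_cast card_union_le _ _
    _ ≤ X + 2 * (X : ℝ) ^ 2 / y := by
        push_cast
        refine add_le_add ?_ h2
        have := card_image_le (s := Icc 1 X) (f := fun u => (u, 1 + m * u))
        rw [Nat.card_Icc, Nat.add_sub_cancel] at this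
        exact_mod_cast this

end Pool.Agent.N870.EC
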