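import Mathlib
import Pool.Agent.N870.EC.Two2

/-!
# Project EC: the lower bound for the moments over coprime pairs, the general theorem

Seat helper870.
-/

set_option autoImplicit false

namespace Pool.Agent.N870.EC

open Finset Filter Pool.Agent.W262.RK

open scoped Classical

open Pool.Agent.W307.SE (Loc Sel SN SN_nonneg sel_fin)
open Pool.Agent.N870.SQ (card_big)

lemma fac_congr_H (θ : ℝ) (P : Finset ℕ) (B H : ℕ → Prop) (h : ∀ p ∈ P, ¬ H p) :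
    fac θ P B H = fac θ P B (fun _ => False) := by
  unfold fac
  refine prod_congr rfl fun p hp => ?_
  rw [if_neg (h p hp), if_neg (fun h : False => h)]

lemma fac_zero (θ : ℝ) (P : Finset ℕ) (B H : ℕ → Prop) {p : ℕ} (hp : p ∈ P) (hB : B p) (hH : H p) :
    fac θ P B H = 0 := by
  unfold fac
  refine prod_eq_zero hp ?_
  rw [if_pos hB, if_pos hH]
  ring

/-- comparison of the powers of the logarithms -/
lemma log_cmp (e : ℝ) {X L : ℝ} (hL : 1 < Real.log L) (h1 : Real.log L ≤ Real.log X)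
    (h2 : Real.log X ≤ 2 * Real.log L) :
    (Real.log X) ^ e ≤ 2 ^ |e| * (Real.log L) ^ e := by
  have hL0 : 0 < Real.log L := by linarith
  rcases le_or_gt 0 e with h | h
  · rw [abs_of_nonneg h, ← Real.mul_rpow (by norm_num) hL0.le]
    exact Real.rpow_le_rpow (by linarith) h2 h
  · calc (Real.log X) ^ e ≤ (Real.log L) ^ e :=
          Real.rpow_le_rpow_of_nonpos hL0 h1 h.le
      _ = 1 * (Real.log L) ^ e := (one_mul _).symm
      _ ≤ 2 ^ |e| * (Real.log L) ^ e := by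
          refine mul_le_mul_of_nonneg_right ?_ (by positivity)
          exact Real.one_le_rpow (by norm_num) (abs_nonneg _)

/-- **the lower bound over coprime pairs** -/
theorem low_gen (hc : S_CNT2) (P Q : ℕ → ℕ → ℤ) (cg : ℕ → ℕ) (gg : ℝ) (hgg : 0 ≤ gg)
    (hgg2 : gg ≤ 2)
    (hPQ : ∀ a b : ℕ, 1 ≤ a → 1 ≤ b → a ≠ b → P a b ≠ 0 ∧ Q a b ≠ 0 ∧ P a b ≠ Q a b)
    (hpr : ∀ p a b : ℕ, p.Prime → 5 ≤ p → ((p : ℤ) ∣ P a b * Q a b ↔ (p ∣ a ∨ p ∣ b)))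
    (hcong : ∀ p a b a' b' : ℕ, a ≡ a' [MOD p] → b ≡ b' [MOD p] →
      (P a b ≡ P a' b' [ZMOD p]) ∧ (Q a b ≡ Q a' b' [ZMOD p]))
    (hcg : ∀ p m : ℕ, p.Prime → 5 ≤ p → ¬ p ∣ m → cnt (fun u v =>
      (p : ℤ) ∣ P (1 + m * u) v - Q (1 + m * u) v ∧ jacobiSym (P (1 + m * u) v) p = 1) p = cg p)
    (hcg2 : ∀ p, cg p ≤ 2 * p)
    (hcb : ∀ p m : ℕ, p.Prime → 5 ≤ p → ¬ p ∣ m → cnt (fun u v => p ∣ (1 + m * u) ∨ p ∣ v) p =
      2 * p - 1)
    (hch : ∀ p m : ℕ, p.Prime → 5 ≤ p → ¬ p ∣ m → cnt (fun u v => p ∣ (1 + m * u) ∧ p ∣ v) p = 1)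
    (hmg : ∀ z : ℕ, 2 ≤ z → ∃ C : ℝ, 0 ≤ C ∧ ∀ w : ℕ, z < w → 3 ≤ w →
      gg * Real.log (Real.log w) - C ≤ ∑ p ∈ PS z w, (cg p : ℝ) / (p : ℝ) ^ 2 ∧
      ∑ p ∈ PS z w, (cg p : ℝ) / (p : ℝ) ^ 2 ≤ gg * Real.log (Real.log w) + C)
    (s ε : ℝ) (hs : 0 < s) (hε : 0 < ε) :
    ∃ m X0 : ℕ, 1 ≤ m ∧ ∀ X : ℕ, X0 ≤ X → ∃ T ⊆ Icc 1 X ×ˢ Icc 1 X,
      (∀ t ∈ T, (1 + m * t.1).Coprime t.2 ∧ 1 + m * t.1 ≠ t.2) ∧
      (X : ℝ) ^ 2 * (Real.log X) ^ ((2 ^ s - 1) * gg - (1 - 2 ^ (-s)) * 2 - ε) ≤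
        ∑ t ∈ T, (SN (P (1 + m * t.1) t.2) (Q (1 + m * t.1) t.2)) ^ s := by
  obtain ⟨δ, z0, hδ0, hδ8, hen⟩ := en2 hc 2 s gg 2 (ε / 2) hs hgg (by norm_num) (by positivity)
  obtain ⟨z, hz⟩ : ∃ z : ℕ, z = z0 + 11 := ⟨_, rfl⟩
  obtain ⟨C1, hC10, hC1⟩ := hmg z (by omega)
  obtain ⟨C2, hC20, hC2⟩ := mer_two z
  obtain ⟨L0, hL0⟩ := hen z (by omega) (C1 + C2) 5
  obtain ⟨m, hm⟩ : ∃ m : ℕ, m = ∏ p ∈ (range (z + 1)).filter Nat.Prime, p := ⟨_, rfl⟩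
  have hm1 : 1 ≤ m := by
    have h0 : 0 < ∏ p ∈ (range (z + 1)).filter Nat.Prime, p :=
      prod_pos fun p hp => (mem_filter.1 hp).2.pos
    rw [hm]
    exact h0
  have hmz : ∀ p : ℕ, p.Prime → (p ∣ m ↔ p ≤ z) := by
    intro p hp
    rw [hm]
    constructor
    · intro h
      rw [hp.prime.dvd_finsetProd_iff] at h
      obtain ⟨q, hq, hpq⟩ := h
      rw [mem_filter, mem_range] at hq
      rw [(Nat.prime_dvd_prime_iff_eq hp hq.2).1 hpq]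
      omega
    · intro h
      exact dvd_prod_of_mem _ (mem_filter.2 ⟨mem_range.2 (by omega), hp⟩)
  obtain ⟨W, hW⟩ : ∃ W : ℕ, W = ⌈(4 : ℝ) / δ⌉₊ := ⟨_, rfl⟩
  obtain ⟨e, he⟩ : ∃ e : ℝ, e = (2 ^ s - 1) * gg - (1 - 2 ^ (-s)) * 2 - ε / 2 := ⟨_, rfl⟩
  obtain ⟨M, hM⟩ : ∃ M : ℝ, M = (2 : ℝ) ^ |e| * (2 : ℝ) ^ (s * ((z : ℝ) + W + 11)) := ⟨_, rfl⟩
  have hM0 : 0 < M := by rw [hM]; positivity
  obtain ⟨L1, hL1⟩ := eventually_atTop.1 (((tendsto_rpow_atTop (show 0 < ε / 2 by positivity)).comp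
    (Real.tendsto_log_atTop.comp (tendsto_natCast_atTop_atTop (R := ℝ)))).eventually_ge_atTop M)
  obtain ⟨L2, hL2⟩ := eventually_atTop.1 (((tendsto_rpow_atTop hδ0).comp
    (tendsto_natCast_atTop_atTop (R := ℝ))).eventually_ge_atTop 2)
  refine ⟨m, 3 * (L0 + L1 + L2 + 6 * m + 20), hm1, fun X hX => ?_⟩
  obtain ⟨L, hL⟩ : ∃ L : ℕ, L = X / 3 := ⟨_, rfl⟩
  have hLX : 3 * L ≤ X := by omega
  have hXL : X ≤ 3 * L + 2 := by omega
  have hLb : L0 + L1 + L2 + 6 * m + 20 ≤ L := by omega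
  obtain ⟨y, hy⟩ : ∃ y : ℕ, y = ⌊(L : ℝ) ^ δ⌋₊ := ⟨_, rfl⟩
  obtain ⟨hzy, P1, hP1, hmain⟩ := hL0 L (by omega) y hy
  have hLr : (20 : ℝ) ≤ L := by exact_mod_cast (by omega : 20 ≤ L)
  have hL0' : (0 : ℝ) < L := by linarith
  have hXr : 3 * (L : ℝ) ≤ X := by exact_mod_cast hLX
  have hXr2 : (X : ℝ) ≤ 3 * L + 2 := by exact_mod_cast hXL
  have hlL : 1 < Real.log L := by
    rw [Real.lt_log_iff_exp_lt hL0']
    have := Real.exp_one_lt_d9
    linarith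
  have hlX : Real.log L ≤ Real.log X := Real.log_le_log hL0' (by linarith)
  have hlX2 : Real.log X ≤ 2 * Real.log L := by
    have h1 : Real.log X ≤ Real.log ((L : ℝ) ^ 2) :=
      Real.log_le_log (by linarith) (by nlinarith)
    rw [Real.log_pow] at h1
    exact_mod_cast h1
  have hnd : ∀ p : ℕ, p.Prime → z < p → ¬ p ∣ m := fun p hp hzp h => by
    have := (hmz p hp).1 h
    omega
  obtain ⟨T0, hT0⟩ : ∃ T0 : Finset (ℕ × ℕ), T0 = (Icc 1 X ×ˢ Icc 1 X).filter (fun t : ℕ × ℕ =>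
    1 + m * t.1 ≠ t.2 ∧ ∀ p : ℕ, p.Prime → y < p → ¬ (p ∣ 1 + m * t.1 ∧ p ∣ t.2)) := ⟨_, rfl⟩
  obtain ⟨T, hT⟩ : ∃ T : Finset (ℕ × ℕ), T = T0.filter (fun t : ℕ × ℕ =>
    ∀ p ∈ PS z y, ¬ (p ∣ 1 + m * t.1 ∧ p ∣ t.2)) := ⟨_, rfl⟩
  have h := hmain X (fun p u v => (p : ℤ) ∣ P (1 + m * u) v - Q (1 + m * u) v ∧
      jacobiSym (P (1 + m * u) v) p = 1) (fun p u v => p ∣ 1 + m * u ∨ p ∣ v)
    (fun p u v => p ∣ 1 + m * u ∧ p ∣ v) hLX
    (by
      intro p hp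
      have hdvd : ∀ a a' : ℕ, a ≡ a' [MOD p] → (p ∣ a ↔ p ∣ a') := fun a a' h =>
        ⟨fun k => (Nat.modEq_zero_iff_dvd).1 (h.symm.trans ((Nat.modEq_zero_iff_dvd).2 k)),
          fun k => (Nat.modEq_zero_iff_dvd).1 (h.trans ((Nat.modEq_zero_iff_dvd).2 k))⟩
      have hlin : ∀ a a' : ℕ, a ≡ a' [MOD p] → 1 + m * a ≡ 1 + m * a' [MOD p] := fun a a' h =>
        (h.mul_left m).add_left 1
      refine ⟨?_, ?_, ?_⟩
      · intro a b a' b' h1 h2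
        obtain ⟨k1, k2⟩ := hcong p _ _ _ _ (hlin a a' h1) h2
        have k3 := k1.sub k2
        refine and_congr ?_ ?_
        · rw [← Int.modEq_zero_iff_dvd, ← Int.modEq_zero_iff_dvd]
          exact ⟨fun k => k3.symm.trans k, fun k => k3.trans k⟩
        · rw [jacobiSym.mod_left' k1]
      · intro a b a' b' h1 h2
        exact or_congr (hdvd _ _ (hlin a a' h1)) (hdvd _ _ h2)
      · intro a b a' b' h1 h2
        exact and_congr (hdvd _ _ (hlin a a' h1)) (hdvd _ _ h2))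
    (by
      intro p hp
      have hp' := mem_PS.1 hp
      have k0 := hnd p hp'.2 hp'.1.1
      have k1 := hcg p m hp'.2 (by omega) k0
      have k2 := hcb p m hp'.2 (by omega) k0
      have k3 := hch p m hp'.2 (by omega) k0
      have k4 := hcg2 p
      refine ⟨le_of_eq_of_le k1 k4, ?_, ?_⟩
      · rw [k2]
        omega
      · rw [k3]
        omega)
    (by
      intro p hp u v
      refine ⟨?_, fun h => Or.inl h.1⟩
      rintro ⟨k1, k2⟩ k3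
      have hp' := (mem_PS.1 hp).2
      have hp5 : 5 ≤ p := by
        have := (mem_PS.1 hp).1.1
        omega
      have k4 := Pool.Agent.TH841.NO.ndvd_of_jac hp' k2
      have k5 := (hpr p _ _ hp' hp5).2 k3
      rcases (Nat.prime_iff_prime_int.1 hp').dvd_or_dvd k5 with k6 | k6
      · exact k4 k6
      · apply k4
        have := dvd_add k1 k6
        simpa using this)
    (by
      intro w hw hwy
      have k1 := hC1 w hw (by omega)
      have e1 : ∑ p ∈ PS z w, (cnt (fun u v => (p : ℤ) ∣ P (1 + m * u) v - Q (1 + m * u) v ∧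
          jacobiSym (P (1 + m * u) v) p = 1) p : ℝ) / (p : ℝ) ^ 2 =
          ∑ p ∈ PS z w, (cg p : ℝ) / (p : ℝ) ^ 2 := by
        refine sum_congr rfl fun p hp => ?_
        have hp' := mem_PS.1 hp
        rw [hcg p m hp'.2 (by omega) (hnd p hp'.2 hp'.1.1)]
      rw [e1]
      have hwr : (3 : ℝ) ≤ w := by exact_mod_cast (by omega : 3 ≤ w)
      have k2 : 0 ≤ Real.log (Real.log w) := by
        apply Real.log_nonneg
        have : 1 < Real.log w := by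
          rw [Real.lt_log_iff_exp_lt (by linarith)]
          have := Real.exp_one_lt_d9
          linarith
        exact this.le
      refine ⟨by linarith [k1.1], ?_⟩
      have k3 := mul_le_mul_of_nonneg_right hgg2 k2
      push_cast
      linarith [k1.2])
    (by
      have k1 := (hC2 y (by omega) (by omega)).2.2
      have e1 : ∑ p ∈ PS z y, (cnt (fun u v => p ∣ 1 + m * u ∨ p ∣ v) p : ℝ) / (p : ℝ) ^ 2 =
          ∑ p ∈ PS z y, ((2 * p - 1 : ℕ) : ℝ) / (p : ℝ) ^ 2 := by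
        refine sum_congr rfl fun p hp => ?_
        have hp' := mem_PS.1 hp
        rw [hcb p m hp'.2 (by omega) (hnd p hp'.2 hp'.1.1)]
      rw [e1]
      linarith)
    T0 (by rw [hT0]; exact filter_subset _ _)
    (by
      have k1 := card_bad m X y (by omega) (fun p hp hyp => hnd p hp (by omega))
      have k2 : (Icc 1 X ×ˢ Icc 1 X) \ T0 = (Icc 1 X ×ˢ Icc 1 X).filter (fun t : ℕ × ℕ =>
          ¬ (1 + m * t.1 ≠ t.2 ∧
      ∀ p : ℕ, p.Prime → y < p → ¬ (p ∣ 1 + m * t.1 ∧ p ∣ t.2))) := by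
        rw [hT0]
        ext t
        rw [Finset.mem_sdiff, mem_filter, mem_filter]
        tauto
      rw [k2]
      refine k1.trans ?_
      have k3 : (2 : ℝ) ≤ (L : ℝ) ^ δ := hL2 L (by omega)
      have k4 : (L : ℝ) ^ δ < y + 1 := by rw [hy]; exact Nat.lt_floor_add_one _
      have k5 : (L : ℝ) ^ δ / 2 ≤ y := by linarith
      have hX0 : (0 : ℝ) ≤ X := Nat.cast_nonneg _
      have k6 : 2 * (X : ℝ) ^ 2 / y ≤ 4 * (X : ℝ) ^ 2 * (L : ℝ) ^ (-(δ / 2)) := by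
        have m1 : 2 * (X : ℝ) ^ 2 / y ≤ 2 * (X : ℝ) ^ 2 / ((L : ℝ) ^ δ / 2) :=
          div_le_div_of_nonneg_left (by positivity) (by positivity) k5
        have m2 : 2 * (X : ℝ) ^ 2 / ((L : ℝ) ^ δ / 2) = 4 * (X : ℝ) ^ 2 * (L : ℝ) ^ (-δ) := by
          rw [Real.rpow_neg hL0'.le]
          field_simp
          ring
        have m3 : (L : ℝ) ^ (-δ) ≤ (L : ℝ) ^ (-(δ / 2)) :=
          Real.rpow_le_rpow_of_exponent_le (by linarith) (by linarith)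
        rw [m2] at m1
        exact m1.trans (mul_le_mul_of_nonneg_left m3 (by positivity))
      have k7 : (X : ℝ) ≤ (X : ℝ) ^ 2 * (L : ℝ) ^ (-(δ / 2)) := by
        have m1 : (L : ℝ) ^ (-(1 : ℝ)) ≤ (L : ℝ) ^ (-(δ / 2)) :=
          Real.rpow_le_rpow_of_exponent_le (by linarith) (by linarith)
        have m2 : (X : ℝ) ≤ (X : ℝ) ^ 2 * (L : ℝ) ^ (-(1 : ℝ)) := by
          rw [Real.rpow_neg_one, ← div_eq_mul_inv, le_div_iff₀ hL0']
          nlinarith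
        exact m2.trans (mul_le_mul_of_nonneg_left m1 (by positivity))
      linarith)
  have hTT0 : T ⊆ T0 := by rw [hT]; exact filter_subset _ _
  have hTX : T ⊆ Icc 1 X ×ˢ Icc 1 X := hTT0.trans (by rw [hT0]; exact filter_subset _ _)
  have hcop : ∀ t ∈ T, (1 + m * t.1).Coprime t.2 ∧ 1 + m * t.1 ≠ t.2 := by
    intro t ht
    rw [hT, mem_filter, hT0, mem_filter] at ht
    refine ⟨Nat.coprime_of_dvd fun p hp hh1 hh2 => ?_, ht.1.2.1⟩
    rcases Nat.lt_or_ge y p with k1 | k1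
    · exact ht.1.2.2 p hp k1 ⟨hh1, hh2⟩
    · rcases Nat.lt_or_ge z p with k2 | k2
      · exact ht.2 p (mem_PS.2 ⟨⟨k2, k1⟩, hp⟩) ⟨hh1, hh2⟩
      · have k3 : p ∣ m * t.1 := ((hmz p hp).2 k2).mul_right _
        have k4 : p ∣ 1 := (Nat.dvd_add_left k3).1 hh1
        exact hp.one_lt.ne' (Nat.dvd_one.1 k4)
  refine ⟨T, hTX, hcop, ?_⟩
  have hsum : ∑ t ∈ T0, (2 : ℝ) ^ (s * ((P1.filter (fun p : ℕ =>
      (p : ℤ) ∣ P (1 + m * t.1) t.2 - Q (1 + m * t.1) t.2 ∧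
      jacobiSym (P (1 + m * t.1) t.2) p = 1)).card : ℝ)) *
      fac (1 - 2 ^ (-s)) (PS z y) (fun p => p ∣ 1 + m * t.1 ∨ p ∣ t.2)
        (fun p => p ∣ 1 + m * t.1 ∧ p ∣ t.2) ≤
      2 ^ (s * ((z : ℝ) + W + 11)) *
        ∑ t ∈ T, (SN (P (1 + m * t.1) t.2) (Q (1 + m * t.1) t.2)) ^ s := by
    rw [mul_sum, hT, ← sum_filter_add_sum_filter_not T0 (fun t : ℕ × ℕ =>
      ∀ p ∈ PS z y, ¬ (p ∣ 1 + m * t.1 ∧ p ∣ t.2))]
    have k0 : ∑ t ∈ T0.filter (fun t : ℕ × ℕ => ¬ ∀ p ∈ PS z y, ¬ (p ∣ 1 + m * t.1 ∧ p ∣ t.2)),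
        (2 : ℝ) ^ (s * ((P1.filter (fun p : ℕ =>
      (p : ℤ) ∣ P (1 + m * t.1) t.2 - Q (1 + m * t.1) t.2 ∧
      jacobiSym (P (1 + m * t.1) t.2) p = 1)).card : ℝ)) *
      fac (1 - 2 ^ (-s)) (PS z y) (fun p => p ∣ 1 + m * t.1 ∨ p ∣ t.2)
        (fun p => p ∣ 1 + m * t.1 ∧ p ∣ t.2) = 0 := by
      refine sum_eq_zero fun t ht => ?_
      have k1 := (mem_filter.1 ht).2
      push Not at k1
      obtain ⟨p, hp, hh⟩ := k1
      rw [fac_zero _ _ _ _ hp (Or.inl hh.1) hh, mul_zero]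
    rw [k0, add_zero]
    refine sum_le_sum fun t ht => ?_
    have ht' := (mem_filter.1 ht)
    have ht0 := ht'.1
    rw [hT0, mem_filter, mem_product, mem_Icc, mem_Icc] at ht0
    obtain ⟨⟨⟨u1, u2⟩, v1, v2⟩, k1, k2⟩ := ht0
    obtain ⟨q1, q2, q3⟩ := hPQ (1 + m * t.1) t.2 (by omega) v1 k1
    rw [fac_congr_H _ _ _ _ ht'.2, fac_false]
    have k5 := sel_low2 q1 q2 q3 hs (z := z) (y := y) (W := W) (by omega) P1 hP1 (by
      have hab : (1 + m * t.1) * t.2 ≠ 0 := by positivity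
      have hsize : (1 + m * t.1) * t.2 ≤ L ^ 4 := by
        have m1 : 1 + m * t.1 ≤ L ^ 2 := by
          calc 1 + m * t.1 ≤ 1 + m * X := by
                have := Nat.mul_le_mul_left m u2
                omega
            _ ≤ 1 + m * (3 * L + 2) := by
                have := Nat.mul_le_mul_left m hXL
                omega
            _ ≤ L ^ 2 := by nlinarith
        have m2 : t.2 ≤ L ^ 2 := by nlinarith
        calc (1 + m * t.1) * t.2 ≤ L ^ 2 * L ^ 2 := Nat.mul_le_mul m1 m2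
          _ = L ^ 4 := by ring
      have hy1 : 1 < (L : ℝ) ^ δ := Real.one_lt_rpow (by linarith) hδ0
      have h1 := card_big ((1 + m * t.1) * t.2) hab _ hy1 (4 / δ) (by
        rw [← Real.rpow_mul hL0'.le, mul_div_cancel₀ _ hδ0.ne']
        have : ((((1 + m * t.1) * t.2 : ℕ)) : ℝ) ≤ (L : ℝ) ^ 4 := by exact_mod_cast hsize
        exact_mod_cast this)
      have h2 : (((1 + m * t.1) * t.2).primeFactors.filter (fun p : ℕ => (L : ℝ) ^ δ < p)).card ≤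
          W := by
        rw [hW]
        exact_mod_cast h1.trans (Nat.le_ceil _)
      refine le_trans (card_le_card fun p hp => ?_) h2
      rw [mem_filter, Nat.mem_primeFactors] at hp
      rw [mem_filter, Nat.mem_primeFactors]
      have hp5 : 5 ≤ p := by omega
      have n1 := (hpr p (1 + m * t.1) t.2 hp.1.1 hp5).1 (Int.natCast_dvd.2 hp.1.2.1)
      refine ⟨⟨hp.1.1, (hp.1.1.dvd_mul).2 n1, hab⟩, ?_⟩
      have h3 : (L : ℝ) ^ δ < y + 1 := by rw [hy]; exact Nat.lt_floor_add_one _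
      have h4 : (y : ℝ) + 1 ≤ p := by exact_mod_cast hp.2
      linarith)
    have k6 : ((PS z y).filter (fun p : ℕ => (p : ℤ) ∣ P (1 + m * t.1) t.2 *
        Q (1 + m * t.1) t.2)) = (PS z y).filter (fun p => p ∣ 1 + m * t.1 ∨ p ∣ t.2) := by
      apply filter_congr
      intro p hp
      have hp' := mem_PS.1 hp
      exact hpr p _ _ hp'.2 (by omega)
    rw [k6] at k5
    exact le_trans (le_of_eq (by congr!)) k5
  have hfin := h.trans (le_trans (le_of_eq (by congr!)) hsum)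
  obtain ⟨V, hV⟩ : ∃ V : ℝ, V = ∑ t ∈ T, (SN (P (1 + m * t.1) t.2) (Q (1 + m * t.1) t.2)) ^ s :=
    ⟨_, rfl⟩
  rw [← hV] at hfin ⊢
  rw [← he] at hfin
  have hlX0 : 0 < Real.log X := by linarith
  have k1 : M ≤ (Real.log X) ^ (ε / 2) := hL1 X (by omega)
  have k2 := log_cmp e hlL hlX hlX2
  have k3 : (Real.log X) ^ e = (Real.log X) ^ (ε / 2) * (Real.log X) ^ ((2 ^ s - 1) * gg -
      (1 - 2 ^ (-s)) * 2 - ε) := by
    rw [← Real.rpow_add hlX0, he]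
    congr 1
    ring
  obtain ⟨R, hR⟩ : ∃ R : ℝ, R = (Real.log X) ^ ((2 ^ s - 1) * gg - (1 - 2 ^ (-s)) * 2 - ε) :=
    ⟨_, rfl⟩
  rw [← hR] at k3 ⊢
  have hR0 : 0 ≤ R := by rw [hR]; positivity
  have k4 : M * ((X : ℝ) ^ 2 * R) ≤ M * V := by
    calc M * ((X : ℝ) ^ 2 * R) ≤ (Real.log X) ^ (ε / 2) * ((X : ℝ) ^ 2 * R) :=
          mul_le_mul_of_nonneg_right k1 (by positivity)
      _ = (X : ℝ) ^ 2 * (Real.log X) ^ e := by rw [k3]; ring
      _ ≤ (X : ℝ) ^ 2 * (2 ^ |e| * (Real.log L) ^ e) := mul_le_mul_of_nonneg_left k2 (by positivity)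
      _ = 2 ^ |e| * ((X : ℝ) ^ 2 * (Real.log L) ^ e) := by ring
      _ ≤ 2 ^ |e| * (2 ^ (s * ((z : ℝ) + W + 11)) * V) :=
          mul_le_mul_of_nonneg_left hfin (by positivity)
      _ = M * V := by rw [hM]; ring
  exact le_of_mul_le_mul_left k4 hM0

end Pool.Agent.N870.EC
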