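import Mathlib
import Pool.Agent.N870.EC.Two4

/-!
# Project EC: the lower bound for the moments over coprime pairs, forms of higher degree, theorem

Seat helper870.
-/

set_option autoImplicit false

namespace Pool.Agent.N870.EC

open Finset Filter Pool.Agent.W262.RK

open scoped Classical

open Pool.Agent.W307.SE (Loc Sel SN SN_nonneg sel_fin)
open Pool.Agent.N870.SQ (card_big)

/-- the number of the residues does not change under an affine substitution -/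
lemma cnt_shift (Z : ℕ → ℕ → Prop) (s0 m p : ℕ) (hp : p.Prime) (hm : ¬ p ∣ m) (hZ : Per Z p) :
    cnt (fun u v => Z (s0 + m * u) v) p = cnt Z p := by
  obtain ⟨φ, hφ⟩ : ∃ φ : ℕ × ℕ → ℕ × ℕ, φ = fun t => ((s0 + m * t.1) % p, t.2) := ⟨_, rfl⟩
  have hinj : Set.InjOn φ ((range p ×ˢ range p : Finset (ℕ × ℕ)) : Set (ℕ × ℕ)) := by
    intro a ha b hb hab
    rw [mem_coe, mem_product, mem_range, mem_range] at ha hb
    rw [hφ] at hab
    simp only [Prod.mk.injEq] at hab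
    have h1 : m * a.1 ≡ m * b.1 [MOD p] := Nat.ModEq.add_left_cancel' s0 hab.1
    have h2 : a.1 ≡ b.1 [MOD p] :=
      Nat.ModEq.cancel_left_of_coprime ((Nat.Prime.coprime_iff_not_dvd hp).2 hm) h1
    have h3 : a.1 % p = b.1 % p := h2
    rw [Nat.mod_eq_of_lt ha.1, Nat.mod_eq_of_lt hb.1] at h3
    exact Prod.ext h3 hab.2
  have himg : (range p ×ˢ range p).image φ = range p ×ˢ range p := by
    apply eq_of_subset_of_card_le
    · intro t ht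
      rw [mem_image] at ht
      obtain ⟨a, ha, rfl⟩ := ht
      rw [mem_product, mem_range, mem_range] at ha ⊢
      rw [hφ]
      exact ⟨Nat.mod_lt _ hp.pos, ha.2⟩
    · rw [card_image_of_injOn hinj]
  unfold cnt
  have h1 : (range p ×ˢ range p).filter (fun t : ℕ × ℕ => Z t.1 t.2) =
      ((range p ×ˢ range p).filter (fun t : ℕ × ℕ => Z (s0 + m * t.1) t.2)).image φ := by
    ext t
    rw [mem_filter, mem_image]
    constructor
    · rintro ⟨h2, h3⟩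
      rw [← himg, mem_image] at h2
      obtain ⟨a, ha, rfl⟩ := h2
      refine ⟨a, mem_filter.2 ⟨ha, ?_⟩, rfl⟩
      rw [hφ] at h3
      exact (hZ _ _ _ _ (Nat.mod_modEq _ _) (Nat.ModEq.refl _)).1 h3
    · rintro ⟨a, ha, rfl⟩
      rw [mem_filter] at ha
      constructor
      · rw [← himg]
        exact mem_image_of_mem _ ha.1
      · rw [hφ]
        exact (hZ _ _ _ _ (Nat.mod_modEq _ _) (Nat.ModEq.refl _)).2 ha.2
  rw [h1, card_image_of_injOn (hinj.mono (coe_subset.2 (filter_subset _ _)))]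

lemma cnt_zero' {p : ℕ} (hp : p.Prime) (Z : ℕ → ℕ → Prop) (hZ : ∀ u v, Z u v ↔ (p ∣ u ∧ p ∣ v)) :
    cnt Z p = 1 := by
  unfold cnt
  rw [card_eq_one]
  refine ⟨(0, 0), ?_⟩
  ext t
  rw [mem_filter, mem_product, mem_range, mem_range, mem_singleton, hZ]
  constructor
  · rintro ⟨⟨h1, h2⟩, h3, h4⟩
    exact Prod.ext (Nat.eq_zero_of_dvd_of_lt h3 h1) (Nat.eq_zero_of_dvd_of_lt h4 h2)
  · rintro rfl
    exact ⟨⟨hp.pos, hp.pos⟩, dvd_zero _, dvd_zero _⟩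

lemma cnt_zero {p : ℕ} (hp : p.Prime) : cnt (fun a b => p ∣ a ∧ p ∣ b) p = 1 :=
  cnt_zero' hp _ fun _ _ => Iff.rfl

/-- **the lower bound over coprime pairs**, forms of higher degree -/
theorem low_gen2 (hc : S_CNT2) (c : ℕ) (P Q : ℕ → ℕ → ℤ) (cg cb : ℕ → ℕ) (gg bb : ℝ) (hgg : 0 ≤ gg)
    (hgg2 : gg ≤ c) (hbb : 0 ≤ bb) (hc1 : 1 ≤ c)
    (hPQ : ∀ a b : ℕ, 1 ≤ b → a.Coprime b → a % 6 = 1 → 3 * b < a →
      P a b ≠ 0 ∧ Q a b ≠ 0 ∧ P a b ≠ Q a b)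
    (hH : ∀ p a b : ℕ, p ∣ a → p ∣ b → (p : ℤ) ∣ P a b * Q a b)
    (hcong : ∀ p a b a' b' : ℕ, a ≡ a' [MOD p] → b ≡ b' [MOD p] →
      (P a b ≡ P a' b' [ZMOD p]) ∧ (Q a b ≡ Q a' b' [ZMOD p]))
    (hsize : ∃ E : ℕ, ∀ L a b : ℕ, 2 ≤ L → a ≤ L → b ≤ L → (P a b * Q a b).natAbs ≤ L ^ E)
    (hcg : ∀ p : ℕ, p.Prime → 5 ≤ p → cnt (fun a b =>
      (p : ℤ) ∣ P a b - Q a b ∧ jacobiSym (P a b) p = 1) p = cg p)
    (hcb : ∀ p : ℕ, p.Prime → 5 ≤ p → cnt (fun a b => (p : ℤ) ∣ P a b * Q a b) p = cb p)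
    (hcg2 : ∀ p, cg p ≤ c * p) (hcb2 : ∀ p, cb p ≤ c * p)
    (hmg : ∀ z : ℕ, 11 ≤ z → ∃ C : ℝ, 0 ≤ C ∧ ∀ w : ℕ, z < w → 3 ≤ w →
      gg * Real.log (Real.log w) - C ≤ ∑ p ∈ PS z w, (cg p : ℝ) / (p : ℝ) ^ 2 ∧
      ∑ p ∈ PS z w, (cg p : ℝ) / (p : ℝ) ^ 2 ≤ gg * Real.log (Real.log w) + C)
    (hmb : ∀ z : ℕ, 11 ≤ z → ∃ C : ℝ, 0 ≤ C ∧ ∀ w : ℕ, z < w → 3 ≤ w →
      ∑ p ∈ PS z w, (cb p : ℝ) / (p : ℝ) ^ 2 ≤ bb * Real.log (Real.log w) + C)
    (s ε : ℝ) (hs : 0 < s) (hε : 0 < ε) :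
    ∃ m X0 : ℕ, 1 ≤ m ∧ ∀ X : ℕ, X0 ≤ X → ∃ T ⊆ Icc 1 X ×ˢ Icc 1 X,
      (∀ t ∈ T, ((1 + m * X) + m * t.1).Coprime t.2 ∧ ((1 + m * X) + m * t.1) % 6 = 1 ∧
        3 * t.2 < (1 + m * X) + m * t.1) ∧
      (X : ℝ) ^ 2 * (Real.log X) ^ ((2 ^ s - 1) * gg - (1 - 2 ^ (-s)) * bb - ε) ≤
        ∑ t ∈ T, (SN (P ((1 + m * X) + m * t.1) t.2) (Q ((1 + m * X) + m * t.1) t.2)) ^ s := by
  obtain ⟨E, hE⟩ := hsize
  obtain ⟨δ, z0, hδ0, hδ8, hen⟩ := en2 hc c s gg bb (ε / 2) hs hgg hbb (by positivity)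
  obtain ⟨z, hz⟩ : ∃ z : ℕ, z = z0 + 11 := ⟨_, rfl⟩
  obtain ⟨C1, hC10, hC1⟩ := hmg z (by omega)
  obtain ⟨C2, hC20, hC2⟩ := hmb z (by omega)
  obtain ⟨L0, hL0⟩ := hen z (by omega) (C1 + C2) 5
  obtain ⟨m, hm⟩ : ∃ m : ℕ, m = ∏ p ∈ (range (z + 1)).filter Nat.Prime, p := ⟨_, rfl⟩
  have hm1 : 1 ≤ m := by
    have h0 : 0 < ∏ p ∈ (range (z + 1)).filter Nat.Prime, p :=
      prod_pos fun p hp => (mem_filter.1 hp).2.pos
    rw [hm]
    exact h0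
  have hmz : ∀ p : ℕ, p.Prime → (p ∣ m ↔ p ≤ z) := by
    intro p hp
    rw [hm]
    constructor
    · intro h
      rw [hp.prime.dvd_finsetProd_iff] at h
      obtain ⟨q, hq, hpq⟩ := h
      rw [mem_filter, mem_range] at hq
      rw [(Nat.prime_dvd_prime_iff_eq hp hq.2).1 hpq]
      omega
    · intro h
      exact dvd_prod_of_mem _ (mem_filter.2 ⟨mem_range.2 (by omega), hp⟩)
  obtain ⟨W, hW⟩ : ∃ W : ℕ, W = ⌈((3 * E : ℕ) : ℝ) / δ⌉₊ := ⟨_, rfl⟩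
  obtain ⟨e, he⟩ : ∃ e : ℝ, e = (2 ^ s - 1) * gg - (1 - 2 ^ (-s)) * bb - ε / 2 := ⟨_, rfl⟩
  obtain ⟨M, hM⟩ : ∃ M : ℝ, M = (2 : ℝ) ^ |e| * (2 : ℝ) ^ (s * ((z : ℝ) + W + 11)) := ⟨_, rfl⟩
  have hM0 : 0 < M := by rw [hM]; positivity
  obtain ⟨L1, hL1⟩ := eventually_atTop.1 (((tendsto_rpow_atTop (show 0 < ε / 2 by positivity)).comp
    (Real.tendsto_log_atTop.comp (tendsto_natCast_atTop_atTop (R := ℝ)))).eventually_ge_atTop M)
  obtain ⟨L2, hL2⟩ := eventually_atTop.1 (((tendsto_rpow_atTop hδ0).comp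
    (tendsto_natCast_atTop_atTop (R := ℝ))).eventually_ge_atTop 2)
  refine ⟨m, 3 * (L0 + L1 + L2 + 6 * m + 20), hm1, fun X hX => ?_⟩
  obtain ⟨L, hL⟩ : ∃ L : ℕ, L = X / 3 := ⟨_, rfl⟩
  have hLX : 3 * L ≤ X := by omega
  have hXL : X ≤ 3 * L + 2 := by omega
  have hLb : L0 + L1 + L2 + 6 * m + 20 ≤ L := by omega
  obtain ⟨y, hy⟩ : ∃ y : ℕ, y = ⌊(L : ℝ) ^ δ⌋₊ := ⟨_, rfl⟩
  obtain ⟨hzy, P1, hP1, hmain⟩ := hL0 L (by omega) y hy
  have hLr : (20 : ℝ) ≤ L := by exact_mod_cast (by omega : 20 ≤ L)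
  have hL0' : (0 : ℝ) < L := by linarith
  have hXr : 3 * (L : ℝ) ≤ X := by exact_mod_cast hLX
  have hXr2 : (X : ℝ) ≤ 3 * L + 2 := by exact_mod_cast hXL
  have hlL : 1 < Real.log L := by
    rw [Real.lt_log_iff_exp_lt hL0']
    have := Real.exp_one_lt_d9
    linarith
  have hlX : Real.log L ≤ Real.log X := Real.log_le_log hL0' (by linarith)
  have hlX2 : Real.log X ≤ 2 * Real.log L := by
    have h1 : Real.log X ≤ Real.log ((L : ℝ) ^ 2) :=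
      Real.log_le_log (by linarith) (by nlinarith)
    rw [Real.log_pow] at h1
    exact_mod_cast h1
  have hnd : ∀ p : ℕ, p.Prime → z < p → ¬ p ∣ m := fun p hp hzp h => by
    have := (hmz p hp).1 h
    omega
  obtain ⟨s0, hs0⟩ : ∃ s0 : ℕ, s0 = 1 + m * X := ⟨_, rfl⟩
  rw [← hs0]
  have h6m : 6 ∣ m := by
    have h2 : 2 ∣ m := (hmz 2 Nat.prime_two).2 (by omega)
    have h3 : 3 ∣ m := (hmz 3 Nat.prime_three).2 (by omega)
    exact Nat.Coprime.mul_dvd_of_dvd_of_dvd (by norm_num) h2 h3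
  have hm6 : 6 ≤ m := Nat.le_of_dvd hm1 h6m
  have ha6 : ∀ u : ℕ, (s0 + m * u) % 6 = 1 := by
    intro u
    obtain ⟨q, hq⟩ := h6m
    rw [hs0, hq]
    have : 1 + 6 * q * X + 6 * q * u = 1 + 6 * (q * X + q * u) := by ring
    rw [this]
    omega
  have hgt : ∀ t ∈ Icc 1 X ×ˢ Icc 1 X, 3 * t.2 < s0 + m * t.1 := by
    intro t ht
    rw [mem_product, mem_Icc, mem_Icc] at ht
    have h1 : 6 * X ≤ m * X := Nat.mul_le_mul_right _ hm6
    omega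
  obtain ⟨T0, hT0⟩ : ∃ T0 : Finset (ℕ × ℕ), T0 = (Icc 1 X ×ˢ Icc 1 X).filter (fun t : ℕ × ℕ =>
    (∀ p : ℕ, p.Prime → y < p → ¬ (p ∣ s0 + m * t.1 ∧ p ∣ t.2))) := ⟨_, rfl⟩
  obtain ⟨T, hT⟩ : ∃ T : Finset (ℕ × ℕ), T = T0.filter (fun t : ℕ × ℕ =>
    ∀ p ∈ PS z y, ¬ (p ∣ s0 + m * t.1 ∧ p ∣ t.2)) := ⟨_, rfl⟩
  have hdvd : ∀ p a a' : ℕ, a ≡ a' [MOD p] → (p ∣ a ↔ p ∣ a') := fun p a a' h =>
    ⟨fun k => (Nat.modEq_zero_iff_dvd).1 (h.symm.trans ((Nat.modEq_zero_iff_dvd).2 k)),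
      fun k => (Nat.modEq_zero_iff_dvd).1 (h.trans ((Nat.modEq_zero_iff_dvd).2 k))⟩
  have hperG : ∀ p : ℕ, Per (fun a b => (p : ℤ) ∣ P a b - Q a b ∧ jacobiSym (P a b) p = 1) p := by
    intro p a b a' b' h1 h2
    obtain ⟨k1, k2⟩ := hcong p _ _ _ _ h1 h2
    have k3 := k1.sub k2
    refine and_congr ?_ ?_
    · rw [← Int.modEq_zero_iff_dvd, ← Int.modEq_zero_iff_dvd]
      exact ⟨fun k => k3.symm.trans k, fun k => k3.trans k⟩
    · rw [jacobiSym.mod_left' k1]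
  have hperB : ∀ p : ℕ, Per (fun a b => (p : ℤ) ∣ P a b * Q a b) p := by
    intro p a b a' b' h1 h2
    obtain ⟨k1, k2⟩ := hcong p _ _ _ _ h1 h2
    have k3 := k1.mul k2
    show (p : ℤ) ∣ P a b * Q a b ↔ (p : ℤ) ∣ P a' b' * Q a' b'
    rw [← Int.modEq_zero_iff_dvd, ← Int.modEq_zero_iff_dvd]
    exact ⟨fun k => k3.symm.trans k, fun k => k3.trans k⟩
  have hperH : ∀ p : ℕ, Per (fun a b => p ∣ a ∧ p ∣ b) p := fun p a b a' b' h1 h2 =>
    and_congr (hdvd p _ _ h1) (hdvd p _ _ h2)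
  have hshift : ∀ (Z : ℕ → ℕ → Prop) (p : ℕ), Per Z p → Per (fun u v => Z (s0 + m * u) v) p :=
    fun Z p hZ a b a' b' h1 h2 => hZ _ _ _ _ ((h1.mul_left m).add_left s0) h2
  have hG1 : ∀ p ∈ PS z y, cnt (fun u v => (p : ℤ) ∣ P (s0 + m * u) v - Q (s0 + m * u) v ∧
      jacobiSym (P (s0 + m * u) v) p = 1) p = cg p := by
    intro p hp
    have hp' := mem_PS.1 hp
    exact (cnt_shift _ s0 m p hp'.2 (hnd p hp'.2 hp'.1.1) (hperG p)).trans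
      (hcg p hp'.2 (by omega))
  have hB1 : ∀ p ∈ PS z y, cnt (fun u v => (p : ℤ) ∣ P (s0 + m * u) v * Q (s0 + m * u) v) p =
      cb p := by
    intro p hp
    have hp' := mem_PS.1 hp
    exact (cnt_shift _ s0 m p hp'.2 (hnd p hp'.2 hp'.1.1) (hperB p)).trans
      (hcb p hp'.2 (by omega))
  have hH1 : ∀ p ∈ PS z y, cnt (fun u v => p ∣ s0 + m * u ∧ p ∣ v) p = 1 := by
    intro p hp
    have hp' := mem_PS.1 hp
    exact (cnt_shift _ s0 m p hp'.2 (hnd p hp'.2 hp'.1.1) (hperH p)).trans (cnt_zero hp'.2)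
  have h := hmain X (fun p u v => (p : ℤ) ∣ P (s0 + m * u) v - Q (s0 + m * u) v ∧
      jacobiSym (P (s0 + m * u) v) p = 1)
    (fun p u v => (p : ℤ) ∣ P (s0 + m * u) v * Q (s0 + m * u) v)
    (fun p u v => p ∣ s0 + m * u ∧ p ∣ v) hLX
    (fun p _ => ⟨hshift _ p (hperG p), hshift _ p (hperB p), hshift _ p (hperH p)⟩)
    (by
      intro p hp
      exact ⟨le_of_eq_of_le (hG1 p hp) (hcg2 p), le_of_eq_of_le (hB1 p hp) (hcb2 p),
        le_of_eq_of_le (hH1 p hp) hc1⟩)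
    (by
      intro p hp u v
      refine ⟨?_, fun h => hH p _ _ h.1 h.2⟩
      rintro ⟨k1, k2⟩ k3
      have hp' := (mem_PS.1 hp).2
      have k4 := Pool.Agent.TH841.NO.ndvd_of_jac hp' k2
      rcases (Nat.prime_iff_prime_int.1 hp').dvd_or_dvd k3 with k6 | k6
      · exact k4 k6
      · apply k4
        have := dvd_add k1 k6
        simpa using this)
    (by
      intro w hw hwy
      have k1 := hC1 w hw (by omega)
      have e1 : ∑ p ∈ PS z w, (cnt (fun u v => (p : ℤ) ∣ P (s0 + m * u) v - Q (s0 + m * u) v ∧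
          jacobiSym (P (s0 + m * u) v) p = 1) p : ℝ) / (p : ℝ) ^ 2 =
          ∑ p ∈ PS z w, (cg p : ℝ) / (p : ℝ) ^ 2 := by
        refine sum_congr rfl fun p hp => ?_
        have hp2 : p ∈ PS z y := by
          rw [mem_PS] at hp ⊢
          exact ⟨⟨hp.1.1, hp.1.2.trans hwy⟩, hp.2⟩
        rw [hG1 p hp2]
      rw [e1]
      have hwr : (3 : ℝ) ≤ w := by exact_mod_cast (by omega : 3 ≤ w)
      have k2 : 0 ≤ Real.log (Real.log w) := by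
        apply Real.log_nonneg
        have : 1 < Real.log w := by
          rw [Real.lt_log_iff_exp_lt (by linarith)]
          have := Real.exp_one_lt_d9
          linarith
        exact this.le
      refine ⟨by linarith [k1.1], ?_⟩
      have k3 := mul_le_mul_of_nonneg_right hgg2 k2
      linarith [k1.2])
    (by
      have k1 := (hC2 y (by omega) (by omega))
      have e1 : ∑ p ∈ PS z y, (cnt (fun u v => (p : ℤ) ∣ P (s0 + m * u) v *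
          Q (s0 + m * u) v) p : ℝ) / (p : ℝ) ^ 2 =
          ∑ p ∈ PS z y, (cb p : ℝ) / (p : ℝ) ^ 2 := by
        refine sum_congr rfl fun p hp => ?_
        rw [hB1 p hp]
      rw [e1]
      linarith)
    T0 (by rw [hT0]; exact filter_subset _ _)
    (by
      have k1 := card_bad' s0 m X y (by omega) (fun p hp hyp => hnd p hp (by omega))
      have k2 : (Icc 1 X ×ˢ Icc 1 X) \ T0 = (Icc 1 X ×ˢ Icc 1 X).filter (fun t : ℕ × ℕ =>
          ¬ (∀ p : ℕ, p.Prime → y < p → ¬ (p ∣ s0 + m * t.1 ∧ p ∣ t.2))) := by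
        rw [hT0]
        ext t
        rw [Finset.mem_sdiff, mem_filter, mem_filter]
        tauto
      rw [k2]
      refine k1.trans ?_
      have k3 : (2 : ℝ) ≤ (L : ℝ) ^ δ := hL2 L (by omega)
      have k4 : (L : ℝ) ^ δ < y + 1 := by rw [hy]; exact Nat.lt_floor_add_one _
      have k5 : (L : ℝ) ^ δ / 2 ≤ y := by linarith
      have hX0 : (0 : ℝ) ≤ X := Nat.cast_nonneg _
      have m1 : 2 * (X : ℝ) ^ 2 / y ≤ 2 * (X : ℝ) ^ 2 / ((L : ℝ) ^ δ / 2) :=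
        div_le_div_of_nonneg_left (by positivity) (by positivity) k5
      have m2 : 2 * (X : ℝ) ^ 2 / ((L : ℝ) ^ δ / 2) = 4 * (X : ℝ) ^ 2 * (L : ℝ) ^ (-δ) := by
        rw [Real.rpow_neg hL0'.le]
        field_simp
        ring
      have m3 : (L : ℝ) ^ (-δ) ≤ (L : ℝ) ^ (-(δ / 2)) :=
        Real.rpow_le_rpow_of_exponent_le (by linarith) (by linarith)
      rw [m2] at m1
      refine m1.trans ((mul_le_mul_of_nonneg_left m3 (by positivity)).trans ?_)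
      have m4 : (0 : ℝ) ≤ (X : ℝ) ^ 2 * (L : ℝ) ^ (-(δ / 2)) := by positivity
      linarith)
  have hTT0 : T ⊆ T0 := by rw [hT]; exact filter_subset _ _
  have hTX : T ⊆ Icc 1 X ×ˢ Icc 1 X := hTT0.trans (by rw [hT0]; exact filter_subset _ _)
  have hcop : ∀ t ∈ T, (s0 + m * t.1).Coprime t.2 ∧ (s0 + m * t.1) % 6 = 1 ∧
      3 * t.2 < s0 + m * t.1 := by
    intro t ht
    have ht0 := hTX ht
    rw [hT, mem_filter, hT0, mem_filter] at ht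
    refine ⟨Nat.coprime_of_dvd fun p hp hh1 hh2 => ?_, ha6 _, hgt t ht0⟩
    rcases Nat.lt_or_ge y p with k1 | k1
    · exact ht.1.2 p hp k1 ⟨hh1, hh2⟩
    · rcases Nat.lt_or_ge z p with k2 | k2
      · exact ht.2 p (mem_PS.2 ⟨⟨k2, k1⟩, hp⟩) ⟨hh1, hh2⟩
      · have k3 : p ∣ m * X + m * t.1 := by
          have := (hmz p hp).2 k2
          exact dvd_add (this.mul_right _) (this.mul_right _)
        rw [hs0, add_assoc] at hh1
        have k4 : p ∣ 1 := (Nat.dvd_add_left k3).1 hh1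
        exact hp.one_lt.ne' (Nat.dvd_one.1 k4)
  refine ⟨T, hTX, hcop, ?_⟩
  have hsum : ∑ t ∈ T0, (2 : ℝ) ^ (s * ((P1.filter (fun p : ℕ =>
      (p : ℤ) ∣ P (s0 + m * t.1) t.2 - Q (s0 + m * t.1) t.2 ∧
      jacobiSym (P (s0 + m * t.1) t.2) p = 1)).card : ℝ)) *
      fac (1 - 2 ^ (-s)) (PS z y) (fun p => (p : ℤ) ∣ P (s0 + m * t.1) t.2 * Q (s0 + m * t.1) t.2)
        (fun p => p ∣ s0 + m * t.1 ∧ p ∣ t.2) ≤
      2 ^ (s * ((z : ℝ) + W + 11)) *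
        ∑ t ∈ T, (SN (P (s0 + m * t.1) t.2) (Q (s0 + m * t.1) t.2)) ^ s := by
    rw [mul_sum, hT, ← sum_filter_add_sum_filter_not T0 (fun t : ℕ × ℕ =>
      ∀ p ∈ PS z y, ¬ (p ∣ s0 + m * t.1 ∧ p ∣ t.2))]
    have k0 : ∑ t ∈ T0.filter (fun t : ℕ × ℕ => ¬ ∀ p ∈ PS z y, ¬ (p ∣ s0 + m * t.1 ∧ p ∣ t.2)),
        (2 : ℝ) ^ (s * ((P1.filter (fun p : ℕ =>
      (p : ℤ) ∣ P (s0 + m * t.1) t.2 - Q (s0 + m * t.1) t.2 ∧
      jacobiSym (P (s0 + m * t.1) t.2) p = 1)).card : ℝ)) *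
      fac (1 - 2 ^ (-s)) (PS z y) (fun p => (p : ℤ) ∣ P (s0 + m * t.1) t.2 * Q (s0 + m * t.1) t.2)
        (fun p => p ∣ s0 + m * t.1 ∧ p ∣ t.2) = 0 := by
      refine sum_eq_zero fun t ht => ?_
      have k1 := (mem_filter.1 ht).2
      push Not at k1
      obtain ⟨p, hp, hh⟩ := k1
      rw [fac_zero _ _ _ _ hp (hH p _ _ hh.1 hh.2) hh, mul_zero]
    rw [k0, add_zero]
    refine sum_le_sum fun t ht => ?_
    have ht' := (mem_filter.1 ht)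
    have ht0 := ht'.1
    have htT : t ∈ T := by rw [hT]; exact ht
    obtain ⟨c1, c2, c3⟩ := hcop t htT
    rw [hT0, mem_filter, mem_product, mem_Icc, mem_Icc] at ht0
    obtain ⟨⟨⟨u1, u2⟩, v1, v2⟩, k2⟩ := ht0
    obtain ⟨q1, q2, q3⟩ := hPQ (s0 + m * t.1) t.2 v1 c1 c2 c3
    rw [fac_congr_H _ _ _ _ ht'.2, fac_false]
    have k5 := sel_low2 q1 q2 q3 hs (z := z) (y := y) (W := W) (by omega) P1 hP1 (by
      have hab : P (s0 + m * t.1) t.2 * Q (s0 + m * t.1) t.2 ≠ 0 := mul_ne_zero q1 q2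
      have hsz : (P (s0 + m * t.1) t.2 * Q (s0 + m * t.1) t.2).natAbs ≤ L ^ (3 * E) := by
        have m1 : s0 + m * t.1 ≤ L ^ 3 := by
          have hmX : m * t.1 ≤ m * X := Nat.mul_le_mul_left m u2
          calc s0 + m * t.1 ≤ 1 + 2 * (m * X) := by omega
            _ ≤ 1 + 2 * (m * (3 * L + 2)) := by
                have := Nat.mul_le_mul_left m hXL
                omega
            _ ≤ L * L := by nlinarith
            _ ≤ L ^ 3 := by nlinarith [Nat.mul_le_mul_left (L * L) (show 1 ≤ L by omega)]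
        have m2 : t.2 ≤ L ^ 3 := by
          have : t.2 ≤ L * L := by nlinarith
          nlinarith [Nat.mul_le_mul_left (L * L) (show 1 ≤ L by omega)]
        have m3 := hE (L ^ 3) (s0 + m * t.1) t.2 (by
          calc 2 ≤ L := by omega
            _ = L ^ 1 := (pow_one L).symm
            _ ≤ L ^ 3 := Nat.pow_le_pow_right (by omega) (by norm_num)) m1 m2
        rwa [← pow_mul] at m3
      have hy1 : 1 < (L : ℝ) ^ δ := Real.one_lt_rpow (by linarith) hδ0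
      have h1 := card_big (P (s0 + m * t.1) t.2 * Q (s0 + m * t.1) t.2).natAbs
        (Int.natAbs_ne_zero.2 hab) _ hy1 (((3 * E : ℕ) : ℝ) / δ) (by
        rw [← Real.rpow_mul hL0'.le, mul_div_cancel₀ _ hδ0.ne', Real.rpow_natCast]
        exact_mod_cast hsz)
      have h2 : ((P (s0 + m * t.1) t.2 * Q (s0 + m * t.1) t.2).natAbs.primeFactors.filter
          (fun p : ℕ => (L : ℝ) ^ δ < p)).card ≤ W := by
        rw [hW]
        exact_mod_cast h1.trans (Nat.le_ceil _)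
      refine le_trans (card_le_card fun p hp => ?_) h2
      rw [mem_filter] at hp ⊢
      refine ⟨hp.1, ?_⟩
      have h3 : (L : ℝ) ^ δ < y + 1 := by rw [hy]; exact Nat.lt_floor_add_one _
      have h4 : (y : ℝ) + 1 ≤ p := by exact_mod_cast hp.2
      linarith)
    exact le_trans (le_of_eq (by congr!)) k5
  have hfin := h.trans (le_trans (le_of_eq (by congr!)) hsum)
  obtain ⟨V, hV⟩ : ∃ V : ℝ, V = ∑ t ∈ T, (SN (P (s0 + m * t.1) t.2) (Q (s0 + m * t.1) t.2)) ^ s :=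
    ⟨_, rfl⟩
  rw [← hV] at hfin ⊢
  rw [← he] at hfin
  have hlX0 : 0 < Real.log X := by linarith
  have k1 : M ≤ (Real.log X) ^ (ε / 2) := hL1 X (by omega)
  have k2 := log_cmp e hlL hlX hlX2
  have k3 : (Real.log X) ^ e = (Real.log X) ^ (ε / 2) * (Real.log X) ^ ((2 ^ s - 1) * gg -
      (1 - 2 ^ (-s)) * bb - ε) := by
    rw [← Real.rpow_add hlX0, he]
    congr 1
    ring
  obtain ⟨R, hR⟩ : ∃ R : ℝ, R = (Real.log X) ^ ((2 ^ s - 1) * gg - (1 - 2 ^ (-s)) * bb - ε) :=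
    ⟨_, rfl⟩
  rw [← hR] at k3 ⊢
  have hR0 : 0 ≤ R := by rw [hR]; positivity
  have k4 : M * ((X : ℝ) ^ 2 * R) ≤ M * V := by
    calc M * ((X : ℝ) ^ 2 * R) ≤ (Real.log X) ^ (ε / 2) * ((X : ℝ) ^ 2 * R) :=
          mul_le_mul_of_nonneg_right k1 (by positivity)
      _ = (X : ℝ) ^ 2 * (Real.log X) ^ e := by rw [k3]; ring
      _ ≤ (X : ℝ) ^ 2 * (2 ^ |e| * (Real.log L) ^ e) := mul_le_mul_of_nonneg_left k2 (by positivity)
      _ = 2 ^ |e| * ((X : ℝ) ^ 2 * (Real.log L) ^ e) := by ring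
      _ ≤ 2 ^ |e| * (2 ^ (s * ((z : ℝ) + W + 11)) * V) :=
          mul_le_mul_of_nonneg_left hfin (by positivity)
      _ = M * V := by rw [hM]; ring
  exact le_of_mul_le_mul_left k4 hM0

end Pool.Agent.N870.EC
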