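import Mathlib
import Pool.Agent.N870.EC.En1b
import Pool.Agent.R421.NR.Par

/-!
# Project EC: the lower bound for the moments in a pencil

Seat helper870.
-/

set_option autoImplicit false

namespace Pool.Agent.N870.EC

open Finset Polynomial Filter Pool.Agent.W262.RK Pool.Agent.TH841.PT

open scoped Classical

open Pool.Agent.H474R2.PG (rho)
open Pool.Agent.W307.SE (Loc Sel SN SN_nonneg sel_fin)
open Pool.Agent.N870.SQ (Lev Adm)
open Pool.Agent.TH841.TR (SqM)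

/-- the integers of an interval are equidistributed modulo all integers up to its length -/
lemma lev_int (N : ℤ) (M : ℕ) (hM : 1 ≤ M) : Lev M M (fun i => N + (i : ℤ)) := by
  intro m hm _ r
  have hM0 : (0 : ℝ) < M := by exact_mod_cast hM
  rw [div_self hM0.ne']
  have hm0 : (0 : ℤ) < m := by exact_mod_cast hm
  have h1 : (((Icc 1 M).filter (fun i : ℕ => (m : ℤ) ∣ (N + (i : ℤ)) - r)).card : ℤ) =
      ((Ioc (0 : ℤ) M).filter (fun x : ℤ => x ≡ r - N [ZMOD m])).card := by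
    congr 1
    apply card_bij (fun (i : ℕ) _ => (i : ℤ))
    · intro i hi
      rw [mem_filter, mem_Icc] at hi
      rw [mem_filter, mem_Ioc]
      refine ⟨⟨by omega, by omega⟩, ?_⟩
      have h2 : (r - N : ℤ) ≡ i [ZMOD m] := by
        rw [Int.modEq_iff_dvd]
        have : (i : ℤ) - (r - N) = N + i - r := by ring
        rw [this]
        exact hi.2
      exact h2.symm
    · intro i _ j _ h
      exact_mod_cast h
    · intro x hx
      rw [mem_filter, mem_Ioc] at hx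
      refine ⟨x.toNat, ?_, by simp; omega⟩
      have hx0 : ((x.toNat : ℕ) : ℤ) = x := Int.toNat_of_nonneg (by omega)
      rw [mem_filter, mem_Icc]
      refine ⟨⟨by omega, by omega⟩, ?_⟩
      rw [hx0]
      have h2 := hx.2.symm
      rw [Int.modEq_iff_dvd] at h2
      have : N + x - r = x - (r - N) := by ring
      rw [this]
      exact h2
  have h2 := Int.Ioc_filter_modEq_card (0 : ℤ) (M : ℤ) hm0 (r - N)
  rw [← h1] at h2
  obtain ⟨c, hc⟩ : ∃ c : ℕ, c = ((Icc 1 M).filter (fun i : ℕ => (m : ℤ) ∣ (N + (i : ℤ)) - r)).card :=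
    ⟨_, rfl⟩
  have hcd : (((Icc 1 M).filter (fun i : ℕ => (m : ℤ) ∣ (fun i : ℕ => N + (i : ℤ)) i - r)).card : ℝ) =
      c := by rw [hc]
  rw [hcd]
  rw [← hc] at h2
  have hle : ⌊((0 : ℤ) - (r - N : ℤ) : ℚ) / ((m : ℤ) : ℚ)⌋ ≤
      ⌊((M : ℤ) - (r - N : ℤ) : ℚ) / ((m : ℤ) : ℚ)⌋ := by
    apply Int.floor_le_floor
    apply div_le_div_of_nonneg_right _ (by positivity)
    push_cast
    have : (0 : ℚ) ≤ (M : ℚ) := by positivity
    linarith
  rw [max_eq_left (by push_cast at hle ⊢; linarith)] at h2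
  have hmr : (0 : ℚ) < ((m : ℤ) : ℚ) := by exact_mod_cast hm0
  have f1 := Int.floor_le (((M : ℤ) - (r - N : ℤ) : ℚ) / ((m : ℤ) : ℚ))
  have f2 := Int.lt_floor_add_one (((M : ℤ) - (r - N : ℤ) : ℚ) / ((m : ℤ) : ℚ))
  have f3 := Int.floor_le (((0 : ℤ) - (r - N : ℤ) : ℚ) / ((m : ℤ) : ℚ))
  have f4 := Int.lt_floor_add_one (((0 : ℤ) - (r - N : ℤ) : ℚ) / ((m : ℤ) : ℚ))
  have hq : (c : ℚ) = (⌊((M : ℤ) - (r - N : ℤ) : ℚ) / ((m : ℤ) : ℚ)⌋ : ℚ) -
      (⌊((0 : ℤ) - (r - N : ℤ) : ℚ) / ((m : ℤ) : ℚ)⌋ : ℚ) := by exact_mod_cast h2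
  have hsub : ((M : ℤ) - (r - N : ℤ) : ℚ) / ((m : ℤ) : ℚ) -
      ((0 : ℤ) - (r - N : ℤ) : ℚ) / ((m : ℤ) : ℚ) = (M : ℚ) / (m : ℚ) := by
    push_cast
    ring
  have hq2 : |(c : ℚ) - (M : ℚ) / (m : ℚ)| ≤ 1 := by
    rw [abs_le]
    constructor <;> linarith
  have : ((|(c : ℚ) - (M : ℚ) / (m : ℚ)| : ℚ) : ℝ) ≤ 1 := by exact_mod_cast hq2
  push_cast at this
  exact this

/-- the intervals are admissible -/
lemma adm_int (L : ℕ) (N : ℤ) (M : ℕ) (hM : 2 ≤ M) (hN : |N| ≤ (M : ℤ) ^ L) :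
    Adm (L + 2) M M (fun i => N + (i : ℤ)) := by
  refine ⟨hM, lev_int N M (by omega), fun i hi => ?_⟩
  rw [mem_Icc] at hi
  have h1 : (N.natAbs : ℤ) ≤ (M : ℤ) ^ L := by rwa [Int.natCast_natAbs]
  have h2 : N.natAbs ≤ M ^ L := by exact_mod_cast h1
  calc (N + (i : ℤ)).natAbs ≤ N.natAbs + (i : ℤ).natAbs := Int.natAbs_add_le _ _
    _ ≤ M ^ L + M := Nat.add_le_add h2 (by simp; exact hi.2)
    _ ≤ M ^ (L + 1) + M ^ (L + 1) := Nat.add_le_add (Nat.pow_le_pow_right (by omega) (by omega))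
        (by calc M = M ^ 1 := (pow_one M).symm
              _ ≤ M ^ (L + 1) := Nat.pow_le_pow_right (by omega) (by omega))
    _ = M ^ (L + 1) * 2 := by ring
    _ ≤ M ^ (L + 1) * M := Nat.mul_le_mul_left _ hM
    _ = M ^ (L + 2) := by ring

lemma gm_mono {f g w : ℤ[X]} (h : f ∣ g) (p : ℕ) : gm f w p ≤ gm g w p := by
  unfold gm
  refine card_le_card fun x hx => ?_
  rw [mem_filter] at hx ⊢
  exact ⟨hx.1, dvd_trans hx.2.1 (eval_dvd h), hx.2.2⟩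

/-- the lower bound for the polynomials with given factors -/
theorem low1 (hmp : S_MERP) (hm2 : S_MER2) (A B : ℤ[X]) (hA : A ≠ 0) (hB : B ≠ 0)
    (hAB : A - B ≠ 0) {ι κ : Type} [Fintype ι] [Fintype κ] (f : ι → ℤ[X]) (g : κ → ℤ[X])
    (r c : ℤ) (K : ℕ) (hr : r ≠ 0) (hc : c ≠ 0)
    (hf : ∀ i, Irreducible (f i) ∧ 0 < (f i).natDegree)
    (hf' : ∀ i j, i ≠ j → ¬ Associated (f i) (f j)) (hfA : ∀ i, ¬ f i ∣ A)
    (hg : ∀ i, Irreducible (g i) ∧ 0 < (g i).natDegree)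
    (h1 : C r * ∏ i, f i ∣ A - B) (h2 : A * B ∣ C c * (∏ i, g i) ^ K)
    (s ε : ℝ) (hs : 0 < s) (hε : 0 < ε) (Bd : ℕ) :
    ∃ L0 : ℕ, ∀ (X L : ℕ) (α : ℕ → ℤ), Adm Bd X L α → L0 ≤ L →
      (X : ℝ) * (Real.log L) ^ ((2 ^ s - 1) * (((Fintype.card ι : ℝ) +
        ((univ.filter (fun i => SqM (f i) A)).card : ℝ)) / 2) -
        (1 - 2 ^ (-s)) * (Fintype.card κ : ℝ) - ε) ≤
        ∑ i ∈ (Icc 1 X).filter (fun i => A.eval (α i) ≠ 0 ∧ B.eval (α i) ≠ 0 ∧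
          A.eval (α i) ≠ B.eval (α i)), (SN (A.eval (α i)) (B.eval (α i))) ^ s := by
  refine en1 A B hA hB hAB _ _ (by positivity) (by positivity) ?_ ?_ s ε hs hε Bd
  · obtain ⟨z0, hz0⟩ := hmp ι f r A hr hf hf' hfA
    refine ⟨z0, fun z hz => ?_⟩
    obtain ⟨K1, hK1⟩ := hz0 z hz
    refine ⟨K1, fun y hy => (hK1 y hy).trans (sum_le_sum fun p _ => ?_)⟩
    refine div_le_div_of_nonneg_right ?_ (Nat.cast_nonneg _)
    exact_mod_cast gm_mono h1 p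
  · exact hm2 κ g (A * B) c K hc hg h2

end Pool.Agent.N870.EC
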