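import Mathlib
import Pool.Agent.N870.EC.Pen

/-!
# Project EC: the lower bound for the moments in a pencil, ranks and Tate-Shafarevich groups

Seat helper870.
-/

set_option autoImplicit false

namespace Pool.Agent.N870.EC

open Finset Polynomial Filter Pool.Agent.W262.RK

open Pool.Agent.TH841.PT (EQ)

open scoped Classical

open Pool.Agent.H474R2.PG (rho)
open Pool.Agent.W307.SE (Loc Sel SN SN_nonneg sel_fin)
open Pool.Agent.N870.SQ (Lev Adm)
open Pool.Agent.TH841.TR (SqM UP)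
open Pool.Agent.TH841.SH.D (rk ShaTor)

lemma sum_int (S : ℤ → ℝ) (Q : ℤ → Prop) (N : ℤ) (M : ℕ) :
    ∑ i ∈ (Icc 1 M).filter (fun i : ℕ => Q (N + (i : ℤ))), S (N + (i : ℤ)) =
      ∑ t ∈ (Ioc N (N + M)).filter Q, S t := by
  apply sum_bij (fun (i : ℕ) _ => N + (i : ℤ))
  · intro i hi
    rw [mem_filter, mem_Icc] at hi
    rw [mem_filter, mem_Ioc]
    exact ⟨⟨by omega, by omega⟩, hi.2⟩
  · intro i _ j _ h
    have : (i : ℤ) = j := by linarith
    exact_mod_cast this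
  · intro t ht
    rw [mem_filter, mem_Ioc] at ht
    have h0 : (((t - N).toNat : ℕ) : ℤ) = t - N := Int.toNat_of_nonneg (by omega)
    refine ⟨(t - N).toNat, ?_, by rw [h0]; ring⟩
    rw [mem_filter, mem_Icc]
    refine ⟨⟨by omega, by omega⟩, ?_⟩
    rw [h0, add_sub_cancel]
    exact ht.2
  · intro i _
    rfl

lemma not_dvd_const {f : ℤ[X]} (hf : 0 < f.natDegree) {a : ℤ} (ha : a ≠ 0) : ¬ f ∣ C a := by
  intro h
  have h1 := natDegree_le_of_dvd h (C_ne_zero.2 ha)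
  rw [natDegree_C] at h1
  omega

variable {n : Fin 3 → ℕ}

lemma UP_ne {a : Fin 3 → ℤ} {f : ∀ k : Fin 3, Fin (n k) → ℤ[X]} (ha : ∀ k, a k ≠ 0)
    (hf : ∀ k i, Irreducible (f k i) ∧ 0 < (f k i).natDegree) (k : Fin 3) : UP a f k ≠ 0 :=
  mul_ne_zero (C_ne_zero.2 (ha k)) (prod_ne_zero_iff.2 fun i _ => (hf k i).1.ne_zero)

lemma not_dvd_UP {a : Fin 3 → ℤ} {f : ∀ k : Fin 3, Fin (n k) → ℤ[X]} (ha : ∀ k, a k ≠ 0)
    (hf : ∀ k i, Irreducible (f k i) ∧ 0 < (f k i).natDegree)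
    (hf' : ∀ k i l j, (⟨k, i⟩ : Σ k : Fin 3, Fin (n k)) ≠ ⟨l, j⟩ → ¬ Associated (f k i) (f l j))
    {k l : Fin 3} (hkl : k ≠ l) (i : Fin (n k)) : ¬ f k i ∣ UP a f l := by
  intro h
  have hp : Prime (f k i) := (hf k i).1.prime
  rcases hp.dvd_or_dvd h with h1 | h1
  · exact not_dvd_const (hf k i).2 (ha l) h1
  · rw [hp.dvd_finsetProd_iff] at h1
    obtain ⟨j, _, hj⟩ := h1
    refine hf' k i l j ?_ ((hf k i).1.associated_of_dvd (hf l j).1 hj)
    intro h2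
    exact hkl (congrArg Sigma.fst h2)

lemma not_dvd_DUP {a : Fin 3 → ℤ} {f : ∀ k : Fin 3, Fin (n k) → ℤ[X]} (ha : ∀ k, a k ≠ 0)
    (hf : ∀ k i, Irreducible (f k i) ∧ 0 < (f k i).natDegree)
    (hf' : ∀ k i l j, (⟨k, i⟩ : Σ k : Fin 3, Fin (n k)) ≠ ⟨l, j⟩ → ¬ Associated (f k i) (f l j))
    {D : ℤ[X]} (hDf : ∀ k i, ¬ f k i ∣ D)
    {k l : Fin 3} (hkl : k ≠ l) (i : Fin (n k)) : ¬ f k i ∣ D * UP a f l := by
  intro h
  rcases (hf k i).1.prime.dvd_or_dvd h with h1 | h1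
  · exact hDf k i h1
  · exact not_dvd_UP ha hf hf' hkl i h1

/-- the factors of the product of two of the polynomials -/
noncomputable def gfam {m : ℕ} (g : Fin m → ℤ[X]) (f : ∀ k : Fin 3, Fin (n k) → ℤ[X])
    (k l : Fin 3) : Fin m ⊕ (Fin (n k) ⊕ Fin (n l)) → ℤ[X] :=
  Sum.elim g (Sum.elim (f k) (f l))

lemma gfam_prod {m : ℕ} (g : Fin m → ℤ[X]) (f : ∀ k : Fin 3, Fin (n k) → ℤ[X])
    (k l : Fin 3) : ∏ i, gfam g f k l i = (∏ i, g i) * ((∏ i, f k i) * ∏ i, f l i) := by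
  unfold gfam
  rw [Fintype.prod_sum_type, Fintype.prod_sum_type]
  rfl

lemma gfam_dvd {m : ℕ} {g : Fin m → ℤ[X]} {f : ∀ k : Fin 3, Fin (n k) → ℤ[X]}
    {a : Fin 3 → ℤ} {D : ℤ[X]} {c : ℤ} {K : ℕ} (hDg : D ∣ C c * (∏ i, g i) ^ K) (k l : Fin 3) :
    (D * UP a f k) * (D * UP a f l) ∣
      C (c ^ 2 * (a k * a l)) * (∏ i, gfam g f k l i) ^ (2 * K + 1) := by
  rw [gfam_prod]
  have h1 : (D * UP a f k) * (D * UP a f l) = D * D * (C (a k) * C (a l) *
      ((∏ i, f k i) * ∏ i, f l i)) := by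
    unfold UP
    ring
  have h2 : C (c ^ 2 * (a k * a l)) * ((∏ i, g i) * ((∏ i, f k i) * ∏ i, f l i)) ^ (2 * K + 1) =
      (C c * (∏ i, g i) ^ K) * (C c * (∏ i, g i) ^ K) * (C (a k) * C (a l) *
      (((∏ i, f k i) * ∏ i, f l i) * (((∏ i, f k i) * ∏ i, f l i) ^ (2 * K) * (∏ i, g i)))) := by
    rw [C_mul, C_mul, C_pow]
    ring
  rw [h1, h2]
  exact mul_dvd_mul (mul_dvd_mul hDg hDg) (mul_dvd_mul_left _ (Dvd.intro _ rfl))

/-- the lower bound for a pair of polynomials whose groups are those of `EQ P Q` -/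
lemma low2 (hpw : S_PW) (P Q A B : ℤ[X]) (e : ℝ)
    (hne : ∀ t : ℤ, (A.eval t ≠ 0 ∧ B.eval t ≠ 0 ∧ A.eval t ≠ B.eval t) →
      (P.eval t ≠ 0 ∧ Q.eval t ≠ 0 ∧ P.eval t ≠ Q.eval t))
    (hSN : ∀ t : ℤ, SN (A.eval t) (B.eval t) = SN (P.eval t) (Q.eval t)) (s : ℝ) (hs : 0 < s)
    (h : ∀ (ε : ℝ), 0 < ε → ∀ Bd : ℕ,
      ∃ L0 : ℕ, ∀ (X L : ℕ) (α : ℕ → ℤ), Adm Bd X L α → L0 ≤ L →
      (X : ℝ) * (Real.log L) ^ (e - ε) ≤
        ∑ i ∈ (Icc 1 X).filter (fun i => A.eval (α i) ≠ 0 ∧ B.eval (α i) ≠ 0 ∧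
          A.eval (α i) ≠ B.eval (α i)), (SN (A.eval (α i)) (B.eval (α i))) ^ s)
    (ε : ℝ) (hε : 0 < ε) (L : ℕ) :
    ∃ M0 : ℕ, ∀ (N : ℤ) (M : ℕ), M0 ≤ M → |N| ≤ (M : ℤ) ^ L →
      (M : ℝ) * (Real.log M) ^ (e - ε) ≤
        ∑ t ∈ (Ioc N (N + M)).filter (fun t : ℤ => A.eval t ≠ 0 ∧ B.eval t ≠ 0 ∧
          A.eval t ≠ B.eval t), ((2 : ℝ) ^ rk (EQ (P.eval t) (Q.eval t)) *
            (Nat.card (ShaTor (EQ (P.eval t) (Q.eval t)) 2) : ℝ)) ^ s := by
  obtain ⟨L0, hL0⟩ := h (ε / 2) (by positivity) (L + 2)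
  obtain ⟨L1, hL1⟩ := eventually_atTop.1 (((tendsto_rpow_atTop (show 0 < ε / 2 by positivity)).comp
    (Real.tendsto_log_atTop.comp (tendsto_natCast_atTop_atTop (R := ℝ)))).eventually_ge_atTop
    ((4 : ℝ) ^ s))
  refine ⟨L0 + L1 + 3, fun N M hM hN => ?_⟩
  have h1 := hL0 M M _ (adm_int L N M (by omega) hN) (by omega)
  have hMr : (3 : ℝ) ≤ M := by exact_mod_cast (by omega : 3 ≤ M)
  have hlM : 1 < Real.log M := by
    rw [Real.lt_log_iff_exp_lt (by linarith)]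
    have := Real.exp_one_lt_d9
    linarith
  have h2 := sum_int (fun t => (SN (A.eval t) (B.eval t)) ^ s) (fun t : ℤ => A.eval t ≠ 0 ∧
    B.eval t ≠ 0 ∧ A.eval t ≠ B.eval t) N M
  have h3 : (M : ℝ) * (Real.log M) ^ (e - ε / 2) ≤
      ∑ t ∈ (Ioc N (N + M)).filter (fun t : ℤ => A.eval t ≠ 0 ∧ B.eval t ≠ 0 ∧
          A.eval t ≠ B.eval t), (SN (A.eval t) (B.eval t)) ^ s := by
    refine h1.trans (le_of_eq (Eq.trans ?_ (h2.trans ?_)))
    · exact sum_congr (by congr!) fun _ _ => rfl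
    · exact sum_congr (by congr!) fun _ _ => rfl
  have h4 : ∑ t ∈ (Ioc N (N + M)).filter (fun t : ℤ => A.eval t ≠ 0 ∧ B.eval t ≠ 0 ∧
          A.eval t ≠ B.eval t), (SN (A.eval t) (B.eval t)) ^ s ≤
      4 ^ s * ∑ t ∈ (Ioc N (N + M)).filter (fun t : ℤ => A.eval t ≠ 0 ∧ B.eval t ≠ 0 ∧
          A.eval t ≠ B.eval t), ((2 : ℝ) ^ rk (EQ (P.eval t) (Q.eval t)) *
            (Nat.card (ShaTor (EQ (P.eval t) (Q.eval t)) 2) : ℝ)) ^ s := by
    rw [mul_sum]
    refine sum_le_sum fun t ht => ?_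
    obtain ⟨k1, k2, k3⟩ := hne t (mem_filter.1 ht).2
    rw [← Real.mul_rpow (by norm_num) (by positivity), hSN t]
    exact Real.rpow_le_rpow (SN_nonneg _ _) (hpw _ _ k1 k2 k3) hs.le
  obtain ⟨V, hV⟩ : ∃ V : ℝ, V = ∑ t ∈ (Ioc N (N + M)).filter (fun t : ℤ => A.eval t ≠ 0 ∧
    B.eval t ≠ 0 ∧ A.eval t ≠ B.eval t), ((2 : ℝ) ^ rk (EQ (P.eval t) (Q.eval t)) *
            (Nat.card (ShaTor (EQ (P.eval t) (Q.eval t)) 2) : ℝ)) ^ s := ⟨_, rfl⟩
  rw [← hV] at h4 ⊢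
  have h5 := h3.trans h4
  have hl0 : 0 < Real.log M := by linarith
  have k1 : (Real.log M) ^ (e - ε / 2) = (Real.log M) ^ (ε / 2) * (Real.log M) ^ (e - ε) := by
    rw [← Real.rpow_add hl0]
    congr 1
    ring
  rw [k1] at h5
  have k2 : (4 : ℝ) ^ s ≤ (Real.log M) ^ (ε / 2) := hL1 M (by omega)
  have k3 := mul_le_mul_of_nonneg_right k2
    (show (0 : ℝ) ≤ (M : ℝ) * (Real.log M) ^ (e - ε) by positivity)
  have k4 : (4 : ℝ) ^ s * ((M : ℝ) * (Real.log M) ^ (e - ε)) ≤ 4 ^ s * V := by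
    refine k3.trans (le_trans (le_of_eq ?_) h5)
    ring
  exact le_of_mul_le_mul_left k4 (by positivity)

/-- the squares at the node, modulo the factors of `u_k` -/
noncomputable def vk (D : ℤ[X]) (a : Fin 3 → ℤ) (f : ∀ k : Fin 3, Fin (n k) → ℤ[X]) :
    Fin 3 → ℤ[X] := ![-(D * UP a f 1), -(D * UP a f 0), D * UP a f 0]

/-- the number of the split factors of `u_k` -/
noncomputable def sk (D : ℤ[X]) (a : Fin 3 → ℤ) (f : ∀ k : Fin 3, Fin (n k) → ℤ[X])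
    (k : Fin 3) : ℕ := (univ.filter (fun i => SqM (f k i) (vk D a f k))).card

/-- **the lower bound for all the moments in a pencil** -/
theorem pen_low (hpw : S_PW) (hmp : S_MERP) (hm2 : S_MER2)
    (a : Fin 3 → ℤ) (f : ∀ k : Fin 3, Fin (n k) → ℤ[X]) (D : ℤ[X])
    (ha : ∀ k, a k ≠ 0) (hf : ∀ k i, Irreducible (f k i) ∧ 0 < (f k i).natDegree)
    (hf' : ∀ k i l j, (⟨k, i⟩ : Σ k : Fin 3, Fin (n k)) ≠ ⟨l, j⟩ → ¬ Associated (f k i) (f l j))
    (hU : UP a f 0 - UP a f 1 = UP a f 2) (hD : D ≠ 0) (hDf : ∀ k i, ¬ f k i ∣ D)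
    {m : ℕ} (g : Fin m → ℤ[X]) (hg : ∀ j, Irreducible (g j) ∧ 0 < (g j).natDegree)
    (c : ℤ) (K : ℕ) (hc : c ≠ 0) (hDg : D ∣ C c * (∏ i, g i) ^ K)
    (s ε : ℝ) (hs : 0 < s) (hε : 0 < ε) (L : ℕ) (k : Fin 3) :
    ∃ M0 : ℕ, ∀ (N : ℤ) (M : ℕ), M0 ≤ M → |N| ≤ (M : ℤ) ^ L →
      (M : ℝ) * (Real.log M) ^ ((2 ^ s - 1) * (((n k : ℝ) + sk D a f k) / 2) -
        (1 - 2 ^ (-s)) * ((n 0 + n 1 + n 2 - n k + m : ℝ)) - ε) ≤
        ∑ t ∈ (Ioc N (N + M)).filter (fun t : ℤ => ∀ l, (D * UP a f l).eval t ≠ 0),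
          ((2 : ℝ) ^ rk (EQ ((D * UP a f 0).eval t) ((D * UP a f 1).eval t)) *
            (Nat.card (ShaTor (EQ ((D * UP a f 0).eval t) ((D * UP a f 1).eval t)) 2) : ℝ)) ^ s := by
  have hne : ∀ l, D * UP a f l ≠ 0 := fun l => mul_ne_zero hD (UP_ne ha hf l)
  have hsub : D * UP a f 0 - D * UP a f 1 = D * UP a f 2 := by rw [← mul_sub, hU]
  have hev : ∀ t : ℤ, (D * UP a f 0).eval t - (D * UP a f 1).eval t = (D * UP a f 2).eval t :=
    fun t => by rw [← hsub, eval_sub]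
  have hgf : ∀ k l i, Irreducible (gfam g f k l i) ∧ 0 < (gfam g f k l i).natDegree := by
    intro k l i
    rcases i with i | i | i
    · exact hg i
    · exact hf k i
    · exact hf l i
  have hcc : ∀ k l, c ^ 2 * (a k * a l) ≠ 0 := fun k l =>
    mul_ne_zero (pow_ne_zero _ hc) (mul_ne_zero (ha k) (ha l))
  have hff : ∀ k i j, i ≠ j → ¬ Associated (f k i) (f k j) := by
    intro k i j hij
    refine hf' k i k j fun h => hij ?_
    simpa using h
  have hcard : ∀ k l, (Fintype.card (Fin m ⊕ (Fin (n k) ⊕ Fin (n l))) : ℝ) = n k + n l + m := by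
    intro k l
    rw [Fintype.card_sum, Fintype.card_sum, Fintype.card_fin, Fintype.card_fin, Fintype.card_fin]
    push_cast
    ring
  have hdv : ∀ l, C (a l) * ∏ i, f l i ∣ D * UP a f l := fun l => dvd_mul_left _ _
  have hset : ∀ (A B : ℤ[X]), (∀ t : ℤ, (A.eval t ≠ 0 ∧ B.eval t ≠ 0 ∧ A.eval t ≠ B.eval t) ↔
      ∀ l, (D * UP a f l).eval t ≠ 0) → ∀ (N : ℤ) (M : ℕ),
      (Ioc N (N + M)).filter (fun t : ℤ => A.eval t ≠ 0 ∧ B.eval t ≠ 0 ∧
        A.eval t ≠ B.eval t) =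
      (Ioc N (N + M)).filter (fun t : ℤ => ∀ l, (D * UP a f l).eval t ≠ 0) := by
    intro A B h N M
    exact filter_congr fun t _ => h t
  have hall : ∀ t : ℤ, (∀ l, (D * UP a f l).eval t ≠ 0) ↔ (D * UP a f 0).eval t ≠ 0 ∧
      (D * UP a f 1).eval t ≠ 0 ∧ (D * UP a f 2).eval t ≠ 0 := fun t =>
    ⟨fun h => ⟨h 0, h 1, h 2⟩, fun h l => by fin_cases l; exacts [h.1, h.2.1, h.2.2]⟩
  fin_cases k
  · -- the factors of `u₀`
    have hiff : ∀ t : ℤ, ((-(D * UP a f 1)).eval t ≠ 0 ∧ (D * UP a f 2).eval t ≠ 0 ∧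
        (-(D * UP a f 1)).eval t ≠ (D * UP a f 2).eval t) ↔ ∀ l, (D * UP a f l).eval t ≠ 0 := by
      intro t
      have h0 := hev t
      rw [hall, eval_neg]
      constructor
      · rintro ⟨h1, h2, h3⟩
        refine ⟨fun h => h3 ?_, fun h => h1 ?_, h2⟩
        · linarith
        · linarith
      · rintro ⟨h1, h2, h3⟩
        refine ⟨fun h => h2 ?_, h3, fun h => h1 ?_⟩
        · linarith
        · linarith
    have h := low2 hpw (D * UP a f 1) (D * UP a f 0) (-(D * UP a f 1)) (D * UP a f 2)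
      ((2 ^ s - 1) * (((n 0 : ℝ) + sk D a f 0) / 2) -
        (1 - 2 ^ (-s)) * ((n 0 + n 1 + n 2 - n 0 + m : ℝ)))
      (by
        intro t ht
        rw [hiff, hall] at ht
        refine ⟨ht.2.1, ht.1, fun h => ht.2.2 ?_⟩
        rw [← hev t, h, sub_self])
      (by
        intro t
        rw [← hev t, eval_neg]
        exact Pool.Agent.R421.NR.SN_sw _ _) s hs
      (by
        intro ε hε Bd
        obtain ⟨L0, hL0⟩ := low1 hmp hm2 (-(D * UP a f 1)) (D * UP a f 2)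
          (neg_ne_zero.2 (hne 1)) (hne 2) (by
            have : -(D * UP a f 1) - D * UP a f 2 = -(D * UP a f 0) := by rw [← hsub]; ring
            rw [this]
            exact neg_ne_zero.2 (hne 0)) (f 0) (gfam g f 1 2) (a 0) (c ^ 2 * (a 1 * a 2))
          (2 * K + 1) (ha 0) (hcc 1 2) (hf 0) (hff 0)
          (fun i h => not_dvd_DUP ha hf hf' hDf (show (0 : Fin 3) ≠ 1 by decide) i
            ((dvd_neg).1 h))
          (hgf 1 2) (by
            have : -(D * UP a f 1) - D * UP a f 2 = -(D * UP a f 0) := by rw [← hsub]; ring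
            rw [this, dvd_neg]
            exact hdv 0)
          (by
            rw [neg_mul, neg_dvd]
            exact gfam_dvd hDg 1 2) s ε hs hε Bd
        refine ⟨L0, fun X L α hα hL => le_trans (le_of_eq ?_) (hL0 X L α hα hL)⟩
        rw [hcard]
        congr 3
        have e1 : ((Fintype.card (Fin (n 0)) : ℕ) : ℝ) = n 0 := by rw [Fintype.card_fin]
        rw [e1]
        have e2 : (univ.filter (fun i => SqM (f 0 i) (-(D * UP a f 1)))).card = sk D a f 0 := rfl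
        rw [e2]
        ring) ε hε L
    obtain ⟨M0, hM0⟩ := h
    refine ⟨M0, fun N M hM hN => ?_⟩
    have h1 := hM0 N M hM hN
    rw [hset _ _ hiff] at h1
    refine le_trans h1 (le_of_eq (sum_congr rfl fun t _ => ?_))
    have e3 : ∀ x y : ℤ, EQ x y = EQ y x := by
      intro x y
      unfold EQ
      congr 1
      · ring
      · ring
    rw [e3]
  · have hiff : ∀ t : ℤ, ((-(D * UP a f 0)).eval t ≠ 0 ∧ (-(D * UP a f 2)).eval t ≠ 0 ∧
        (-(D * UP a f 0)).eval t ≠ (-(D * UP a f 2)).eval t) ↔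
        ∀ l, (D * UP a f l).eval t ≠ 0 := by
      intro t
      have h0 := hev t
      rw [hall, eval_neg, eval_neg]
      constructor
      · rintro ⟨h1, h2, h3⟩
        refine ⟨fun h => h1 ?_, fun h => h3 ?_, fun h => h2 ?_⟩
        · linarith
        · linarith
        · linarith
      · rintro ⟨h1, h2, h3⟩
        refine ⟨fun h => h1 ?_, fun h => h3 ?_, fun h => h2 ?_⟩
        · linarith
        · linarith
        · linarith
    have h := low2 hpw (D * UP a f 0) (D * UP a f 1) (-(D * UP a f 0)) (-(D * UP a f 2))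
      ((2 ^ s - 1) * (((n 1 : ℝ) + sk D a f 1) / 2) -
        (1 - 2 ^ (-s)) * ((n 0 + n 1 + n 2 - n 1 + m : ℝ)))
      (by
        intro t ht
        rw [hiff, hall] at ht
        refine ⟨ht.1, ht.2.1, fun h => ht.2.2 ?_⟩
        rw [← hev t, h, sub_self])
      (by
        intro t
        have e4 : (-(D * UP a f 2)).eval t = (D * UP a f 1).eval t - (D * UP a f 0).eval t := by
          rw [eval_neg, ← hev t]
          ring
        rw [e4, eval_neg]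
        exact Pool.Agent.R421.NR.SN_sw _ _) s hs
      (by
        intro ε hε Bd
        have e5 : -(D * UP a f 0) - -(D * UP a f 2) = -(D * UP a f 1) := by rw [← hsub]; ring
        obtain ⟨L0, hL0⟩ := low1 hmp hm2 (-(D * UP a f 0)) (-(D * UP a f 2))
          (neg_ne_zero.2 (hne 0)) (neg_ne_zero.2 (hne 2)) (by
            rw [e5]
            exact neg_ne_zero.2 (hne 1)) (f 1) (gfam g f 0 2) (a 1) (c ^ 2 * (a 0 * a 2))
          (2 * K + 1) (ha 1) (hcc 0 2) (hf 1) (hff 1)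
          (fun i h => not_dvd_DUP ha hf hf' hDf (show (1 : Fin 3) ≠ 0 by decide) i
            ((dvd_neg).1 h))
          (hgf 0 2) (by
            rw [e5, dvd_neg]
            exact hdv 1)
          (by
            rw [neg_mul_neg]
            exact gfam_dvd hDg 0 2) s ε hs hε Bd
        refine ⟨L0, fun X L α hα hL => le_trans (le_of_eq ?_) (hL0 X L α hα hL)⟩
        rw [hcard]
        congr 3
        have e1 : ((Fintype.card (Fin (n 1)) : ℕ) : ℝ) = n 1 := by rw [Fintype.card_fin]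
        rw [e1]
        have e2 : (univ.filter (fun i => SqM (f 1 i) (-(D * UP a f 0)))).card = sk D a f 1 := rfl
        rw [e2]
        ring) ε hε L
    obtain ⟨M0, hM0⟩ := h
    refine ⟨M0, fun N M hM hN => ?_⟩
    have h1 := hM0 N M hM hN
    rw [hset _ _ hiff] at h1
    exact h1
  · have hiff : ∀ t : ℤ, ((D * UP a f 0).eval t ≠ 0 ∧ (D * UP a f 1).eval t ≠ 0 ∧
        (D * UP a f 0).eval t ≠ (D * UP a f 1).eval t) ↔
        ∀ l, (D * UP a f l).eval t ≠ 0 := by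
      intro t
      have h0 := hev t
      rw [hall]
      constructor
      · rintro ⟨h1, h2, h3⟩
        exact ⟨h1, h2, fun h => h3 (by linarith)⟩
      · rintro ⟨h1, h2, h3⟩
        exact ⟨h1, h2, fun h => h3 (by linarith)⟩
    have h := low2 hpw (D * UP a f 0) (D * UP a f 1) (D * UP a f 0) (D * UP a f 1)
      ((2 ^ s - 1) * (((n 2 : ℝ) + sk D a f 2) / 2) -
        (1 - 2 ^ (-s)) * ((n 0 + n 1 + n 2 - n 2 + m : ℝ)))
      (fun t ht => ht) (fun t => rfl) s hs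
      (by
        intro ε hε Bd
        obtain ⟨L0, hL0⟩ := low1 hmp hm2 (D * UP a f 0) (D * UP a f 1)
          (hne 0) (hne 1) (by
            rw [hsub]
            exact hne 2) (f 2) (gfam g f 0 1) (a 2) (c ^ 2 * (a 0 * a 1))
          (2 * K + 1) (ha 2) (hcc 0 1) (hf 2) (hff 2)
          (fun i h => not_dvd_DUP ha hf hf' hDf (show (2 : Fin 3) ≠ 0 by decide) i h)
          (hgf 0 1) (by
            rw [hsub]
            exact hdv 2)
          (gfam_dvd hDg 0 1) s ε hs hε Bd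
        refine ⟨L0, fun X L α hα hL => le_trans (le_of_eq ?_) (hL0 X L α hα hL)⟩
        rw [hcard]
        congr 3
        have e1 : ((Fintype.card (Fin (n 2)) : ℕ) : ℝ) = n 2 := by rw [Fintype.card_fin]
        rw [e1]
        have e2 : (univ.filter (fun i => SqM (f 2 i) (D * UP a f 0))).card = sk D a f 2 := rfl
        rw [e2]
        ring) ε hε L
    obtain ⟨M0, hM0⟩ := h
    refine ⟨M0, fun N M hM hN => ?_⟩
    have h1 := hM0 N M hM hN
    rw [hset _ _ hiff] at h1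
    exact h1

end Pool.Agent.N870.EC
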