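import Mathlib
import Pool.Agent.N870.EC.Pen2
import Pool.Agent.TH841.TR.Fin2
import Pool.Agent.TH841.PM.PenZ
import Pool.Agent.TH841.PM.Fin2

/-!
# Project EC: the dichotomy for the moments in a pencil

Seat helper870.
-/

set_option autoImplicit false

namespace Pool.Agent.N870.EC

open Finset Polynomial Filter Pool.Agent.W262.RK

open Pool.Agent.TH841.PT (EQ Irr)

open scoped Classical

open Pool.Agent.W307.SE (Loc Sel SN SN_nonneg sel_fin)
open Pool.Agent.N870.SQ (Lev Adm LeA)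
open Pool.Agent.TH841.TR (SqM UP fp)
open Pool.Agent.TH841.SH.D (rk ShaTor)

/-- `2 ^ rank * #Ш[2]` of the curve `y² = x (x - A) (x - B)` -/
noncomputable def mw (A B : ℤ) : ℝ := (2 : ℝ) ^ rk (EQ A B) * (Nat.card (ShaTor (EQ A B) 2) : ℝ)

lemma mw_nonneg (A B : ℤ) : 0 ≤ mw A B := by
  unfold mw
  positivity

lemma mw_le {A B : ℤ} (hA : A ≠ 0) (hB : B ≠ 0) (hAB : A ≠ B) : mw A B ≤ SN A B := by
  have h := (Pool.Agent.TH841.PT.bd_EQ hA hB hAB).wt_le (le_refl 1)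
  unfold Pool.Agent.TH841.SH.wt at h
  rw [pow_one, Nat.cast_one, div_one, Real.rpow_one] at h
  exact h

lemma one_le_SN {A B : ℤ} (hA : A ≠ 0) (hB : B ≠ 0) (hAB : A ≠ B) : 1 ≤ SN A B := by
  have h := SN_pos hA hB hAB
  unfold SN at h ⊢
  have h1 : 0 < (Sel A B).ncard := by exact_mod_cast h
  exact_mod_cast h1

/-- the moments of a family of twists by the values of a polynomial are bounded -/
theorem iso_up (a : Fin 3 → ℤ) (ha : ∀ k, a k ≠ 0) (ha2 : a 0 - a 1 = a 2) (D : ℤ[X])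
    (hD : D ≠ 0) (s : ℝ) (hs : 0 < s) (L : ℕ) :
    ∃ C : ℝ, ∀ (N : ℤ) (M : ℕ), 1 ≤ M → |N| ≤ (M : ℤ) ^ L →
      ∑ t ∈ (Ioc N (N + M)).filter (fun t : ℤ => D.eval t ≠ 0),
        (mw (D.eval t * a 0) (D.eval t * a 1)) ^ s ≤ C * M := by
  obtain ⟨D₁, D₂, hfac, hsq⟩ := Pool.Agent.TH841.PT.exists_fac D hD
  obtain ⟨C, hC0, hC⟩ := Pool.Agent.N870.SQ.snA Pool.Agent.N870.SQ.irr_zero a ha ha2 D₁ hsq (L + 2)
    1 one_pos 0 ⌈s⌉₊
  obtain ⟨C1, hC1⟩ : ∃ C1 : ℝ, C1 = ∑ t ∈ Icc (0 : ℤ) 2, (mw (D.eval t * a 0) (D.eval t * a 1)) ^ s :=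
    ⟨_, rfl⟩
  have hC10 : 0 ≤ C1 := by
    rw [hC1]
    exact sum_nonneg fun t _ => Real.rpow_nonneg (mw_nonneg _ _) _
  refine ⟨C + C1, fun N M hM hN => ?_⟩
  have hM0 : (0 : ℝ) ≤ M := Nat.cast_nonneg _
  rcases Nat.lt_or_ge M 2 with h2 | h2
  · have hM1 : M = 1 := by omega
    subst hM1
    simp only [Nat.cast_one, one_pow] at hN
    rw [abs_le] at hN
    calc ∑ t ∈ (Ioc N (N + (1 : ℕ))).filter (fun t : ℤ => D.eval t ≠ 0),
          (mw (D.eval t * a 0) (D.eval t * a 1)) ^ s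
        ≤ C1 := by
          rw [hC1]
          refine sum_le_sum_of_subset_of_nonneg (fun t ht => ?_)
            fun t _ _ => Real.rpow_nonneg (mw_nonneg _ _) _
          rw [mem_filter, mem_Ioc] at ht
          rw [mem_Icc]
          push_cast at ht
          omega
      _ ≤ (C + C1) * (1 : ℕ) := by push_cast; linarith
  · have h := hC M M _ (adm_int L N M h2 hN) ((Icc 1 M).filter (fun i : ℕ =>
      D.eval (N + (i : ℤ)) ≠ 0)) (filter_subset _ _) (by
        intro i hi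
        have h1 := (mem_filter.1 hi).2
        refine ⟨fun h0 => h1 ?_, fun p hp _ _ hdvd => ?_⟩
        · rw [hfac, eval_mul, h0, zero_mul]
        · rw [univ_eq_empty, prod_empty, eval_one] at hdvd
          have := Int.natAbs_dvd_natAbs.2 hdvd
          simp at this
          exact hp.one_lt.ne' this)
    rw [pow_zero, div_one] at h
    calc ∑ t ∈ (Ioc N (N + M)).filter (fun t : ℤ => D.eval t ≠ 0),
          (mw (D.eval t * a 0) (D.eval t * a 1)) ^ s
        = ∑ i ∈ (Icc 1 M).filter (fun i : ℕ => D.eval (N + (i : ℤ)) ≠ 0),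
          (mw (D.eval (N + (i : ℤ)) * a 0) (D.eval (N + (i : ℤ)) * a 1)) ^ s :=
          ((sum_congr (by congr!) fun _ _ => rfl).trans
            (sum_int (fun t => (mw (D.eval t * a 0) (D.eval t * a 1)) ^ s)
            (fun t => D.eval t ≠ 0) N M).symm).trans (sum_congr (by congr!) fun _ _ => rfl)
      _ ≤ ∑ i ∈ (Icc 1 M).filter (fun i : ℕ => D.eval (N + (i : ℤ)) ≠ 0),
          SN (a 0 * D₁.eval (N + (i : ℤ))) (a 1 * D₁.eval (N + (i : ℤ))) ^ ⌈s⌉₊ := by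
          refine sum_le_sum fun i hi => ?_
          have h1 := (mem_filter.1 hi).2
          have h3 : D₂.eval (N + (i : ℤ)) ≠ 0 := by
            intro h0
            apply h1
            rw [hfac, eval_mul, eval_pow, h0]
            ring
          have h4 : D₁.eval (N + (i : ℤ)) ≠ 0 := by
            intro h0
            apply h1
            rw [hfac, eval_mul, h0, zero_mul]
          have h5 : SN (D.eval (N + (i : ℤ)) * a 0) (D.eval (N + (i : ℤ)) * a 1) =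
              SN (a 0 * D₁.eval (N + (i : ℤ))) (a 1 * D₁.eval (N + (i : ℤ))) := by
            have e1 : ∀ k, D.eval (N + (i : ℤ)) * a k =
                (a k * D₁.eval (N + (i : ℤ))) * (D₂.eval (N + (i : ℤ))) ^ 2 := by
              intro k
              rw [hfac, eval_mul, eval_pow]
              ring
            rw [e1, e1, Pool.Agent.TH841.PT.SN_sq h3]
          have h01 : a 0 ≠ a 1 := fun h => ha 2 (by rw [← ha2, h, sub_self])
          have h6 : D.eval (N + (i : ℤ)) * a 0 ≠ 0 := mul_ne_zero h1 (ha 0)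
          have h7 : D.eval (N + (i : ℤ)) * a 1 ≠ 0 := mul_ne_zero h1 (ha 1)
          have h8 : D.eval (N + (i : ℤ)) * a 0 ≠ D.eval (N + (i : ℤ)) * a 1 :=
            fun h => h01 (mul_left_cancel₀ h1 h)
          rw [← h5]
          calc (mw (D.eval (N + (i : ℤ)) * a 0) (D.eval (N + (i : ℤ)) * a 1)) ^ s
              ≤ (SN (D.eval (N + (i : ℤ)) * a 0) (D.eval (N + (i : ℤ)) * a 1)) ^ s :=
                Real.rpow_le_rpow (mw_nonneg _ _) (mw_le h6 h7 h8) hs.le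
            _ ≤ (SN (D.eval (N + (i : ℤ)) * a 0) (D.eval (N + (i : ℤ)) * a 1)) ^ (⌈s⌉₊ : ℝ) :=
                Real.rpow_le_rpow_of_exponent_le (one_le_SN h6 h7 h8) (Nat.le_ceil s)
            _ = _ := Real.rpow_natCast _ _
      _ ≤ C * M := h
      _ ≤ (C + C1) * M := by
          have : 0 ≤ C1 * M := by positivity
          linarith

/-- the factorization of a polynomial -/
lemma exists_factors (D : ℤ[X]) (hD : D ≠ 0) : ∃ (m : ℕ) (c : ℤ) (K : ℕ) (g : Fin m → ℤ[X]),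
    c ≠ 0 ∧ (∀ j, Irreducible (g j) ∧ 0 < (g j).natDegree) ∧ D ∣ C c * (∏ i, g i) ^ K := by
  induction D using WfDvdMonoid.induction_on_irreducible with
  | zero => exact absurd rfl hD
  | unit u hu => exact ⟨0, 1, 0, fun i => i.elim0, one_ne_zero, fun j => j.elim0, hu.dvd⟩
  | mul a i ha hi ih =>
    obtain ⟨m, c, K, g, hc, hg, hd⟩ := ih ha
    rcases Nat.eq_zero_or_pos i.natDegree with h | h
    · obtain ⟨q, hq⟩ : ∃ q : ℤ, i = C q := ⟨_, eq_C_of_natDegree_eq_zero h⟩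
      have hq0 : q ≠ 0 := by
        rintro rfl
        rw [C_0] at hq
        exact hi.ne_zero hq
      refine ⟨m, q * c, K, g, mul_ne_zero hq0 hc, hg, ?_⟩
      rw [hq, C_mul, mul_assoc]
      exact mul_dvd_mul_left _ hd
    · refine ⟨m + 1, c, K + 1, Fin.cons i g, hc, ?_, ?_⟩
      · intro j
        refine Fin.cases ?_ (fun j => ?_) j
        · rw [Fin.cons_zero]
          exact ⟨hi, h⟩
        · rw [Fin.cons_succ]
          exact hg j
      · rw [Fin.prod_univ_succ, Fin.cons_zero]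
        simp only [Fin.cons_succ]
        have e1 : C c * (i * ∏ j, g j) ^ (K + 1) =
            (i * (C c * (∏ j, g j) ^ K)) * (i ^ K * ∏ j, g j) := by ring
        rw [e1]
        exact dvd_mul_of_dvd_left (mul_dvd_mul_left _ hd) _

variable {n : Fin 3 → ℕ}

/-- the moment of order `s` is bounded -/
def BM (D : ℤ[X]) (a : Fin 3 → ℤ) (f : ∀ k : Fin 3, Fin (n k) → ℤ[X]) (s : ℝ) : Prop :=
  ∀ L : ℕ, ∃ C : ℝ, ∀ (N : ℤ) (M : ℕ), 1 ≤ M → |N| ≤ (M : ℤ) ^ L →
    ∑ t ∈ (Ioc N (N + M)).filter (fun t : ℤ => ∀ l, (D * UP a f l).eval t ≠ 0),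
      (mw ((D * UP a f 0).eval t) ((D * UP a f 1).eval t)) ^ s ≤ C * M

lemma le_sum3 (n : Fin 3 → ℕ) (k : Fin 3) : (n k : ℝ) ≤ n 0 + n 1 + n 2 := by
  have : n k ≤ n 0 + n 1 + n 2 := by
    fin_cases k
    · show n 0 ≤ _
      omega
    · show n 1 ≤ _
      omega
    · show n 2 ≤ _
      omega
  exact_mod_cast this

/-- a lower bound by a positive power of the logarithm excludes boundedness -/
lemma not_BM {D : ℤ[X]} {a : Fin 3 → ℤ} {f : ∀ k : Fin 3, Fin (n k) → ℤ[X]} {s e : ℝ} (he : 0 < e)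
    (h : ∀ L : ℕ, ∃ M0 : ℕ, ∀ (N : ℤ) (M : ℕ), M0 ≤ M → |N| ≤ (M : ℤ) ^ L →
      (M : ℝ) * (Real.log M) ^ e ≤
        ∑ t ∈ (Ioc N (N + M)).filter (fun t : ℤ => ∀ l, (D * UP a f l).eval t ≠ 0),
          (mw ((D * UP a f 0).eval t) ((D * UP a f 1).eval t)) ^ s) : ¬ BM D a f s := by
  intro hb
  obtain ⟨C, hC⟩ := hb 0
  obtain ⟨M0, hM0⟩ := h 0
  obtain ⟨L1, hL1⟩ := eventually_atTop.1 (((tendsto_rpow_atTop he).comp
    (Real.tendsto_log_atTop.comp (tendsto_natCast_atTop_atTop (R := ℝ)))).eventually_ge_atTop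
    (C + 1))
  obtain ⟨M, hM⟩ : ∃ M : ℕ, M = M0 + L1 + 1 := ⟨_, rfl⟩
  have h1 := hM0 0 M (by omega) (by simp)
  have h2 := hC 0 M (by omega) (by simp)
  have h3 : C + 1 ≤ (Real.log M) ^ e := hL1 M (by omega)
  have h4 : (0 : ℝ) < M := by exact_mod_cast (by omega : 0 < M)
  have h5 := mul_le_mul_of_nonneg_left h3 h4.le
  nlinarith [h1.trans h2]

section

variable (hpw : S_PW) (hmp : S_MERP) (hm2 : S_MER2)
    (a : Fin 3 → ℤ) (f : ∀ k : Fin 3, Fin (n k) → ℤ[X]) (D : ℤ[X])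
    (ha : ∀ k, a k ≠ 0) (hf : ∀ k i, Irreducible (f k i) ∧ 0 < (f k i).natDegree)
    (hf' : ∀ k i l j, (⟨k, i⟩ : Σ k : Fin 3, Fin (n k)) ≠ ⟨l, j⟩ → ¬ Associated (f k i) (f l j))
    (hU : UP a f 0 - UP a f 1 = UP a f 2) (hD : D ≠ 0) (hDf : ∀ k i, ¬ f k i ∣ D)

include hpw hmp hm2 ha hf hf' hU hD hDf

/-- a moment with a positive exponent is not bounded -/
lemma not_BM_of {m : ℕ} (g : Fin m → ℤ[X]) (hg : ∀ j, Irreducible (g j) ∧ 0 < (g j).natDegree)
    (c : ℤ) (K : ℕ) (hc : c ≠ 0) (hDg : D ∣ C c * (∏ i, g i) ^ K)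
    (s : ℝ) (hs : 0 < s) (k : Fin 3)
    (he : 0 < (2 ^ s - 1) * (((n k : ℝ) + sk D a f k) / 2) -
        (1 - 2 ^ (-s)) * ((n 0 + n 1 + n 2 - n k + m : ℝ))) : ¬ BM D a f s := by
  refine not_BM (e := ((2 ^ s - 1) * (((n k : ℝ) + sk D a f k) / 2) -
        (1 - 2 ^ (-s)) * ((n 0 + n 1 + n 2 - n k + m : ℝ))) / 2) (by positivity) fun L => ?_
  obtain ⟨M0, hM0⟩ := pen_low hpw hmp hm2 a f D ha hf hf' hU hD hDf g hg c K hc hDg s
    (((2 ^ s - 1) * (((n k : ℝ) + sk D a f k) / 2) -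
        (1 - 2 ^ (-s)) * ((n 0 + n 1 + n 2 - n k + m : ℝ))) / 2) hs (by positivity) L k
  refine ⟨M0, fun N M hM hN => le_trans (le_of_eq ?_) (hM0 N M hM hN)⟩
  congr 2
  ring

/-- **the dichotomy**: all the moments are bounded only for a family of quadratic twists -/
theorem iso_iff : (∀ s : ℝ, 0 < s → BM D a f s) ↔ ∀ k, n k = 0 := by
  constructor
  · intro h k
    by_contra hk
    have hnk : (1 : ℝ) ≤ n k := by exact_mod_cast Nat.one_le_iff_ne_zero.2 hk
    obtain ⟨m, c, K, g, hc, hg, hDg⟩ := exists_factors D hD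
    obtain ⟨s, hs⟩ : ∃ s : ℕ, s = 2 * (n 0 + n 1 + n 2 + m) + 2 := ⟨_, rfl⟩
    have hs0 : (0 : ℝ) < s := by exact_mod_cast (by omega : 0 < s)
    refine not_BM_of hpw hmp hm2 a f D ha hf hf' hU hD hDf g hg c K hc hDg s hs0 k ?_ (h s hs0)
    have h1 : (s : ℝ) + 1 ≤ 2 ^ (s : ℝ) := by
      rw [Real.rpow_natCast]
      exact_mod_cast Nat.lt_two_pow_self
    have h2 : (0 : ℝ) < 2 ^ (-(s : ℝ)) := by positivity
    have h3 : (s : ℝ) = 2 * (n 0 + n 1 + n 2 + m) + 2 := by rw [hs]; push_cast; ring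
    have h4 : (0 : ℝ) ≤ sk D a f k := Nat.cast_nonneg _
    have h5 : (0 : ℝ) ≤ m := Nat.cast_nonneg _
    have h6 := le_sum3 n k
    obtain ⟨W, hW⟩ : ∃ W : ℝ, W = n 0 + n 1 + n 2 := ⟨_, rfl⟩
    rw [← hW] at h3 h6 ⊢
    have h7 : (s : ℝ) * (1 / 2) ≤ (2 ^ (s : ℝ) - 1) * (((n k : ℝ) + sk D a f k) / 2) :=
      mul_le_mul (by linarith) (by linarith) (by norm_num) (by linarith)
    have h8 : (1 - 2 ^ (-(s : ℝ))) * (W - n k + m) ≤ 1 * (W - n k + m) :=
      mul_le_mul_of_nonneg_right (by linarith) (by linarith)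
    linarith
  · intro h s hs L
    have hU0 : ∀ k, UP a f k = C (a k) := by
      intro k
      unfold UP
      have : ∏ i, f k i = 1 := by
        apply prod_eq_one
        intro i _
        exact absurd i.2 (by have := h k; omega)
      rw [this, mul_one]
    have ha2 : a 0 - a 1 = a 2 := by
      rw [hU0, hU0, hU0, ← C_sub] at hU
      exact C_injective hU
    obtain ⟨C, hC⟩ := iso_up a ha ha2 D hD s hs L
    refine ⟨C, fun N M hM hN => le_trans (le_of_eq ?_) (hC N M hM hN)⟩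
    have e1 : ∀ (k : Fin 3) (t : ℤ), (D * UP a f k).eval t = D.eval t * a k := by
      intro k t
      rw [hU0, eval_mul, eval_C]
    refine sum_congr (filter_congr fun t _ => ?_) fun t _ => by rw [e1, e1]
    constructor
    · intro h1 h2
      exact h1 0 (by rw [e1, h2, zero_mul])
    · intro h1 k
      rw [e1]
      exact mul_ne_zero h1 (ha k)

/-- a moment with a positive exponent is not bounded, constant `D` -/
lemma not_BM_const (d : ℤ) (hd : D = C d) (s : ℝ) (hs : 0 < s) (k : Fin 3)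
    (he : 0 < (2 ^ s - 1) * (((n k : ℝ) + sk D a f k) / 2) -
        (1 - 2 ^ (-s)) * ((n 0 + n 1 + n 2 - n k : ℝ))) : ¬ BM D a f s := by
  have hd0 : d ≠ 0 := by
    rintro rfl
    exact hD (by rw [hd, C_0])
  refine not_BM_of hpw hmp hm2 a f D ha hf hf' hU hD hDf (m := 0) (fun i => i.elim0)
    (fun j => j.elim0) d 0 hd0 (by rw [hd, pow_zero, mul_one]) s hs k ?_
  rw [Nat.cast_zero, add_zero]
  exact he

/-- the average is bounded if and only if the condition on the numbers holds, constant `D` -/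
theorem avg_iff (d : ℤ) (hd : D = C d) :
    BM D a f 1 ↔ ∀ k, 2 * n k + sk D a f k ≤ n 0 + n 1 + n 2 := by
  constructor
  · intro h k
    by_contra hk
    push Not at hk
    refine not_BM_const hpw hmp hm2 a f D ha hf hf' hU hD hDf d hd 1 one_pos k ?_ h
    have h1 : (n 0 + n 1 + n 2 : ℝ) + 1 ≤ 2 * n k + sk D a f k := by exact_mod_cast hk
    have h2 : (2 : ℝ) ^ (1 : ℝ) = 2 := Real.rpow_one 2
    have h3 : (2 : ℝ) ^ (-(1 : ℝ)) = 1 / 2 := by rw [Real.rpow_neg_one]; norm_num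
    rw [h2, h3]
    linarith
  · intro h L
    have hirr : Irr (fp f) :=
      ⟨fun x => (hf x.1 x.2).1, fun x => (hf x.1 x.2).2, fun x y hxy => hf' x.1 x.2 y.1 y.2 hxy⟩
    have hB : Pool.Agent.TH841.TR.Bal D a f :=
      Pool.Agent.TH841.TR.bal_of (v := vk D a f) rfl rfl rfl h
    obtain ⟨C, hC⟩ := Pool.Agent.TH841.TR.penQ Pool.Agent.TH841.TR.tav3x a f ha hirr hU D hD hDf hB L
    refine ⟨C, fun N M hM hN => le_trans (le_of_eq ?_) ((hC N M hM hN _ rfl).2.1 1 le_rfl)⟩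
    refine sum_congr (by congr!) fun t _ => ?_
    unfold mw
    rw [Real.rpow_one, pow_one, Nat.cast_one, div_one, Real.rpow_one]

/-- no moment of order greater than 2 is bounded, constant `D` -/
theorem no_moment (d : ℤ) (hd : D = C d) (hn : 0 < n 0 + n 1 + n 2) (s : ℝ) (hs : 2 < s) :
    ¬ BM D a f s := by
  have hs0 : 0 < s := by linarith
  have hp : (0 : ℝ) < 2 ^ s := by positivity
  have h2s : (4 : ℝ) < 2 ^ s := by
    calc (4 : ℝ) = 2 ^ (2 : ℝ) := by norm_num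
      _ < 2 ^ s := Real.rpow_lt_rpow_of_exponent_lt (by norm_num) hs
  have hneg : (2 : ℝ) ^ (-s) = 1 / 2 ^ s := by rw [Real.rpow_neg (by norm_num), one_div]
  by_contra hb
  have hall : ∀ k : Fin 3, (2 ^ s - 1) * (((n k : ℝ) + sk D a f k) / 2) ≤
      (1 - 2 ^ (-s)) * ((n 0 + n 1 + n 2 - n k : ℝ)) := by
    intro k
    by_contra hk
    push Not at hk
    exact not_BM_const hpw hmp hm2 a f D ha hf hf' hU hD hDf d hd s hs0 k (by linarith) hb
  have e1 : (1 - (2 : ℝ) ^ (-s)) = (2 ^ s - 1) * (1 / 2 ^ s) := by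
    rw [hneg]
    field_simp
  have hall' : ∀ k : Fin 3, ((n k : ℝ) + sk D a f k) / 2 ≤
      (1 / 2 ^ s) * ((n 0 + n 1 + n 2 - n k : ℝ)) := by
    intro k
    have h1 := hall k
    rw [e1, mul_assoc] at h1
    exact le_of_mul_le_mul_left h1 (by linarith)
  have h0 := hall' 0
  have h1 := hall' 1
  have h2 := hall' 2
  have k0 : (0 : ℝ) ≤ sk D a f 0 := Nat.cast_nonneg _
  have k1 : (0 : ℝ) ≤ sk D a f 1 := Nat.cast_nonneg _
  have k2 : (0 : ℝ) ≤ sk D a f 2 := Nat.cast_nonneg _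
  have hW : (0 : ℝ) < n 0 + n 1 + n 2 := by exact_mod_cast hn
  have hq : 1 / (2 : ℝ) ^ s < 1 / 4 := one_div_lt_one_div_of_lt (by norm_num) h2s
  have h3 := mul_lt_mul_of_pos_right hq hW
  have h4 : ((n 0 : ℝ) + n 1 + n 2) / 2 ≤ 2 * ((1 / 2 ^ s) * (n 0 + n 1 + n 2)) := by
    have : (1 / 2 ^ s) * ((n 0 + n 1 + n 2 - n 0 : ℝ)) + (1 / 2 ^ s) * ((n 0 + n 1 + n 2 - n 1 : ℝ)) +
      (1 / 2 ^ s) * ((n 0 + n 1 + n 2 - n 2 : ℝ)) = 2 * ((1 / 2 ^ s) * (n 0 + n 1 + n 2)) := by ring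
    linarith
  linarith

/-- the second moment, constant `D` -/
theorem second_moment (d : ℤ) (hd : D = C d) (h : BM D a f 2) :
    n 0 = n 1 ∧ n 1 = n 2 ∧ ∀ k, sk D a f k = 0 := by
  have hall : ∀ k : Fin 3, 3 * n k + 2 * sk D a f k ≤ n 0 + n 1 + n 2 := by
    intro k
    by_contra hk
    push Not at hk
    refine not_BM_const hpw hmp hm2 a f D ha hf hf' hU hD hDf d hd 2 two_pos k ?_ h
    have h1 : (n 0 + n 1 + n 2 : ℝ) + 1 ≤ 3 * n k + 2 * sk D a f k := by exact_mod_cast hk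
    have h2 : (2 : ℝ) ^ (2 : ℝ) = 4 := by norm_num
    have h3 : (2 : ℝ) ^ (-(2 : ℝ)) = 1 / 4 := by
      rw [Real.rpow_neg (by norm_num), h2]
      norm_num
    rw [h2, h3]
    linarith
  have h0 := hall 0
  have h1 := hall 1
  have h2 := hall 2
  refine ⟨by omega, by omega, fun k => ?_⟩
  fin_cases k
  · show sk D a f 0 = 0
    omega
  · show sk D a f 1 = 0
    omega
  · show sk D a f 2 = 0
    omega

end

end Pool.Agent.N870.EC
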