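import Mathlib
import Pool.Agent.N870.EC.Two3

/-!
# Project EC: from pairs of integers to families of curves

Seat helper870.
-/

set_option autoImplicit false

namespace Pool.Agent.N870.EC

open Finset Filter Pool.Agent.W262.RK

open scoped Classical

open Pool.Agent.W307.SE (Loc Sel SN SelR SN_nonneg sel_fin)

lemma exists_root (Q H k : ℕ) (hQ : 1 ≤ Q) (hk : 1 ≤ k) :
    ∃ X : ℕ, Q * X ^ k ≤ H ∧ H < Q * (X + 1) ^ k := by
  have hex : ∃ X : ℕ, H < Q * (X + 1) ^ k := by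
    refine ⟨H, ?_⟩
    calc H < H + 1 := Nat.lt_succ_self _
      _ = (H + 1) ^ 1 := (pow_one _).symm
      _ ≤ (H + 1) ^ k := Nat.pow_le_pow_right (by omega) hk
      _ ≤ Q * (H + 1) ^ k := Nat.le_mul_of_pos_left _ hQ
  refine ⟨Nat.find hex, ?_, Nat.find_spec hex⟩
  rcases Nat.eq_zero_or_pos (Nat.find hex) with h | h
  · rw [h, zero_pow (by omega), mul_zero]
    exact Nat.zero_le _
  · have h1 := Nat.find_min hex (show Nat.find hex - 1 < Nat.find hex by omega)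
    rw [Nat.sub_add_cancel h] at h1
    omega

/-- comparison of the powers of the logarithms -/
lemma log_cmp2 (e κ : ℝ) (hκ : 1 ≤ κ) {x h : ℝ} (hx : 0 < x) (h1 : x ≤ h) (h2 : h ≤ κ * x) :
    h ^ e ≤ κ ^ |e| * x ^ e := by
  rcases le_or_gt 0 e with he | he
  · rw [abs_of_nonneg he, ← Real.mul_rpow (by linarith) hx.le]
    exact Real.rpow_le_rpow (by linarith) h2 he
  · calc h ^ e ≤ x ^ e := Real.rpow_le_rpow_of_nonpos hx h1 he.le
      _ = 1 * x ^ e := (one_mul _).symm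
      _ ≤ κ ^ |e| * x ^ e := by
          refine mul_le_mul_of_nonneg_right ?_ (by positivity)
          exact Real.one_le_rpow hκ (abs_nonneg _)

/-- **from pairs to curves** -/
theorem fam_gen (k : ℕ) (hk : 1 ≤ k) (cc : ℤ → ℤ → ℤ × ℤ) (F : ℕ → Finset (ℤ × ℤ))
    (w : ℤ × ℤ → ℝ) (hw : ∀ c, 0 ≤ w c) (P Q : ℕ → ℕ → ℤ)
    (hfam : ∃ K : ℕ, ∀ X H : ℕ, K * X ^ k ≤ H →
      (∀ A B : ℕ, 1 ≤ A → A ≤ X → 1 ≤ B → B ≤ X → A.Coprime B → A ≠ B → cc A B ∈ F H) ∧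
      ∀ c : ℤ × ℤ, ((Icc 1 X ×ˢ Icc 1 X).filter (fun t : ℕ × ℕ => cc t.1 t.2 = c)).card ≤ 6)
    (hsz : ∀ A B : ℕ, 1 ≤ A → 1 ≤ B → A.Coprime B → A ≠ B → SN (P A B) (Q A B) ≤ w (cc A B))
    (hcard : ∃ K : ℝ, ∀ H : ℕ, ((F H).card : ℝ) ≤ K * ((H : ℝ) + 1) ^ ((2 : ℝ) / k))
    (e s : ℝ) (hs : 0 < s)
    (hlow : ∀ ε : ℝ, 0 < ε → ∃ m X0 : ℕ, 1 ≤ m ∧ ∀ X : ℕ, X0 ≤ X → ∃ T ⊆ Icc 1 X ×ˢ Icc 1 X,
      (∀ t ∈ T, (1 + m * t.1).Coprime t.2 ∧ 1 + m * t.1 ≠ t.2) ∧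
      (X : ℝ) ^ 2 * (Real.log X) ^ (e - ε) ≤
        ∑ t ∈ T, (SN (P (1 + m * t.1) t.2) (Q (1 + m * t.1) t.2)) ^ s)
    (ε : ℝ) (hε : 0 < ε) :
    ∃ H0 : ℕ, ∀ H : ℕ, H0 ≤ H →
      ((F H).card : ℝ) * (Real.log H) ^ (e - ε) ≤ ∑ c ∈ F H, (w c) ^ s := by
  obtain ⟨K1, hK1⟩ := hfam
  obtain ⟨K2, hK2⟩ := hcard
  obtain ⟨m, X0, hm, hX0⟩ := hlow (ε / 2) (by positivity)
  obtain ⟨R, hR⟩ : ∃ R : ℕ, R = (K1 + 1) * (2 * m) ^ k := ⟨_, rfl⟩
  have hR1 : 1 ≤ R := by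
    rw [hR]
    exact Nat.mul_pos (by omega) (Nat.pow_pos (by omega))
  obtain ⟨κ, hκ⟩ : ∃ κ : ℝ, κ = 2 * k + 1 := ⟨_, rfl⟩
  have hk0 : (1 : ℝ) ≤ k := by exact_mod_cast hk
  have hκ1 : 1 ≤ κ := by rw [hκ]; linarith
  obtain ⟨M, hM⟩ : ∃ M : ℝ, M = 24 * |K2| * (R : ℝ) ^ ((2 : ℝ) / k) * κ ^ |e - ε / 2| := ⟨_, rfl⟩
  have hM0 : 0 ≤ M := by rw [hM]; positivity
  obtain ⟨L1, hL1⟩ := eventually_atTop.1 (((tendsto_rpow_atTop (show 0 < ε / 2 by positivity)).comp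
    (Real.tendsto_log_atTop.comp (tendsto_natCast_atTop_atTop (R := ℝ)))).eventually_ge_atTop M)
  refine ⟨R * (X0 + L1 + 2 * R + 3) ^ k, fun H hH => ?_⟩
  obtain ⟨X, hX1, hX2⟩ := exists_root R H k hR1 hk
  have hXb : X0 + L1 + 2 * R + 3 ≤ X := by
    by_contra h
    push Not at h
    have h1 : R * (X + 1) ^ k ≤ R * (X0 + L1 + 2 * R + 3) ^ k :=
      Nat.mul_le_mul_left _ (Nat.pow_le_pow_left (by omega) k)
    omega
  obtain ⟨T, hT, hcop, hsum⟩ := hX0 X (by omega)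
  have hX0r : (3 : ℝ) ≤ X := by exact_mod_cast (by omega : 3 ≤ X)
  have hlX : 1 < Real.log X := by
    rw [Real.lt_log_iff_exp_lt (by linarith)]
    have := Real.exp_one_lt_d9
    linarith
  -- the curves
  obtain ⟨X', hX'⟩ : ∃ X' : ℕ, X' = 1 + m * X := ⟨_, rfl⟩
  have hKX : K1 * X' ^ k ≤ H := by
    calc K1 * X' ^ k ≤ (K1 + 1) * (2 * m * X) ^ k := by
          refine Nat.mul_le_mul (by omega) (Nat.pow_le_pow_left ?_ k)
          rw [hX']
          have : 1 ≤ m * X := Nat.mul_pos hm (by omega)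
          nlinarith
      _ = R * X ^ k := by rw [hR, mul_pow (2 * m) X k]; ring
      _ ≤ H := hX1
  obtain ⟨hmem, h6⟩ := hK1 X' H hKX
  have hTb : ∀ t ∈ T, (1 ≤ 1 + m * t.1 ∧ 1 + m * t.1 ≤ X') ∧ (1 ≤ t.2 ∧ t.2 ≤ X') := by
    intro t ht
    have := hT ht
    rw [mem_product, mem_Icc, mem_Icc] at this
    refine ⟨⟨by omega, ?_⟩, this.2.1, ?_⟩
    · rw [hX']
      have := Nat.mul_le_mul_left m this.1.2
      omega
    · rw [hX']
      have : X ≤ m * X := Nat.le_mul_of_pos_left _ hm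
      omega
  have hcF : ∀ t ∈ T, cc ((1 + m * t.1 : ℕ) : ℤ) (t.2 : ℤ) ∈ F H := by
    intro t ht
    obtain ⟨⟨b1, b2⟩, b3, b4⟩ := hTb t ht
    obtain ⟨c1, c2⟩ := hcop t ht
    exact hmem _ _ b1 b2 b3 b4 c1 c2
  have hup : ∑ t ∈ T, (SN (P (1 + m * t.1) t.2) (Q (1 + m * t.1) t.2)) ^ s ≤
      6 * ∑ c ∈ F H, (w c) ^ s := by
    calc ∑ t ∈ T, (SN (P (1 + m * t.1) t.2) (Q (1 + m * t.1) t.2)) ^ s
        ≤ ∑ t ∈ T, (w (cc ((1 + m * t.1 : ℕ) : ℤ) (t.2 : ℤ))) ^ s := by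
          refine sum_le_sum fun t ht => ?_
          obtain ⟨⟨b1, b2⟩, b3, b4⟩ := hTb t ht
          obtain ⟨c1, c2⟩ := hcop t ht
          exact Real.rpow_le_rpow (SN_nonneg _ _) (hsz _ _ b1 b3 c1 c2) hs.le
      _ = ∑ c ∈ F H, ∑ t ∈ T.filter (fun t => cc ((1 + m * t.1 : ℕ) : ℤ) (t.2 : ℤ) = c),
            (w (cc ((1 + m * t.1 : ℕ) : ℤ) (t.2 : ℤ))) ^ s :=
          (sum_fiberwise_of_maps_to hcF _).symm
      _ ≤ ∑ c ∈ F H, 6 * (w c) ^ s := by
          refine sum_le_sum fun c _ => ?_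
          have h7 : ∑ t ∈ T.filter (fun t => cc ((1 + m * t.1 : ℕ) : ℤ) (t.2 : ℤ) = c),
              (w (cc ((1 + m * t.1 : ℕ) : ℤ) (t.2 : ℤ))) ^ s =
              ((T.filter (fun t => cc ((1 + m * t.1 : ℕ) : ℤ) (t.2 : ℤ) = c)).card : ℝ) *
                (w c) ^ s := by
            rw [← nsmul_eq_mul, ← sum_const]
            exact sum_congr rfl fun t ht => by rw [(mem_filter.1 ht).2]
          rw [h7]
          refine mul_le_mul_of_nonneg_right ?_ (Real.rpow_nonneg (hw c) _)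
          have h8 : (T.filter (fun t => cc ((1 + m * t.1 : ℕ) : ℤ) (t.2 : ℤ) = c)).card ≤
              ((Icc 1 X' ×ˢ Icc 1 X').filter (fun t : ℕ × ℕ => cc t.1 t.2 = c)).card := by
            apply card_le_card_of_injOn (fun t => (1 + m * t.1, t.2))
            · intro t ht
              rw [mem_coe, mem_filter] at ht
              obtain ⟨⟨b1, b2⟩, b3, b4⟩ := hTb t ht.1
              rw [mem_coe, mem_filter, mem_product, mem_Icc, mem_Icc]
              exact ⟨⟨⟨b1, b2⟩, b3, b4⟩, ht.2⟩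
            · intro t _ t' _ h
              simp only [Prod.mk.injEq] at h
              have h9 : m * t.1 = m * t'.1 := by omega
              exact Prod.ext (Nat.eq_of_mul_eq_mul_left hm h9) h.2
          exact_mod_cast h8.trans (h6 c)
      _ = 6 * ∑ c ∈ F H, (w c) ^ s := (mul_sum _ _ _).symm
  -- sizes
  have hRr : (1 : ℝ) ≤ R := by exact_mod_cast hR1
  have hkk : (0 : ℝ) < k := by linarith
  have hcardX : ((F H).card : ℝ) ≤ 4 * |K2| * (R : ℝ) ^ ((2 : ℝ) / k) * (X : ℝ) ^ 2 := by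
    have k1 : ((H : ℝ) + 1) ≤ R * ((X : ℝ) + 1) ^ k := by exact_mod_cast hX2
    have k2 : ((H : ℝ) + 1) ^ ((2 : ℝ) / k) ≤ (R : ℝ) ^ ((2 : ℝ) / k) * ((X : ℝ) + 1) ^ 2 := by
      calc ((H : ℝ) + 1) ^ ((2 : ℝ) / k) ≤ (R * ((X : ℝ) + 1) ^ k) ^ ((2 : ℝ) / k) :=
            Real.rpow_le_rpow (by positivity) k1 (by positivity)
        _ = (R : ℝ) ^ ((2 : ℝ) / k) * (((X : ℝ) + 1) ^ k) ^ ((2 : ℝ) / k) :=
            Real.mul_rpow (by positivity) (by positivity)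
        _ = _ := by
            congr 1
            rw [← Real.rpow_natCast, ← Real.rpow_mul (by positivity), mul_div_cancel₀ _ hkk.ne']
            norm_num
    calc ((F H).card : ℝ) ≤ K2 * ((H : ℝ) + 1) ^ ((2 : ℝ) / k) := hK2 H
      _ ≤ |K2| * ((H : ℝ) + 1) ^ ((2 : ℝ) / k) :=
          mul_le_mul_of_nonneg_right (le_abs_self _) (by positivity)
      _ ≤ |K2| * ((R : ℝ) ^ ((2 : ℝ) / k) * ((X : ℝ) + 1) ^ 2) :=
          mul_le_mul_of_nonneg_left k2 (abs_nonneg _)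
      _ ≤ |K2| * ((R : ℝ) ^ ((2 : ℝ) / k) * (4 * (X : ℝ) ^ 2)) := by
          refine mul_le_mul_of_nonneg_left (mul_le_mul_of_nonneg_left ?_ (by positivity))
            (abs_nonneg _)
          nlinarith
      _ = _ := by ring
  have hXH : X ≤ H := by
    calc X = X ^ 1 := (pow_one X).symm
      _ ≤ X ^ k := Nat.pow_le_pow_right (by omega) hk
      _ ≤ R * X ^ k := Nat.le_mul_of_pos_left _ hR1
      _ ≤ H := hX1
  have hXHr : (X : ℝ) ≤ H := by exact_mod_cast hXH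
  have hl1 : Real.log X ≤ Real.log H := Real.log_le_log (by linarith) hXHr
  have hl2 : Real.log H ≤ κ * Real.log X := by
    have k1 : (H : ℝ) ≤ R * ((X : ℝ) + 1) ^ k := by exact_mod_cast hX2.le
    have k2 : (R : ℝ) ≤ X := by exact_mod_cast (by omega : R ≤ X)
    have k3 : (X : ℝ) + 1 ≤ (X : ℝ) ^ 2 := by nlinarith
    have k4 : (H : ℝ) ≤ (X : ℝ) ^ (2 * k + 1) := by
      calc (H : ℝ) ≤ R * ((X : ℝ) + 1) ^ k := k1
        _ ≤ X * ((X : ℝ) ^ 2) ^ k :=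
            mul_le_mul k2 (pow_le_pow_left₀ (by positivity) k3 k) (by positivity) (by positivity)
        _ = (X : ℝ) ^ (2 * k + 1) := by rw [← pow_mul]; ring
    have k5 := Real.log_le_log (by linarith) k4
    rw [Real.log_pow] at k5
    rw [hκ]
    exact_mod_cast k5
  have hlX0 : 0 < Real.log X := by linarith
  have hlH0 : 0 < Real.log H := by linarith
  have k1 := log_cmp2 (e - ε / 2) κ hκ1 hlX0 hl1 hl2
  have k2 : M ≤ (Real.log H) ^ (ε / 2) := hL1 H (by omega)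
  have k3 : (Real.log H) ^ (e - ε / 2) = (Real.log H) ^ (ε / 2) * (Real.log H) ^ (e - ε) := by
    rw [← Real.rpow_add hlH0]
    congr 1
    ring
  obtain ⟨V, hV⟩ : ∃ V : ℝ, V = ∑ c ∈ F H, (w c) ^ s := ⟨_, rfl⟩
  obtain ⟨U, hU⟩ : ∃ U : ℝ, U = (Real.log H) ^ (e - ε) := ⟨_, rfl⟩
  have hU0 : 0 ≤ U := by rw [hU]; positivity
  rw [← hV] at hup ⊢
  rw [← hU] at k3 ⊢
  rw [k3] at k1
  have k4 : M * U ≤ κ ^ |e - ε / 2| * (Real.log X) ^ (e - ε / 2) :=
    (mul_le_mul_of_nonneg_right k2 hU0).trans k1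
  have k5 : (X : ℝ) ^ 2 * (Real.log X) ^ (e - ε / 2) ≤ 6 * V := hsum.trans hup
  obtain ⟨a, ha⟩ : ∃ a : ℝ, a = |K2| * (R : ℝ) ^ ((2 : ℝ) / k) := ⟨_, rfl⟩
  obtain ⟨b, hb⟩ : ∃ b : ℝ, b = κ ^ |e - ε / 2| := ⟨_, rfl⟩
  have hb0 : 0 < b := by rw [hb]; positivity
  have ha0 : 0 ≤ a := by rw [ha]; positivity
  have hMab : M = 24 * a * b := by rw [hM, ha, hb]; ring
  have hFa : ((F H).card : ℝ) ≤ 4 * a * (X : ℝ) ^ 2 := by
    rw [ha]
    refine hcardX.trans (le_of_eq ?_)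
    ring
  rw [← hb, hMab] at k4
  -- `24 a b U ≤ b l`, `X² l ≤ 6 V`
  have k6 : 24 * a * U ≤ (Real.log X) ^ (e - ε / 2) := by
    have : b * (24 * a * U) ≤ b * (Real.log X) ^ (e - ε / 2) := by
      refine le_trans (le_of_eq ?_) k4
      ring
    exact le_of_mul_le_mul_left this hb0
  have k7 := mul_le_mul_of_nonneg_left k6 (show (0 : ℝ) ≤ (X : ℝ) ^ 2 by positivity)
  have k8 := mul_le_mul_of_nonneg_right hFa hU0
  nlinarith

/-- the curves with full rational 2-torsion -/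
theorem low_two (hc : S_CNT2) (hd : S_DEN2) (hf : S_FAM2) (hs2 : S_SZ2) (hcd : S_CARD2)
    (s ε : ℝ) (hs : 0 < s) (hε : 0 < ε) : ∃ H0 : ℕ, ∀ H : ℕ, H0 ≤ H →
      ((Pool.Agent.W307.RT.Cv 2 H).card : ℝ) *
        (Real.log H) ^ ((2 ^ s - 1) / 2 - 2 * (1 - 2 ^ (-s)) - ε) ≤
      ∑ c ∈ Pool.Agent.W307.RT.Cv 2 H, ((SelR c.1 c.2).ncard : ℝ) ^ s := by
  have h := fam_gen 6 (by norm_num) cc (fun H => Pool.Agent.W307.RT.Cv 2 H)
    (fun c => ((SelR c.1 c.2).ncard : ℝ)) (fun c => Nat.cast_nonneg _) (fun a b => 3 * (a : ℤ))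
    (fun a b => 3 * (b : ℤ)) hf hs2 (by
      obtain ⟨K, hK⟩ := hcd
      refine ⟨K, fun H => ?_⟩
      have e : ((2 : ℝ) / (6 : ℕ)) = 1 / 3 := by norm_num
      rw [e]
      exact hK H) ((2 ^ s - 1) * (1 / 2) - (1 - 2 ^ (-s)) * 2) s hs (by
      intro ε hε
      refine low_gen hc (fun a b => 3 * (a : ℤ)) (fun a b => 3 * (b : ℤ)) (fun p => (p - 1) / 2)
        (1 / 2) (by norm_num) (by norm_num) ?_ ?_ ?_ ?_ ?_ ?_ ?_ ?_ s ε hs hε
      · intro a b ha hb hab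
        refine ⟨by positivity, by positivity, fun h => hab ?_⟩
        have : (a : ℤ) = b := by linarith
        exact_mod_cast this
      · intro p a b hp hp5
        have hP := Nat.prime_iff_prime_int.1 hp
        have h3 : ¬ (p : ℤ) ∣ 3 := by
          intro h
          have h1 : p ∣ 3 := by exact_mod_cast h
          have := Nat.le_of_dvd (by norm_num) h1
          omega
        have h1 : ∀ x : ℕ, (p : ℤ) ∣ 3 * (x : ℤ) ↔ p ∣ x := by
          intro x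
          rw [hP.dvd_mul, or_iff_right h3]
          exact Int.natCast_dvd_natCast
        rw [hP.dvd_mul, h1, h1]
      · intro p a b a' b' h1 h2
        exact ⟨(Int.natCast_modEq_iff.2 h1).mul_left 3, (Int.natCast_modEq_iff.2 h2).mul_left 3⟩
      · intro p m hp hp5 hm
        have h3 := (hd p m hp hp5 hm).1
        refine Eq.trans ?_ h3
        unfold cnt
        refine cfc fun t _ => ?_
        have hP := Nat.prime_iff_prime_int.1 hp
        have h4 : ¬ (p : ℤ) ∣ 3 := by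
          intro h
          have h1 : p ∣ 3 := by exact_mod_cast h
          have := Nat.le_of_dvd (by norm_num) h1
          omega
        refine and_congr ?_ ?_
        · have e1 : (3 : ℤ) * ((1 + m * t.1 : ℕ) : ℤ) - 3 * (t.2 : ℤ) =
              3 * ((1 + m * t.1 : ℤ) - t.2) := by push_cast; ring
          rw [e1, hP.dvd_mul, or_iff_right h4]
        · push_cast
          rfl
      · intro p
        show (p - 1) / 2 ≤ 2 * p
        omega
      · intro p m hp hp5 hm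
        have h3 := (hd p m hp hp5 hm).2.1
        refine Eq.trans ?_ h3
        unfold cnt
        refine cfc fun t _ => ?_
        refine or_congr ?_ ?_
        · rw [← Int.natCast_dvd_natCast]
          push_cast
          rfl
        · rw [← Int.natCast_dvd_natCast]
      · intro p m hp hp5 hm
        have h3 := (hd p m hp hp5 hm).2.2
        refine Eq.trans ?_ h3
        unfold cnt
        refine cfc fun t _ => ?_
        refine and_congr ?_ ?_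
        · rw [← Int.natCast_dvd_natCast]
          push_cast
          rfl
        · rw [← Int.natCast_dvd_natCast]
      · intro z hz
        obtain ⟨C, hC0, hC⟩ := mer_two z
        exact ⟨C, hC0, fun w hw h3 => ⟨(hC w hw h3).1, (hC w hw h3).2.1⟩⟩) ε hε
  obtain ⟨H0, hH0⟩ := h
  refine ⟨H0, fun H hH => le_trans (le_of_eq ?_) (hH0 H hH)⟩
  congr 2
  ring

end Pool.Agent.N870.EC
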