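import Mathlib
import Pool.Agent.N870.EC.Fam

/-!
# Project EC: the lower bound for the curves with torsion `Z/2 x Z/4`

Seat helper870.
-/

set_option autoImplicit false

namespace Pool.Agent.N870.EC

open Finset Filter Pool.Agent.W262.RK

open scoped Classical

open Pool.Agent.W307.SE (Loc Sel SN SelR SN_nonneg sel_fin)

/-- the curves with a rational subgroup `Z/2 x Z/4` -/
theorem low_four (hc : S_CNT2) (hd : S_DEN4) (hf : S_FAM4) (hs4 : S_SZ4) (hcd : S_CARD4)
    (s ε : ℝ) (hs : 0 < s) (hε : 0 < ε) : ∃ H0 : ℕ, ∀ H : ℕ, H0 ≤ H →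
      ((Pool.Agent.W307.RT.Cv 4 H).card : ℝ) *
        (Real.log H) ^ ((2 ^ s - 1) - 2 * (1 - 2 ^ (-s)) - ε) ≤
      ∑ c ∈ Pool.Agent.W307.RT.Cv 4 H, ((SelR c.1 c.2).ncard : ℝ) ^ s := by
  have h := fam_gen 12 (by norm_num) cd (fun H => Pool.Agent.W307.RT.Cv 4 H)
    (fun c => ((SelR c.1 c.2).ncard : ℝ)) (fun c => Nat.cast_nonneg _) (fun a b => -(a : ℤ) ^ 2)
    (fun a b => -(b : ℤ) ^ 2) hf hs4 (by
      obtain ⟨K, hK⟩ := hcd
      refine ⟨K, fun H => ?_⟩
      have e : ((2 : ℝ) / (12 : ℕ)) = 1 / 6 := by norm_num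
      rw [e]
      exact hK H) ((2 ^ s - 1) * 1 - (1 - 2 ^ (-s)) * 2) s hs (by
      intro ε hε
      refine low_gen hc (fun a b => -(a : ℤ) ^ 2) (fun a b => -(b : ℤ) ^ 2)
        (fun p => if p % 4 = 1 then 2 * (p - 1) else 0)
        1 (by norm_num) (by norm_num) ?_ ?_ ?_ ?_ ?_ ?_ ?_ ?_ s ε hs hε
      · intro a b ha hb hab
        refine ⟨neg_ne_zero.2 (by positivity), neg_ne_zero.2 (by positivity), fun h => hab ?_⟩
        have h1 : (a : ℤ) ^ 2 = (b : ℤ) ^ 2 := by linarith
        have h2 : a ^ 2 = b ^ 2 := by exact_mod_cast h1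
        exact Nat.pow_left_injective (n := 2) (by norm_num) h2
      · intro p a b hp hp5
        have hP := Nat.prime_iff_prime_int.1 hp
        have h1 : ∀ x : ℕ, (p : ℤ) ∣ -(x : ℤ) ^ 2 ↔ p ∣ x := by
          intro x
          rw [dvd_neg, hP.dvd_pow_iff_dvd (by norm_num)]
          exact Int.natCast_dvd_natCast
        rw [hP.dvd_mul, h1, h1]
      · intro p a b a' b' h1 h2
        exact ⟨((Int.natCast_modEq_iff.2 h1).pow 2).neg, ((Int.natCast_modEq_iff.2 h2).pow 2).neg⟩
      · intro p m hp hp5 hm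
        have h3 := (hd p m hp hp5 hm).1
        refine Eq.trans ?_ h3
        unfold cnt
        refine cfc fun t _ => ?_
        push_cast
        rfl
      · intro p
        show (if p % 4 = 1 then 2 * (p - 1) else 0) ≤ 2 * p
        split_ifs
        · omega
        · omega
      · intro p m hp hp5 hm
        have h3 := (hd p m hp hp5 hm).2.1
        refine Eq.trans ?_ h3
        unfold cnt
        refine cfc fun t _ => ?_
        refine or_congr ?_ ?_
        · rw [← Int.natCast_dvd_natCast]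
          push_cast
          rfl
        · rw [← Int.natCast_dvd_natCast]
      · intro p m hp hp5 hm
        have h3 := (hd p m hp hp5 hm).2.2
        refine Eq.trans ?_ h3
        unfold cnt
        refine cfc fun t _ => ?_
        refine and_congr ?_ ?_
        · rw [← Int.natCast_dvd_natCast]
          push_cast
          rfl
        · rw [← Int.natCast_dvd_natCast]
      · intro z hz
        obtain ⟨C, hC0, hC⟩ := mer_four z hz
        exact ⟨C, hC0, fun w hw h3 => hC w hw h3⟩) ε hε
  obtain ⟨H0, hH0⟩ := h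
  refine ⟨H0, fun H hH => le_trans (le_of_eq ?_) (hH0 H hH)⟩
  congr 2
  ring

end Pool.Agent.N870.EC
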