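import Pool.Agent.N870.EC.Stm2
import Pool.Agent.W376.RTL.Par6

/-!
# EC/FAM6: coprime pairs give curves with `Z/2 x Z/6`, by height

Project EC. The curves and the proofs of their properties are those of `W376/RTL`.
-/

set_option autoImplicit false

namespace Pool.Agent.N870.EC

open Finset

open scoped Classical

open Pool.Agent.W307.RT (Cv)
open Pool.Agent.W376.RTL

lemma cM_six (A B : ℕ) : cM (M6 A B) (N6 A B) = (A6 (A : ℤ) ((3 * B : ℕ) : ℤ),
    B6 (A : ℤ) ((3 * B : ℕ) : ℤ)) := by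
  unfold cM A6 B6 M6 N6 Pool.Agent.W307.RT.M6 Pool.Agent.W307.RT.N6
  rw [Prod.mk.injEq]
  push_cast
  constructor <;> ring

/-- EC/FAM6 -/
theorem fam6 : S_FAM6 := by
  refine ⟨229582512, fun X H hH => ⟨?_, ?_⟩⟩
  · intro A B hA hAX hB hBX hc h6 hlt
    have h3A : ¬ 3 ∣ A := by omega
    have hc3 : A.Coprime (3 * B) := Nat.Coprime.mul_right
      (((Nat.Prime.coprime_iff_not_dvd Nat.prime_three).2 h3A).symm) hc
    have hv0 : (0 : ℤ) < ((3 * B : ℕ) : ℤ) := by exact_mod_cast (by omega : 0 < 3 * B)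
    have huv : ((3 * B : ℕ) : ℤ) < (A : ℤ) := by exact_mod_cast hlt
    have huT : (A : ℤ) ≤ (X : ℤ) := by exact_mod_cast hAX
    have hcz : IsCoprime (A : ℤ) ((3 * B : ℕ) : ℤ) := Nat.isCoprime_iff_coprime.2 hc3
    have h3 : (3 : ℤ) ∣ ((3 * B : ℕ) : ℤ) := by
      push_cast
      exact Dvd.intro _ rfl
    obtain ⟨g1, g2⟩ := height6 hv0 huv huT
    have hH' : (229582512 : ℤ) * (X : ℤ) ^ 24 ≤ (H : ℤ) := by exact_mod_cast hH
    have g1' := g1.trans hH'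
    have g2' := g2.trans hH'
    have b1 : |A6 (A : ℤ) ((3 * B : ℕ) : ℤ)| ≤ (H : ℤ) := by
      have h0 := abs_nonneg (A6 (A : ℤ) ((3 * B : ℕ) : ℤ))
      refine le_trans ?_ g1'
      generalize |A6 (A : ℤ) ((3 * B : ℕ) : ℤ)| = a at *
      rcases h0.eq_or_lt with h | h
      · rw [← h]; norm_num
      · have h1 : 1 ≤ a := h
        have h2 : 1 ≤ a ^ 2 := one_le_pow₀ h1
        nlinarith
    have b2 : |B6 (A : ℤ) ((3 * B : ℕ) : ℤ)| ≤ (H : ℤ) := by
      refine le_trans ?_ g2'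
      rw [← sq_abs]
      have h0 := abs_nonneg (B6 (A : ℤ) ((3 * B : ℕ) : ℤ))
      generalize |B6 (A : ℤ) ((3 * B : ℕ) : ℤ)| = a at *
      rcases h0.eq_or_lt with h | h
      · rw [← h]; norm_num
      · have h1 : 1 ≤ a := h
        nlinarith
    rw [abs_le] at b1 b2
    rw [cM_six]
    unfold Cv
    rw [mem_filter, mem_product, mem_Icc, mem_Icc]
    exact ⟨⟨b1, b2⟩, disc6_ne hv0 huv, g1', g2', minimal6 hcz h3, hasT6 hv0 huv⟩
  · intro c
    refine le_trans (card_le_one.2 ?_) (by norm_num : 1 ≤ 6)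
    intro t ht t' ht'
    rw [mem_filter, mem_product, mem_Icc, mem_Icc] at ht ht'
    obtain ⟨⟨⟨hu0, hu1⟩, hw0, hw1⟩, hc, h6, hlt, he⟩ := ht
    obtain ⟨⟨⟨hu0', hu1'⟩, hw0', hw1'⟩, hc', h6', hlt', he'⟩ := ht'
    rw [cM_six] at he he'
    have h := he.trans he'.symm
    have hv0 : (0 : ℤ) < ((3 * t.2 : ℕ) : ℤ) := by exact_mod_cast (by omega : 0 < 3 * t.2)
    have huv : ((3 * t.2 : ℕ) : ℤ) < (t.1 : ℤ) := by exact_mod_cast hlt
    have hv0' : (0 : ℤ) < ((3 * t'.2 : ℕ) : ℤ) := by exact_mod_cast (by omega : 0 < 3 * t'.2)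
    have huv' : ((3 * t'.2 : ℕ) : ℤ) < (t'.1 : ℤ) := by exact_mod_cast hlt'
    simp only [Prod.mk.injEq] at h
    obtain ⟨e1, e2⟩ := inj6 hv0 huv hv0' huv' h.1 h.2
    apply Prod.ext
    · exact_mod_cast e1
    · have e3 : 3 * t.2 = 3 * t'.2 := by exact_mod_cast e2
      omega

end Pool.Agent.N870.EC
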