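import Mathlib
import Pool.Agent.N870.EC.Mer

/-!
# Project EC: sums over primes for the families with torsion `Z/2 x Z/6` and `Z/2 x Z/8`

Seat helper870.
-/

set_option autoImplicit false

namespace Pool.Agent.N870.EC

open Finset Polynomial Filter Pool.Agent.W262.RK

open scoped Classical

open Pool.Agent.H474R2.PG (rho)

lemma prim_iff {n p : ℕ} (hn : 2 ≤ n) (hp : p.Prime) :
    (∃ x : ZMod p, IsPrimitiveRoot x n) ↔ p % n = 1 := by
  have : Fact p.Prime := ⟨hp⟩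
  have hp2 := hp.two_le
  constructor
  · rintro ⟨x, hx⟩
    have hx0 : x ≠ 0 := by
      rintro rfl
      have h1 := hx.pow_eq_one
      rw [zero_pow (by omega)] at h1
      exact zero_ne_one h1
    have h1 : n ∣ p - 1 := hx.dvd_of_pow_eq_one _ (ZMod.pow_card_sub_one_eq_one hx0)
    obtain ⟨k, hk⟩ := h1
    have h2 : p = 1 + n * k := by omega
    rw [h2, Nat.add_mul_mod_self_left, Nat.mod_eq_of_lt (by omega)]
  · intro h
    have h1 : n ∣ p - 1 := (Nat.modEq_iff_dvd' (by omega)).1 (by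
      show 1 % n = p % n
      rw [h, Nat.mod_eq_of_lt (by omega)])
    obtain ⟨g, hg⟩ := IsCyclic.exists_ofOrder_eq_natCard (α := (ZMod p)ˣ)
    have h3 : orderOf g = p - 1 := by
      rw [hg, Nat.card_eq_fintype_card, ZMod.card_units]
    have h4 : orderOf (g ^ ((p - 1) / n)) = n := by
      have h5 : (p - 1) / n ∣ orderOf g := by
        rw [h3]
        exact Nat.div_dvd_of_dvd h1
      have h6 : (p - 1) / n ≠ 0 := by
        have := Nat.div_pos (Nat.le_of_dvd (by omega) h1) (by omega : 0 < n)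
        omega
      rw [orderOf_pow_of_dvd h6 h5, h3]
      exact Nat.div_div_self h1 (by omega)
    refine ⟨((g ^ ((p - 1) / n) : (ZMod p)ˣ) : ZMod p), ?_⟩
    rw [IsPrimitiveRoot.coe_units_iff]
    have h7 := IsPrimitiveRoot.orderOf (g ^ ((p - 1) / n))
    rwa [h4] at h7

/-- the numbers of the roots of the cyclotomic polynomials -/
lemma rho_cyc {n p : ℕ} (hn : 2 ≤ n) (hp : p.Prime) (hpn : ¬ p ∣ n) :
    rho (cyclotomic n ℤ) p = if p % n = 1 then n.totient else 0 := by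
  have : Fact p.Prime := ⟨hp⟩
  have hne : NeZero (n : ZMod p) := ⟨by
    rw [Ne, ZMod.natCast_eq_zero_iff]
    exact hpn⟩
  have hev : ∀ x : ℤ, ((p : ℤ) ∣ (cyclotomic n ℤ).eval x ↔
      IsPrimitiveRoot ((x : ZMod p)) n) := by
    intro x
    rw [← isRoot_cyclotomic_iff, IsRoot, ← map_cyclotomic n (Int.castRingHom (ZMod p)),
      eval_intCast_map, ← ZMod.intCast_zmod_eq_zero_iff_dvd]
    rfl
  have h1 : rho (cyclotomic n ℤ) p = (primitiveRoots n (ZMod p)).card := by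
    unfold rho
    apply card_bij (fun (x : ℕ) _ => (x : ZMod p))
    · intro x hx
      rw [mem_filter] at hx
      rw [mem_primitiveRoots (by omega)]
      have := (hev x).1 hx.2
      exact_mod_cast this
    · intro x hx y hy hxy
      rw [mem_filter, mem_range] at hx hy
      rw [ZMod.natCast_eq_natCast_iff'] at hxy
      rwa [Nat.mod_eq_of_lt hx.1, Nat.mod_eq_of_lt hy.1] at hxy
    · intro x hx
      rw [mem_primitiveRoots (by omega)] at hx
      refine ⟨x.val, ?_, ZMod.natCast_zmod_val x⟩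
      rw [mem_filter, mem_range]
      refine ⟨ZMod.val_lt x, ?_⟩
      rw [hev]
      push_cast
      rw [ZMod.natCast_zmod_val]
      exact hx
  rw [h1]
  split_ifs with h
  · obtain ⟨x, hx⟩ := (prim_iff hn hp).2 h
    exact hx.card_primitiveRoots
  · rw [card_eq_zero]
    refine eq_empty_of_forall_notMem fun x hx => h ?_
    rw [mem_primitiveRoots (by omega)] at hx
    exact (prim_iff hn hp).1 ⟨x, hx⟩

lemma mer_cyc (n : ℕ) (hn : 2 ≤ n) (z : ℕ) (hnz : n ≤ z) : ∃ K : ℝ, ∀ w : ℕ, z < w → 3 ≤ w →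
    |∑ p ∈ PS z w, ((if p % n = 1 then n.totient else 0 : ℕ) : ℝ) / p -
      Real.log (Real.log w)| ≤ K := by
  obtain ⟨K, hK⟩ := mer_rho (cyclotomic n ℤ) (cyclotomic.irreducible (by omega)) (by
    rw [natDegree_cyclotomic]
    exact Nat.totient_pos.2 (by omega)) z
  refine ⟨K, fun w hw h3 => ?_⟩
  have h1 := hK w hw h3
  have e1 : ∑ p ∈ PS z w, (rho (cyclotomic n ℤ) p : ℝ) / p =
      ∑ p ∈ PS z w, ((if p % n = 1 then n.totient else 0 : ℕ) : ℝ) / p := by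
    refine sum_congr rfl fun p hp => ?_
    have hp' := mem_PS.1 hp
    rw [rho_cyc hn hp'.2 fun h => ?_]
    have := Nat.le_of_dvd (by omega) h
    omega
  rwa [e1] at h1

lemma mer_one (z : ℕ) : ∃ K : ℝ, ∀ w : ℕ, z < w → 3 ≤ w →
    |∑ p ∈ PS z w, 1 / (p : ℝ) - Real.log (Real.log w)| ≤ K := by
  obtain ⟨K, hK⟩ := mer_rho (X : ℤ[X]) irreducible_X (by simp) z
  refine ⟨K, fun w hw h3 => ?_⟩
  have h1 := hK w hw h3
  have e1 : ∑ p ∈ PS z w, (rho (X : ℤ[X]) p : ℝ) / p = ∑ p ∈ PS z w, 1 / (p : ℝ) :=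
    sum_congr rfl fun p hp => by rw [rho_X (mem_PS.1 hp).2, Nat.cast_one]
  rwa [e1] at h1

/-- from the sums of `r p / p` to the sums of `(p - 1) r p / p²` -/
lemma mer_pass (r : ℕ → ℕ) (c z w : ℕ) (hr : ∀ p, r p ≤ c) (l K : ℝ)
    (h : |∑ p ∈ PS z w, (r p : ℝ) / p - l| ≤ K) :
    l - (K + 2 * c) ≤ ∑ p ∈ PS z w, (((p - 1) * r p : ℕ) : ℝ) / (p : ℝ) ^ 2 ∧
    ∑ p ∈ PS z w, (((p - 1) * r p : ℕ) : ℝ) / (p : ℝ) ^ 2 ≤ l + (K + 2 * c) := by
  have h2 := sum_PS_sq z w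
  have hc0 : (0 : ℝ) ≤ c := Nat.cast_nonneg _
  have hterm : ∀ p ∈ PS z w, (r p : ℝ) / p - c * (1 / (p : ℝ) ^ 2) ≤
      (((p - 1) * r p : ℕ) : ℝ) / (p : ℝ) ^ 2 ∧
      (((p - 1) * r p : ℕ) : ℝ) / (p : ℝ) ^ 2 ≤ (r p : ℝ) / p := by
    intro p hp
    have hp' := mem_PS.1 hp
    have hp0 : (0 : ℝ) < p := by exact_mod_cast hp'.2.pos
    have h6 : (((p - 1) * r p : ℕ) : ℝ) = ((p : ℝ) - 1) * r p := by
      push_cast [Nat.cast_sub hp'.2.one_lt.le]
      ring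
    have h7 : (r p : ℝ) ≤ c := by exact_mod_cast hr p
    have h8 : (0 : ℝ) ≤ r p := Nat.cast_nonneg _
    rw [h6]
    constructor
    · have e1 : (r p : ℝ) / p - c * (1 / (p : ℝ) ^ 2) = ((p : ℝ) * r p - c) / (p : ℝ) ^ 2 := by
        field_simp
      rw [e1]
      refine div_le_div_of_nonneg_right ?_ (by positivity)
      linarith
    · rw [div_le_div_iff₀ (by positivity) hp0]
      nlinarith [mul_nonneg h8 hp0.le]
  have k1 := sum_le_sum fun p hp => (hterm p hp).1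
  have k2 := sum_le_sum fun p hp => (hterm p hp).2
  rw [sum_sub_distrib, ← mul_sum] at k1
  rw [abs_le] at h
  have k3 := mul_le_mul_of_nonneg_left h2 hc0
  constructor
  · linarith [h.1]
  · linarith [h.2]

lemma rfun6 (p : ℕ) : ((1 + (if p % 3 = 1 then 1 else 0) : ℕ) : ℝ) / p =
    1 / (p : ℝ) + (1 / 2) * (((if p % 3 = 1 then Nat.totient 3 else 0 : ℕ) : ℝ) / p) := by
  have h : Nat.totient 3 = 2 := by decide
  rw [h]
  split_ifs <;> push_cast <;> ring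

lemma rfun8 (p : ℕ) : ((2 * (if p % 4 = 1 then 1 else 0) + 4 * (if p % 8 = 1 then 1 else 0) : ℕ) : ℝ)
    / p = ((if p % 4 = 1 then Nat.totient 4 else 0 : ℕ) : ℝ) / p +
      ((if p % 8 = 1 then Nat.totient 8 else 0 : ℕ) : ℝ) / p := by
  have h : Nat.totient 4 = 2 := by decide
  have h' : Nat.totient 8 = 4 := by decide
  rw [h, h']
  split_ifs <;> push_cast <;> ring

/-- the sums for the curves with torsion `Z/2 x Z/6` -/
lemma mer_six (z : ℕ) (hz : 3 ≤ z) : ∃ C : ℝ, 0 ≤ C ∧ ∀ w : ℕ, z < w → 3 ≤ w →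
    (3 / 2 * Real.log (Real.log w) - C ≤
      ∑ p ∈ PS z w, (((p - 1) * (1 + if p % 3 = 1 then 1 else 0) : ℕ) : ℝ) / (p : ℝ) ^ 2) ∧
    (∑ p ∈ PS z w, (((p - 1) * (1 + if p % 3 = 1 then 1 else 0) : ℕ) : ℝ) / (p : ℝ) ^ 2 ≤
      3 / 2 * Real.log (Real.log w) + C) := by
  obtain ⟨K1, hK1⟩ := mer_one z
  obtain ⟨K2, hK2⟩ := mer_cyc 3 (by norm_num) z hz
  refine ⟨|K1| + |K2| + 4, by positivity, fun w hw h3 => ?_⟩
  have h1 := hK1 w hw h3
  have h2 := hK2 w hw h3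
  have h4 := mer_pass (fun p => 1 + if p % 3 = 1 then 1 else 0) 2 z w
    (fun p => by split_ifs <;> omega) (3 / 2 * Real.log (Real.log w)) (|K1| + |K2|) (by
      rw [sum_congr rfl fun p _ => rfun6 p, sum_add_distrib, ← mul_sum]
      have a1 := le_abs_self K1
      have a2 := le_abs_self K2
      have a3 := abs_nonneg K2
      rw [abs_le] at h1 h2 ⊢
      constructor <;> linarith [h1.1, h1.2, h2.1, h2.2])
  norm_num at h4 ⊢
  exact h4

/-- the sums for the curves with torsion `Z/2 x Z/8` -/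
lemma mer_eight (z : ℕ) (hz : 8 ≤ z) : ∃ C : ℝ, 0 ≤ C ∧ ∀ w : ℕ, z < w → 3 ≤ w →
    (2 * Real.log (Real.log w) - C ≤
      ∑ p ∈ PS z w, (((p - 1) * (2 * (if p % 4 = 1 then 1 else 0) +
        4 * (if p % 8 = 1 then 1 else 0)) : ℕ) : ℝ) / (p : ℝ) ^ 2) ∧
    (∑ p ∈ PS z w, (((p - 1) * (2 * (if p % 4 = 1 then 1 else 0) +
        4 * (if p % 8 = 1 then 1 else 0)) : ℕ) : ℝ) / (p : ℝ) ^ 2 ≤
      2 * Real.log (Real.log w) + C) := by
  obtain ⟨K1, hK1⟩ := mer_cyc 4 (by norm_num) z (by omega)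
  obtain ⟨K2, hK2⟩ := mer_cyc 8 (by norm_num) z hz
  refine ⟨|K1| + |K2| + 12, by positivity, fun w hw h3 => ?_⟩
  have h1 := hK1 w hw h3
  have h2 := hK2 w hw h3
  have h4 := mer_pass (fun p => 2 * (if p % 4 = 1 then 1 else 0) + 4 * (if p % 8 = 1 then 1 else 0))
    6 z w (fun p => by split_ifs <;> omega) (2 * Real.log (Real.log w))
    (|K1| + |K2|) (by
      rw [sum_congr rfl fun p _ => rfun8 p, sum_add_distrib]
      have a1 := le_abs_self K1
      have a2 := le_abs_self K2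
      rw [abs_le] at h1 h2 ⊢
      constructor <;> linarith [h1.1, h1.2, h2.1, h2.2])
  have e1 : |K1| + |K2| + 2 * ((6 : ℕ) : ℝ) = |K1| + |K2| + 12 := by push_cast; ring
  rw [e1] at h4
  exact h4

/-- the sums for the residues with `p ∣ P Q` -/
lemma mer_bad (z : ℕ) : ∃ C : ℝ, 0 ≤ C ∧ ∀ w : ℕ, z < w → 3 ≤ w →
    ∑ p ∈ PS z w, ((4 * p - 3 : ℕ) : ℝ) / (p : ℝ) ^ 2 ≤ 4 * Real.log (Real.log w) + C := by
  obtain ⟨K, hK⟩ := mer_one z
  refine ⟨4 * |K|, by positivity, fun w hw h3 => ?_⟩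
  have h1 := hK w hw h3
  have h4 := le_abs_self K
  rw [abs_le] at h1
  have h6 : ∑ p ∈ PS z w, ((4 * p - 3 : ℕ) : ℝ) / (p : ℝ) ^ 2 ≤
      4 * ∑ p ∈ PS z w, 1 / (p : ℝ) := by
    rw [mul_sum]
    refine sum_le_sum fun p hp => ?_
    have hp' := (mem_PS.1 hp).2
    have hp0 : (0 : ℝ) < p := by exact_mod_cast hp'.pos
    have h7 : ((4 * p - 3 : ℕ) : ℝ) ≤ 4 * p := by
      have : 4 * p - 3 ≤ 4 * p := by omega
      exact_mod_cast this
    have e2 : 4 * (1 / (p : ℝ)) = (4 * (p : ℝ)) / (p : ℝ) ^ 2 := by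
      field_simp
    rw [e2]
    exact div_le_div_of_nonneg_right h7 (by positivity)
  linarith [h1.2]

end Pool.Agent.N870.EC
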