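import Mathlib
import Pool.Agent.N870.EC.FamG

/-!
# Project EC: the lower bounds for the families with torsion `Z/2 x Z/6` and `Z/2 x Z/8`

Seat helper870.
-/

set_option autoImplicit false

namespace Pool.Agent.N870.EC

open Finset Filter Pool.Agent.W262.RK

open scoped Classical

open Pool.Agent.W307.SE (Loc Sel SN SelR SN_nonneg sel_fin)

lemma ap_pow_le {L x : ℕ} (h : x ≤ L) (n : ℕ) : x ^ n ≤ L ^ n := Nat.pow_le_pow_left h n

lemma abs_cast_le {L a : ℕ} (h : a ≤ L) : |(a : ℤ)| ≤ (L : ℤ) := by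
  rw [abs_of_nonneg (Int.natCast_nonneg a)]
  exact_mod_cast h

/-- the curves with a rational subgroup `Z/2 x Z/6` -/
theorem low_six (hc : S_CNT2) (hd : S_DEN6) (hf : S_FAM6) (hsz : S_SZG) (hcd : S_CARDG)
    {M N : ℤ → ℤ → ℤ} (hpar : Pool.Agent.W307.SE.PARX 6 24 M N)
    (s ε : ℝ) (hs : 0 < s) (hε : 0 < ε) : ∃ H0 : ℕ, ∀ H : ℕ, H0 ≤ H →
      ((Pool.Agent.W307.RT.Cv 6 H).card : ℝ) *
        (Real.log H) ^ (3 / 2 * (2 ^ s - 1) - 4 * (1 - 2 ^ (-s)) - ε) ≤
      ∑ c ∈ Pool.Agent.W307.RT.Cv 6 H, ((SelR c.1 c.2).ncard : ℝ) ^ s := by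
  have hMN : ∀ a b : ℕ, 1 ≤ a → 1 ≤ b → 0 < M6 a b ∧ 0 < N6 a b := by
    intro a b ha hb
    have ha' : (0 : ℤ) < a := by exact_mod_cast ha
    have hb' : (0 : ℤ) < b := by exact_mod_cast hb
    unfold M6 N6
    constructor <;> positivity
  have hne : ∀ a b : ℕ, 1 ≤ a → 1 ≤ b → 3 * b < a → M6 a b ≠ N6 a b := by
    intro a b ha hb hab
    have ha' : (0 : ℤ) < a := by exact_mod_cast ha
    have hb' : (0 : ℤ) < b := by exact_mod_cast hb
    have hab' : (3 : ℤ) * b < a := by exact_mod_cast hab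
    have e : M6 a b - N6 a b = ((a : ℤ) + 3 * b) ^ 3 * ((a : ℤ) - 3 * b) := by
      unfold M6 N6
      ring
    have h1 : 0 < ((a : ℤ) + 3 * b) ^ 3 * ((a : ℤ) - 3 * b) :=
      mul_pos (by positivity) (by linarith)
    intro h
    rw [← e, h, sub_self] at h1
    exact lt_irrefl _ h1
  have h := fam_gen2 24 (by norm_num) (fun a b => cM (M6 a b) (N6 a b))
    (fun H => Pool.Agent.W307.RT.Cv 6 H)
    (fun c => ((SelR c.1 c.2).ncard : ℝ)) (fun c => Nat.cast_nonneg _) (fun a b => -M6 a b)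
    (fun a b => -N6 a b) hf (fun A B hA hB _ _ hAB => hsz _ _ (hMN A B hA hB).1.ne'
      (hMN A B hA hB).2.ne' (hne A B hA hB hAB)) (hcd 6 24 M N (by norm_num) hpar)
    ((2 ^ s - 1) * (3 / 2) - (1 - 2 ^ (-s)) * 4) s hs (by
      intro ε hε
      refine low_gen2 hc 4 (fun a b => -M6 a b) (fun a b => -N6 a b)
        (fun p => (p - 1) * (1 + if p % 3 = 1 then 1 else 0)) (fun p => 4 * p - 3)
        (3 / 2) 4 (by norm_num) (by norm_num) (by norm_num) (by norm_num)
        ?_ ?_ ?_ ?_ ?_ ?_ ?_ ?_ ?_ ?_ s ε hs hε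
      · intro a b hb _ _ hab
        have ha : 1 ≤ a := by omega
        exact ⟨neg_ne_zero.2 (hMN a b ha hb).1.ne', neg_ne_zero.2 (hMN a b ha hb).2.ne',
          fun h => hne a b ha hb hab (neg_injective h)⟩
      · intro p a b ha hb
        have ha' : (p : ℤ) ∣ (a : ℤ) := Int.natCast_dvd_natCast.2 ha
        refine Dvd.dvd.mul_right ?_ _
        rw [dvd_neg]
        unfold M6
        exact Dvd.dvd.mul_right (dvd_pow ha' (by norm_num)) _
      · intro p a b a' b' h1 h2
        have h1' := Int.natCast_modEq_iff.2 h1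
        have h2' := Int.natCast_modEq_iff.2 h2
        unfold M6 N6
        constructor
        · exact ((h1'.pow 3).mul (h1'.add (h2'.mul_left 6))).neg
        · exact (((h2'.mul_left 3).pow 3).mul ((h2'.mul_left 3).add (h1'.mul_left 2))).neg
      · refine ⟨19, fun L a b hL ha hb => ?_⟩
        have e : ((-M6 a b) * (-N6 a b)).natAbs =
            (a ^ 3 * (a + 6 * b)) * ((3 * b) ^ 3 * (3 * b + 2 * a)) := by
          have e1 : (-M6 a b) * (-N6 a b) =
            ((a ^ 3 * (a + 6 * b) * ((3 * b) ^ 3 * (3 * b + 2 * a)) : ℕ) : ℤ) := by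
            unfold M6 N6
            push_cast
            ring
          rw [e1, Int.natAbs_natCast]
        rw [e]
        have h7 : a + 6 * b ≤ L ^ 4 := by
          have h8 : a + 6 * b ≤ 7 * L := by omega
          have h9 : 8 ≤ L ^ 3 := by
            calc 8 = 2 ^ 3 := by norm_num
              _ ≤ L ^ 3 := Nat.pow_le_pow_left hL 3
          calc a + 6 * b ≤ 7 * L := h8
            _ ≤ L ^ 3 * L := Nat.mul_le_mul_right _ (by omega)
            _ = L ^ 4 := by ring
        have h8 : 3 * b ≤ L ^ 3 := by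
          have h9 : 4 ≤ L ^ 2 := by
            calc 4 = 2 ^ 2 := by norm_num
              _ ≤ L ^ 2 := Nat.pow_le_pow_left hL 2
          calc 3 * b ≤ 3 * L := by omega
            _ ≤ L ^ 2 * L := Nat.mul_le_mul_right _ (by omega)
            _ = L ^ 3 := by ring
        have h9 : 3 * b + 2 * a ≤ L ^ 3 * L := by
          have h9 : 8 ≤ L ^ 3 := by
            calc 8 = 2 ^ 3 := by norm_num
              _ ≤ L ^ 3 := Nat.pow_le_pow_left hL 3
          calc 3 * b + 2 * a ≤ 5 * L := by omega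
            _ ≤ L ^ 3 * L := Nat.mul_le_mul_right _ (by omega)
        have h10 : a ^ 3 ≤ L ^ 3 := Nat.pow_le_pow_left ha 3
        have h11 : b ≤ L := hb
        calc (a ^ 3 * (a + 6 * b)) * ((3 * b) ^ 3 * (3 * b + 2 * a))
            ≤ (L ^ 3 * (L ^ 4)) * ((3 * b) ^ 3 * (L ^ 3 * L)) := by gcongr
          _ ≤ (L ^ 3 * (L ^ 4)) * ((L ^ 5 * L ^ 3) * (L ^ 3 * L)) := by
              have h12 : (3 * b) ^ 3 ≤ L ^ 5 * L ^ 3 := by
                have h13 : 27 ≤ L ^ 5 := by
                  calc 27 ≤ 2 ^ 5 := by norm_num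
                    _ ≤ L ^ 5 := Nat.pow_le_pow_left hL 5
                calc (3 * b) ^ 3 = 27 * b ^ 3 := by ring
                  _ ≤ L ^ 5 * L ^ 3 := Nat.mul_le_mul h13 (Nat.pow_le_pow_left hb 3)
              gcongr
          _ = L ^ 19 := by ring
      · intro p hp hp5
        refine Eq.trans ?_ (hd p hp hp5).1
        unfold cnt
        refine cfc fun t _ => Iff.rfl
      · intro p hp hp5
        refine Eq.trans ?_ (hd p hp hp5).2
        unfold cnt
        refine cfc fun t _ => Iff.rfl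
      · intro p
        show (p - 1) * (1 + if p % 3 = 1 then 1 else 0) ≤ 4 * p
        split_ifs <;> omega
      · intro p
        show 4 * p - 3 ≤ 4 * p
        omega
      · intro z hz
        exact mer_six z (by omega)
      · intro z hz
        exact mer_bad z) ε hε
  obtain ⟨H0, hH0⟩ := h
  refine ⟨H0, fun H hH => le_trans (le_of_eq ?_) (hH0 H hH)⟩
  congr 2
  ring

/-- the curves with a rational subgroup `Z/2 x Z/8` -/
theorem low_eight (hc : S_CNT2) (hd : S_DEN8) (hf : S_FAM8) (hsz : S_SZG) (hcd : S_CARDG)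
    {M N : ℤ → ℤ → ℤ} (hpar : Pool.Agent.W307.SE.PARX 8 48 M N)
    (s ε : ℝ) (hs : 0 < s) (hε : 0 < ε) : ∃ H0 : ℕ, ∀ H : ℕ, H0 ≤ H →
      ((Pool.Agent.W307.RT.Cv 8 H).card : ℝ) *
        (Real.log H) ^ (2 * (2 ^ s - 1) - 4 * (1 - 2 ^ (-s)) - ε) ≤
      ∑ c ∈ Pool.Agent.W307.RT.Cv 8 H, ((SelR c.1 c.2).ncard : ℝ) ^ s := by
  have hodd : ∀ a b : ℕ, a % 6 = 1 → ¬ (2 : ℤ) ∣ M8 a b := by
    intro a b ha h
    unfold M8 at h
    have h1 := Int.prime_two.dvd_of_dvd_pow h
    have h2 : (2 : ℤ) ∣ (a : ℤ) ^ 2 := by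
      have h3 : (2 : ℤ) ∣ 4 * (b : ℤ) ^ 2 := ⟨2 * (b : ℤ) ^ 2, by ring⟩
      have h4 := dvd_add h1 h3
      rwa [sub_add_cancel] at h4
    have h3 := Int.prime_two.dvd_of_dvd_pow h2
    have h4 : (2 : ℕ) ∣ a := by exact_mod_cast h3
    omega
  have heven : ∀ a b : ℕ, (2 : ℤ) ∣ N8 a b := by
    intro a b
    unfold N8
    refine dvd_pow ?_ (by norm_num)
    exact ⟨2 * a * b, by ring⟩
  have hM0 : ∀ a b : ℕ, a % 6 = 1 → M8 a b ≠ 0 := by
    intro a b ha h
    exact hodd a b ha (by rw [h]; exact dvd_zero _)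
  have hN0 : ∀ a b : ℕ, 1 ≤ a → 1 ≤ b → N8 a b ≠ 0 := by
    intro a b ha hb
    have ha' : (0 : ℤ) < a := by exact_mod_cast ha
    have hb' : (0 : ℤ) < b := by exact_mod_cast hb
    unfold N8
    positivity
  have hne : ∀ a b : ℕ, a % 6 = 1 → M8 a b ≠ N8 a b := by
    intro a b ha h
    exact hodd a b ha (by rw [h]; exact heven a b)
  have h := fam_gen2 48 (by norm_num) (fun a b => cM (M8 a b) (N8 a b))
    (fun H => Pool.Agent.W307.RT.Cv 8 H)
    (fun c => ((SelR c.1 c.2).ncard : ℝ)) (fun c => Nat.cast_nonneg _) (fun a b => -M8 a b)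
    (fun a b => -N8 a b) hf (fun A B hA hB _ h6 _ => hsz _ _ (hM0 A B h6)
      (hN0 A B hA hB) (hne A B h6)) (hcd 8 48 M N (by norm_num) hpar)
    ((2 ^ s - 1) * 2 - (1 - 2 ^ (-s)) * 4) s hs (by
      intro ε hε
      refine low_gen2 hc 6 (fun a b => -M8 a b) (fun a b => -N8 a b)
        (fun p => (p - 1) * (2 * (if p % 4 = 1 then 1 else 0) + 4 * (if p % 8 = 1 then 1 else 0)))
        (fun p => 4 * p - 3)
        2 4 (by norm_num) (by norm_num) (by norm_num) (by norm_num)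
        ?_ ?_ ?_ ?_ ?_ ?_ ?_ ?_ ?_ ?_ s ε hs hε
      · intro a b hb _ h6 hab
        have ha : 1 ≤ a := by omega
        exact ⟨neg_ne_zero.2 (hM0 a b h6), neg_ne_zero.2 (hN0 a b ha hb),
          fun h => hne a b h6 (neg_injective h)⟩
      · intro p a b ha hb
        have ha' : (p : ℤ) ∣ (a : ℤ) := Int.natCast_dvd_natCast.2 ha
        refine Dvd.dvd.mul_left ?_ _
        rw [dvd_neg]
        unfold N8
        exact dvd_pow (Dvd.dvd.mul_right (Dvd.dvd.mul_left ha' _) _) (by norm_num)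
      · intro p a b a' b' h1 h2
        have h1' := Int.natCast_modEq_iff.2 h1
        have h2' := Int.natCast_modEq_iff.2 h2
        unfold M8 N8
        constructor
        · exact (((h1'.pow 2).sub ((h2'.pow 2).mul_left 4)).pow 4).neg
        · exact ((((h1'.mul_left 4)).mul h2').pow 4).neg
      · refine ⟨40, fun L a b hL ha hb => ?_⟩
        have hb2 : b ^ 2 ≤ L ^ 2 := Nat.pow_le_pow_left hb 2
        have ha2 : a ^ 2 ≤ L ^ 2 := Nat.pow_le_pow_left ha 2
        have h4 : 4 ≤ L ^ 2 := by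
          calc 4 = 2 ^ 2 := by norm_num
            _ ≤ L ^ 2 := Nat.pow_le_pow_left hL 2
        have k1 : ((a : ℤ) ^ 2 - 4 * (b : ℤ) ^ 2).natAbs ≤ L ^ 5 := by
          have e1 : ((a : ℤ) ^ 2 - 4 * (b : ℤ) ^ 2).natAbs ≤ a ^ 2 + 4 * b ^ 2 := by
            have e2 := Int.natAbs_sub_le ((a : ℤ) ^ 2) (4 * (b : ℤ) ^ 2)
            have e3 : ((a : ℤ) ^ 2).natAbs = a ^ 2 := by
              rw [Int.natAbs_pow, Int.natAbs_natCast]
            have e4 : (4 * (b : ℤ) ^ 2).natAbs = 4 * b ^ 2 := by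
              rw [Int.natAbs_mul, Int.natAbs_pow, Int.natAbs_natCast]
              rfl
            rw [e3, e4] at e2
            exact e2
          have h8 : 8 ≤ L ^ 3 := by
            calc 8 = 2 ^ 3 := by norm_num
              _ ≤ L ^ 3 := Nat.pow_le_pow_left hL 3
          calc ((a : ℤ) ^ 2 - 4 * (b : ℤ) ^ 2).natAbs ≤ a ^ 2 + 4 * b ^ 2 := e1
            _ ≤ 5 * L ^ 2 := by omega
            _ ≤ L ^ 3 * L ^ 2 := Nat.mul_le_mul_right _ (by omega)
            _ = L ^ 5 := by ring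
        have k2 : (4 * (a : ℤ) * b).natAbs ≤ L ^ 4 := by
          have e4 : (4 * (a : ℤ) * b).natAbs = 4 * a * b := by
            rw [Int.natAbs_mul, Int.natAbs_mul, Int.natAbs_natCast, Int.natAbs_natCast]
            rfl
          rw [e4]
          calc 4 * a * b ≤ L ^ 2 * L * L := by gcongr
            _ = L ^ 4 := by ring
        unfold M8 N8
        rw [Int.natAbs_mul, Int.natAbs_neg, Int.natAbs_neg, Int.natAbs_pow, Int.natAbs_pow]
        calc ((a : ℤ) ^ 2 - 4 * (b : ℤ) ^ 2).natAbs ^ 4 * (4 * (a : ℤ) * b).natAbs ^ 4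
            ≤ (L ^ 5) ^ 4 * (L ^ 4) ^ 4 :=
              Nat.mul_le_mul (Nat.pow_le_pow_left k1 4) (Nat.pow_le_pow_left k2 4)
          _ = L ^ 36 := by ring
          _ ≤ L ^ 40 := Nat.pow_le_pow_right (by omega) (by norm_num)
      · intro p hp hp5
        refine Eq.trans ?_ (hd p hp hp5).1
        unfold cnt
        refine cfc fun t _ => Iff.rfl
      · intro p hp hp5
        refine Eq.trans ?_ (hd p hp hp5).2
        unfold cnt
        refine cfc fun t _ => Iff.rfl
      · intro p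
        show (p - 1) * (2 * (if p % 4 = 1 then 1 else 0) + 4 * (if p % 8 = 1 then 1 else 0)) ≤ 6 * p
        split_ifs <;> omega
      · intro p
        show 4 * p - 3 ≤ 6 * p
        omega
      · intro z hz
        exact mer_eight z (by omega)
      · intro z hz
        exact mer_bad z) ε hε
  obtain ⟨H0, hH0⟩ := h
  refine ⟨H0, fun H hH => le_trans (le_of_eq ?_) (hH0 H hH)⟩
  congr 2
  ring

end Pool.Agent.N870.EC
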