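import Mathlib
import Pool.Agent.N870.EC.Pen3

/-!
# Project EC: the moments in a pencil, the statement of the results file from the parts

Seat helper870.
-/

set_option autoImplicit false

namespace Pool.Agent.N870.EC.P4

open Finset Polynomial

open Pool.Agent.TH841.SH.D (ShaTor HasDiv rk)

/-- the curve `y² = x (x - A) (x - B)` over `ℚ` -/
def E (A B : ℤ) : WeierstrassCurve ℚ := ⟨0, -((A : ℚ) + B), 0, (A : ℚ) * B, 0⟩

/-- `u_k = a_k ∏ f_{k,i}` -/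
noncomputable def u {n : Fin 3 → ℕ} (a : Fin 3 → ℤ) (f : ∀ k : Fin 3, Fin (n k) → ℤ[X])
    (k : Fin 3) : ℤ[X] := C (a k) * ∏ i, f k i

/-- `v` is a square modulo `f`, over the rationals -/
def SqMod (f v : ℤ[X]) : Prop := ∃ q : ℚ[X], f.map (Int.castRingHom ℚ) ∣
  (q ^ 2 - v.map (Int.castRingHom ℚ))

/-- modulo a factor `f` of `u_k`, the curve `y² = x (x - D u₀) (x - D u₁)` has a node whose tangent
directions are the square roots of `v_k`; so the reduction at `f` is split if and only if `v_k` is a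
square modulo `f` -/
noncomputable def v {n : Fin 3 → ℕ} (D : ℤ[X]) (a : Fin 3 → ℤ)
    (f : ∀ k : Fin 3, Fin (n k) → ℤ[X]) : Fin 3 → ℤ[X] :=
  ![-(D * u a f 1), -(D * u a f 0), D * u a f 0]

open Classical in
/-- the number `s_k` of the factors of `u_k` with split multiplicative reduction -/
noncomputable def sp {n : Fin 3 → ℕ} (D : ℤ[X]) (a : Fin 3 → ℤ)
    (f : ∀ k : Fin 3, Fin (n k) → ℤ[X]) (k : Fin 3) : ℕ :=
  (univ.filter (fun i => SqMod (f k i) (v D a f k))).card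

/-- the fibre at `t` -/
noncomputable def fib {n : Fin 3 → ℕ} (D : ℤ[X]) (a : Fin 3 → ℤ)
    (f : ∀ k : Fin 3, Fin (n k) → ℤ[X]) (t : ℤ) : WeierstrassCurve ℚ :=
  E ((D * u a f 0).eval t) ((D * u a f 1).eval t)

open Classical in
/-- the sum of `(2 ^ rank * #Ш[2]) ^ s` over the integers `t` with `N < t ≤ N + M` for which the
fibre is an elliptic curve -/
noncomputable def Mom {n : Fin 3 → ℕ} (D : ℤ[X]) (a : Fin 3 → ℤ)
    (f : ∀ k : Fin 3, Fin (n k) → ℤ[X]) (s : ℝ) (N : ℤ) (M : ℕ) : ℝ :=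
  ∑ t ∈ (Ioc N (N + M)).filter (fun t => ∀ k, (D * u a f k).eval t ≠ 0),
    ((2 : ℝ) ^ rk (fib D a f t) * (Nat.card (ShaTor (fib D a f t) 2) : ℝ)) ^ s

/-- the moment of order `s` is bounded: for every `L` the average of `(2 ^ rank * #Ш[2]) ^ s` over
`N < t ≤ N + M` is bounded, uniformly for `|N| ≤ M ^ L` -/
def Bounded {n : Fin 3 → ℕ} (D : ℤ[X]) (a : Fin 3 → ℤ)
    (f : ∀ k : Fin 3, Fin (n k) → ℤ[X]) (s : ℝ) : Prop :=
  ∀ L : ℕ, ∃ C : ℝ, ∀ (N : ℤ) (M : ℕ), 1 ≤ M → |N| ≤ (M : ℤ) ^ L → Mom D a f s N M ≤ C * M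

open Classical in
/-- the integers `t` outside of `Z` with `N < t ≤ N + M` -/
noncomputable def Par (Z : Set ℤ) (N : ℤ) (M : ℕ) : Finset ℤ :=
  (Ioc N (N + M)).filter (fun t => t ∉ Z)

open Classical in
/-- a set of density zero, uniformly in short intervals: for all `L` and `ε > 0` and all large `M`
every interval `(N, N + M]` with `|N| ≤ M ^ L` contains at most `ε M` elements of `Z` -/
def DensityZero (Z : Set ℤ) : Prop := ∀ (L : ℕ) (ε : ℝ), 0 < ε → ∃ M₀ : ℕ, ∀ (N : ℤ) (M : ℕ),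
  M₀ ≤ M → |N| ≤ (M : ℤ) ^ L → (((Ioc N (N + (M : ℤ))).filter (fun t => t ∈ Z)).card : ℝ) ≤ ε * M

open Classical in
/-- the theorem -/
theorem result (hpw : S_PW) (hmp : S_MERP) (hm2 : S_MER2) (n : Fin 3 → ℕ) (a : Fin 3 → ℤ)
    (f : ∀ k : Fin 3, Fin (n k) → ℤ[X]) (D : ℤ[X])
    (ha : ∀ k, a k ≠ 0) (hf : ∀ k i, Irreducible (f k i) ∧ 0 < (f k i).natDegree)
    (hf' : ∀ k i l j, (⟨k, i⟩ : Σ k : Fin 3, Fin (n k)) ≠ ⟨l, j⟩ → ¬ Associated (f k i) (f l j))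
    (hu : u a f 0 - u a f 1 = u a f 2) (hD : D ≠ 0) (hDf : ∀ k i, ¬ f k i ∣ D) :
    -- the lower bound for all the moments
    (∀ (m : ℕ) (g : Fin m → ℤ[X]) (c : ℤ) (K : ℕ), (∀ j, Irreducible (g j) ∧ 0 < (g j).natDegree) →
      c ≠ 0 → D ∣ C c * (∏ j, g j) ^ K → ∀ s ε : ℝ, 0 < s → 0 < ε → ∀ (L : ℕ) (k : Fin 3),
      ∃ M₀ : ℕ, ∀ (N : ℤ) (M : ℕ), M₀ ≤ M → |N| ≤ (M : ℤ) ^ L →
        (M : ℝ) * (Real.log M) ^ ((2 ^ s - 1) * (((n k : ℝ) + sp D a f k) / 2) -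
          (1 - 2 ^ (-s)) * (n 0 + n 1 + n 2 - n k + m : ℝ) - ε) ≤ Mom D a f s N M) ∧
    -- all the moments are bounded only for quadratic twists
    ((∀ s : ℝ, 0 < s → Bounded D a f s) ↔ ∀ k, n k = 0) ∧
    -- constant `D`
    ((∃ d : ℤ, D = C d) →
      (Bounded D a f 1 ↔ ∀ k, 2 * n k + sp D a f k ≤ n 0 + n 1 + n 2) ∧
      (Bounded D a f 2 → n 0 = n 1 ∧ n 1 = n 2 ∧ ∀ k, sp D a f k = 0) ∧
      (0 < n 0 + n 1 + n 2 → ∀ s : ℝ, 2 < s → ¬ Bounded D a f s)) ∧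
    -- all the moments are bounded outside of a set of density zero
    ((∀ k, 2 * n k < n 0 + n 1 + n 2) → ∃ Z : Set ℤ, DensityZero Z ∧
      (∀ t, t ∉ Z → ∀ k, (D * u a f k).eval t ≠ 0) ∧
      ∀ k L : ℕ, ∃ C : ℝ, ∀ (N : ℤ) (M : ℕ), 1 ≤ M → |N| ≤ (M : ℤ) ^ L →
      (∀ t ∈ Par Z N M, ∀ j : ℕ, Finite (ShaTor (fib D a f t) (2 ^ j))) ∧
      (∀ j : ℕ, 1 ≤ j → ∑ t ∈ Par Z N M, ((2 : ℝ) ^ rk (fib D a f t) *
        (Nat.card (ShaTor (fib D a f t) (2 ^ j)) : ℝ) ^ ((1 : ℝ) / j)) ^ k ≤ C * M) ∧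
      ∀ m q : ℕ, (((Par Z N M).filter (fun t => m ≤ rk (fib D a f t) ∧
        HasDiv (fib D a f t) q)).card : ℝ) ≤ C * M / 2 ^ (k * (m + q))) := by
  have hb : ∀ s : ℝ, Bounded D a f s ↔ BM D a f s := fun s => Iff.rfl
  have hsk : ∀ k, sp D a f k = sk D a f k := fun k => rfl
  refine ⟨?_, ?_, ?_, ?_⟩
  · intro m g c K hg hc hDg s ε hs hε L k
    exact pen_low hpw hmp hm2 a f D ha hf hf' hu hD hDf g hg c K hc hDg s ε hs hε L k
  · simp only [hb]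
    exact iso_iff hpw hmp hm2 a f D ha hf hf' hu hD hDf
  · rintro ⟨d, hd⟩
    simp only [hb, hsk]
    exact ⟨avg_iff hpw hmp hm2 a f D ha hf hf' hu hD hDf d hd,
      second_moment hpw hmp hm2 a f D ha hf hf' hu hD hDf d hd,
      no_moment hpw hmp hm2 a f D ha hf hf' hu hD hDf d hd⟩
  · intro hn
    have hirr : Pool.Agent.TH841.PT.Irr (Pool.Agent.TH841.TR.fp f) :=
      ⟨fun x => (hf x.1 x.2).1, fun x => (hf x.1 x.2).2, fun x y hxy => hf' x.1 x.2 y.1 y.2 hxy⟩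
    obtain ⟨Z, h1, h2, h3⟩ := Pool.Agent.TH841.PM.penZQ Pool.Agent.TH841.PM.tavz a f ha hirr hu D
      hD hDf hn
    refine ⟨Z, h1, h2, fun k L => ?_⟩
    obtain ⟨C, hC⟩ := h3 k L
    exact ⟨C, fun N M hM hN => hC N M hM hN _ rfl⟩

end Pool.Agent.N870.EC.P4
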