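import Mathlib
import Pool.Agent.N870.EC.Stm
import Pool.Agent.Y833.SX.Sel
import Pool.Agent.Z864.SX.SelH

/-!
# Project EC: the Selmer pairs inject into the Selmer group

Seat helper870.
-/

set_option autoImplicit false

namespace Pool.Agent.N870.EC

open scoped Classical

open Pool.Agent.W262.SH (QB)
open Pool.Agent.TH841.SH (IsR LocC selHom)
open Pool.Agent.W307.SE (Loc Sel SN)
open Pool.Agent.Y667.SX (Sel2H)

lemma locC_tr {K : Type} [Field K] {a b c d1 d2 : ℤ} (h : Loc K (b - a) (c - a) d1 d2) :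
    LocC K a b c d1 d2 := by
  obtain ⟨x, y, hy, hxy, h1, h2⟩ := h
  push_cast at hxy h2
  refine ⟨x + a, y, hy, ?_, ?_, ?_⟩
  · rw [hxy]
    ring
  · have : x + (a : K) - a = x := by ring
    rw [this]
    exact h1
  · have : x + (a : K) - b = x - (b - a) := by ring
    rw [this]
    exact h2

theorem selge : S_SELGE := by
  intro W a b c hab hac hbc hW hfin
  obtain ⟨e⟩ := Pool.Agent.Y833.SX.sel2H_card hW
  have hfin' : Finite (selHom W) := Finite.of_equiv _ e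
  have hex : ∀ d : Sel (b - a) (c - a), ∃ f : selHom W,
      (∀ s : QB, s ^ 2 = (d.1.1 : ℤ) → ∀ σ : QB ≃ₐ[ℚ] QB, σ s = s ↔
        Pool.Agent.TH841.SH.IsX (W.baseChange QB) (algebraMap ℚ QB a) (f.1 σ)) ∧
      ∀ s : QB, s ^ 2 = (d.1.2 : ℤ) → ∀ σ : QB ≃ₐ[ℚ] QB, σ s = s ↔
        Pool.Agent.TH841.SH.IsX (W.baseChange QB) (algebraMap ℚ QB b) (f.1 σ) := by
    rintro ⟨⟨d1, d2⟩, hd1, hd2, hdR, hdp⟩
    obtain ⟨f, hf, hf1, hf2⟩ := Pool.Agent.Z864.SX.exists_hom hW hab hac hbc hd1.ne_zero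
      hd2.ne_zero (locC_tr hdR) (fun p _ => locC_tr (hdp p))
    exact ⟨⟨f, hf⟩, hf1, hf2⟩
  choose Ψ hΨ1 hΨ2 using hex
  have hinj : Function.Injective Ψ := by
    intro d d' hdd
    have k1 : d.1.1 = d'.1.1 := by
      apply Pool.Agent.Z864.SX.cls_eq d.2.1 d'.2.1
      intro s t hs ht σ
      rw [hΨ1 d s hs σ, hΨ1 d' t ht σ, hdd]
    have k2 : d.1.2 = d'.1.2 := by
      apply Pool.Agent.Z864.SX.cls_eq d.2.2.1 d'.2.2.1
      intro s t hs ht σ
      rw [hΨ2 d s hs σ, hΨ2 d' t ht σ, hdd]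
    exact Subtype.ext (Prod.ext k1 k2)
  unfold SN
  rw [Nat.card_congr e, ← Nat.card_coe_set_eq]
  exact_mod_cast Nat.card_le_card_of_injective Ψ hinj

end Pool.Agent.N870.EC
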